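import Pool.Agent.Helper817.IdH
import Pool.Agent.Helper341.Alt.Asm
set_option autoImplicit false

/-! `N1(a; ·, ·)` is a Hochschild 2-cocycle, and the alternation of `N1(a;b,c)(x,y,z)`. -/

namespace Pool.Agent.Helper817.IdH2
open Pool.Agent.Helper817.AltCert Pool.Agent.Helper817.CertH Pool.Agent.Helper817.IdH
open Pool.Agent.Helper928.Nuc.Tens Pool.Agent.Helper928.Nuc.Alt Pool.Agent.Helper341.Alt
open Pool.Agent.Helper341.Alt.Asm

section
variable {A : Type} [NonUnitalNonAssocRing A] (hA : IsAlt A)
include hA

set_option maxHeartbeats 4000000 in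
/-- the cocycle identity -/
theorem H_id (a b c y : A) :
    b * N1 a c y - N1 a (b * c) y + N1 a b (c * y) - N1 a b c * y = 0 := by
  have h := main hA TB 4 CT TP TN chkH repP repN
    (fun i => if i = 0 then a else if i = 1 then b else if i = 2 then c else y)
  simp only [TP, TN, valL, T.val, one_smul, reduceIte, one_ne_zero, OfNat.ofNat_ne_zero, OfNat.ofNat_ne_one,
    add_zero, OfNat.ofNat_eq_ofNat] at h
  norm_num at h
  unfold N1 qq br as
  simp only [mul_sub, sub_mul, mul_add, add_mul]
  linear_combination (norm := abel) h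

end

end Pool.Agent.Helper817.IdH2
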