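import Pool.Agent.Helper817.IdI
import Pool.Agent.Helper817.IdH2
set_option autoImplicit false

/-! `N1(a;b,c)` is nuclear, and `N1(a;b,c)(x,y,z)` alternates in `b,c,x,y,z`. -/

namespace Pool.Agent.Helper817.IdI2
open Pool.Agent.Helper817.AltCert Pool.Agent.Helper817.CertI Pool.Agent.Helper817.IdI
open Pool.Agent.Helper928.Nuc.Tens Pool.Agent.Helper928.Nuc.Alt Pool.Agent.Helper341.Alt
open Pool.Agent.Helper341.Alt.Asm Pool.Agent.Helper341.Alt.LemV

section
variable {A : Type} [NonUnitalNonAssocRing A] (hA : IsAlt A)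
include hA

set_option maxHeartbeats 4000000 in
/-- `(q, a, z) = 0` for `q = [a,b][a,c] + [a,(a,b,c)]` -/
theorem q_id (a b c z : A) : as (qq a a b c) a z = 0 := by
  have h := main hA TB 4 CT TP TN chkI repP repN
    (fun i => if i = 0 then a else if i = 1 then b else if i = 2 then c else z)
  simp only [TP, TN, valL, T.val, one_smul, reduceIte, one_ne_zero, OfNat.ofNat_ne_zero, OfNat.ofNat_ne_one,
    add_zero] at h
  norm_num at h
  unfold qq br as
  simp only [mul_sub, sub_mul, add_mul]
  linear_combination (norm := abel) h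

omit hA in
lemma as_zero1 (y z : A) : as (0 : A) y z = 0 := by unfold as; simp

/-- if `(x, y, A) = 0` then `[x, y]` is nuclear -/
theorem br_nuc (x y : A) (h : ∀ z, as x y z = 0) : IsNuc (br x y) := by
  intro p q
  have h1 := F_comm hA x y p q
  have h2 := F_pair hA x y p q
  have e1 : as (br p q) x y = 0 := by rw [pc1 hA]; exact h _
  have e2 : as (p * q) x y = 0 := by rw [pc1 hA]; exact h _
  have e3 : as p x y = 0 := by rw [pc1 hA]; exact h _
  have e4 : as q x y = 0 := by rw [pc1 hA]; exact h _
  rw [e2, e3, e4, mul_zero, zero_mul, sub_zero, sub_zero] at h2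
  rw [← h2, e1, add_zero] at h1
  exact h1.symm

theorem N1_nuc (a b c : A) : IsNuc (N1 a b c) := br_nuc hA _ _ (q_id hA a b c)

/-- rotation -/
theorem M_rot (a b c y u v : A) : N1 a c y * as b u v = N1 a b c * as y u v := by
  have h := congrArg (fun t => as t u v) (IdH2.H_id hA a b c y)
  simp only [as_sub1, LemV.as_add1, as_zero1] at h
  have e1 : as (b * N1 a c y) u v = N1 a c y * as b u v := (N1_nuc hA a c y).mul_right hA b u v
  have e2 : as (N1 a b c * y) u v = N1 a b c * as y u v := (N1_nuc hA a b c).mul_left hA y u v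
  rw [e1, e2, N1_nuc hA a (b * c) y u v, N1_nuc hA a b (c * y) u v, sub_zero, add_zero, sub_eq_zero] at h
  exact h

omit hA in
lemma N1_add (a b c c' : A) : N1 a b (c + c') = N1 a b c + N1 a b c' := by
  unfold N1 qq br as
  simp only [mul_add, add_mul, mul_sub, sub_mul]
  abel

/-- `I2` -/
theorem I2 (a b c y z : A) : N1 a b c * as c y z = 0 := by
  have key : ∀ p x, N1 a b p * as x p z = 0 := by
    intro p x
    rw [M_rot hA a x b p p z, as_self1 hA, mul_zero]
  have h := key (c + y) c
  rw [N1_add, LemV.as_add2] at h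
  simp only [mul_add, add_mul] at h
  rw [key c c, key y c, as_self1 hA, mul_zero] at h
  simpa using h

end

end Pool.Agent.Helper817.IdI2
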