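import Pool.Agent.Helper817.UDSound
import Pool.Agent.Helper928.Nuc.Alt
set_option autoImplicit false

/-! The alternative algebra of rank 167 over any commutative ring. -/

namespace Pool.Agent.Helper817.UD
open Pool.Agent.Helper928.Nuc.Tens Pool.Agent.Helper928.Nuc.Free

section general
variable {ι : Type} [Fintype ι] {Φ : Type} [CommRing Φ] (g : ι → ι → ι → ℤ)

lemma assoc1 (x y z : ι → Φ) (k : ι) :
    ∑ m, ∑ l, (g m l k : Φ) * ((∑ i, ∑ j, (g i j m : Φ) * (x i * y j)) * z l) =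
      ∑ l, ∑ i, ∑ j, ((∑ m, g i j m * g m l k : ℤ) : Φ) * (x i * y j * z l) := by
  rw [Finset.sum_comm]
  refine Finset.sum_congr rfl fun l _ => ?_
  simp only [Finset.sum_mul, Finset.mul_sum]
  rw [Finset.sum_comm]
  refine Finset.sum_congr rfl fun i _ => ?_
  rw [Finset.sum_comm]
  refine Finset.sum_congr rfl fun j _ => ?_
  rw [Int.cast_sum, Finset.sum_mul]
  refine Finset.sum_congr rfl fun m _ => ?_
  push_cast
  ring

lemma assoc2 (x y z : ι → Φ) (k : ι) :
    ∑ i, ∑ m, (g i m k : Φ) * (x i * (∑ j, ∑ l, (g j l m : Φ) * (y j * z l))) =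
      ∑ l, ∑ i, ∑ j, ((∑ m, g j l m * g i m k : ℤ) : Φ) * (x i * y j * z l) := by
  have h : ∀ i, ∑ m, (g i m k : Φ) * (x i * (∑ j, ∑ l, (g j l m : Φ) * (y j * z l))) =
      ∑ l, ∑ j, ((∑ m, g j l m * g i m k : ℤ) : Φ) * (x i * y j * z l) := by
    intro i
    rw [Finset.sum_comm]
    simp only [Finset.mul_sum]
    rw [Finset.sum_comm]
    refine Finset.sum_congr rfl fun j _ => ?_
    rw [Finset.sum_comm]
    refine Finset.sum_congr rfl fun l _ => ?_
    rw [Int.cast_sum, Finset.sum_mul]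
    refine Finset.sum_congr rfl fun m _ => ?_
    push_cast
    ring
  simp only [h]
  rw [Finset.sum_comm]

lemma antisym_sum {M : Type} [AddCommGroup M] (f : ι → ι → M) (h : ∀ i j, f i j + f j i = 0) (h0 : ∀ i, f i i = 0) :
    ∑ i, ∑ j, f i j = 0 := by
  rw [← Finset.sum_product']
  refine Finset.sum_involution (fun p _ => (p.2, p.1)) (fun p _ => h _ _) (fun p _ hp hq => ?_) (fun p _ => Finset.mem_univ _)
    (fun p _ => rfl)
  apply hp
  have : p.2 = p.1 := congrArg Prod.fst hq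
  rw [this]
  exact h0 _

end general

/-- the algebra of rank 167 -/
def E (Φ : Type) : Type := Fin 167 → Φ

section
variable {Φ : Type} [CommRing Φ]

instance : AddCommGroup (E Φ) := inferInstanceAs (AddCommGroup (Fin 167 → Φ))
instance : Module Φ (E Φ) := inferInstanceAs (Module Φ (Fin 167 → Φ))

noncomputable instance : Mul (E Φ) := ⟨fun x y k => ∑ i, ∑ j, (ga i j k : Φ) * (x i * y j)⟩

lemma mul_def (x y : E Φ) (k : Fin 167) : (x * y) k = ∑ i, ∑ j, (ga i j k : Φ) * (x i * y j) := rfl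
lemma add_def (x y : E Φ) (k : Fin 167) : (x + y) k = x k + y k := rfl
lemma sub_def (x y : E Φ) (k : Fin 167) : (x - y) k = x k - y k := rfl
lemma neg_def (x : E Φ) (k : Fin 167) : (-x) k = - x k := rfl
lemma smul_def (r : Φ) (x : E Φ) (k : Fin 167) : (r • x) k = r * x k := rfl
lemma zero_def (k : Fin 167) : (0 : E Φ) k = 0 := rfl

noncomputable instance : NonUnitalNonAssocRing (E Φ) where
  left_distrib := by
    intro x y z; funext k
    rw [mul_def, add_def, mul_def, mul_def, ← Finset.sum_add_distrib]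
    refine Finset.sum_congr rfl fun i _ => ?_
    rw [← Finset.sum_add_distrib]
    refine Finset.sum_congr rfl fun j _ => ?_
    rw [add_def]; ring
  right_distrib := by
    intro x y z; funext k
    rw [mul_def, add_def, mul_def, mul_def, ← Finset.sum_add_distrib]
    refine Finset.sum_congr rfl fun i _ => ?_
    rw [← Finset.sum_add_distrib]
    refine Finset.sum_congr rfl fun j _ => ?_
    rw [add_def]; ring
  zero_mul := by
    intro x; funext k
    rw [mul_def]
    simp [zero_def]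
  mul_zero := by
    intro x; funext k
    rw [mul_def]
    simp [zero_def]

instance : IsScalarTower Φ (E Φ) (E Φ) := ⟨by
  intro r x y
  funext k
  rw [smul_eq_mul, smul_eq_mul, smul_def, mul_def, mul_def, Finset.mul_sum]
  refine Finset.sum_congr rfl fun i _ => ?_
  rw [Finset.mul_sum]
  refine Finset.sum_congr rfl fun j _ => ?_
  rw [smul_def]; ring⟩

instance : SMulCommClass Φ (E Φ) (E Φ) := ⟨by
  intro r x y
  funext k
  rw [smul_eq_mul, smul_eq_mul, smul_def, mul_def, mul_def, Finset.mul_sum]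
  refine Finset.sum_congr rfl fun i _ => ?_
  rw [Finset.mul_sum]
  refine Finset.sum_congr rfl fun j _ => ?_
  rw [smul_def]; ring⟩

lemma as_def (x y z : E Φ) (k : Fin 167) :
    as x y z k = ∑ l : Fin 167, ∑ i : Fin 167, ∑ j : Fin 167, ((cf (asl i j l) k : ℤ) : Φ) * (x i * y j * z l) := by
  have h : as x y z k = (∑ m, ∑ l, (ga m l k : Φ) * ((∑ i, ∑ j, (ga i j m : Φ) * (x i * y j)) * z l)) -
      ∑ i, ∑ m, (ga i m k : Φ) * (x i * (∑ j, ∑ l, (ga j l m : Φ) * (y j * z l))) := rfl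
  rw [h, assoc1, assoc2, ← Finset.sum_sub_distrib]
  refine Finset.sum_congr rfl fun l _ => ?_
  rw [← Finset.sum_sub_distrib]
  refine Finset.sum_congr rfl fun i _ => ?_
  rw [← Finset.sum_sub_distrib]
  refine Finset.sum_congr rfl fun j _ => ?_
  rw [cf_asl, Int.cast_sub, sub_mul]

lemma left_alt (x z : E Φ) : as x x z = 0 := by
  funext k
  rw [as_def, zero_def]
  refine Finset.sum_eq_zero fun l _ => antisym_sum _ (fun i j => ?_) (fun i => ?_)
  · have h := (chk_all i j l i.2 j.2 l.2 k).1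
    have h2 := congrArg (fun m : ℤ => (m : Φ)) h
    simp only [Int.cast_add, Int.cast_zero] at h2
    linear_combination (x i * x j * z l) * h2
  · have h := (chk_all i i l i.2 i.2 l.2 k).1
    have h2 : cf (asl i i l) k = 0 := by omega
    rw [h2]; simp

lemma right_alt (x z : E Φ) : as z x x = 0 := by
  funext k
  rw [as_def, zero_def, Finset.sum_comm]
  refine Finset.sum_eq_zero fun l _ => antisym_sum _ (fun i j => ?_) (fun i => ?_)
  · have h := (chk_all i j l i.2 j.2 l.2 k).2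
    have h2 := congrArg (fun m : ℤ => (m : Φ)) h
    simp only [Int.cast_add, Int.cast_zero] at h2
    linear_combination (x i * x j * z l) * h2
  · have h := (chk_all i i l i.2 i.2 l.2 k).2
    have h2 : cf (asl l i i) k = 0 := by omega
    rw [h2]; simp

theorem E_alt : IsAlt (E Φ) := ⟨fun a b => sub_eq_zero.mp (left_alt a b), fun a b => sub_eq_zero.mp (right_alt a b)⟩

end

/-! ### evaluation -/

/-- lists of valid codes -/
def VL : Type := {L : List ℕ // ∀ c ∈ L, c / 2 < 167}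

lemma v_app {L M : List ℕ} (hL : ∀ c ∈ L, c / 2 < 167) (hM : ∀ c ∈ M, c / 2 < 167) : ∀ c ∈ app L M, c / 2 < 167 := by
  induction L with
  | nil => exact hM
  | cons d t ih =>
    intro c hc
    have hc' : c = d ∨ c ∈ app t M := List.mem_cons.mp hc
    rcases hc' with rfl | hc'
    · exact hL _ List.mem_cons_self
    · exact ih (fun e he => hL e (List.mem_cons_of_mem _ he)) c hc'

lemma v_flipL {L : List ℕ} (hL : ∀ c ∈ L, c / 2 < 167) : ∀ c ∈ flipL L, c / 2 < 167 := by
  induction L with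
  | nil => exact hL
  | cons d t ih =>
    intro c hc
    have hc' : c = flip d ∨ c ∈ flipL t := List.mem_cons.mp hc
    rcases hc' with rfl | hc'
    · rw [flip_div]; exact hL _ List.mem_cons_self
    · exact ih (fun e he => hL e (List.mem_cons_of_mem _ he)) c hc'

lemma v_bind {F : ℕ → List ℕ} {L : List ℕ} (hL : ∀ c ∈ L, c / 2 < 167) (hF : ∀ m < 167, ∀ c ∈ F m, c / 2 < 167) :
    ∀ c ∈ bind F L, c / 2 < 167 := by
  induction L with
  | nil => intro c hc; exact absurd hc List.not_mem_nil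
  | cons d t ih =>
    have hd : d / 2 < 167 := hL _ List.mem_cons_self
    show ∀ c ∈ app _ (bind F t), c / 2 < 167
    apply v_app _ (ih (fun e he => hL e (List.mem_cons_of_mem _ he)))
    cases Nat.beq (d % 2) 0
    · exact v_flipL (hF _ hd)
    · exact hF _ hd

lemma v_ins {c d : ℕ} {L : List ℕ} (hc : c / 2 < 167) (hL : ∀ c ∈ L, c / 2 < 167) : ∀ e ∈ ins c d L, e / 2 < 167 := by
  induction L with
  | nil => intro e he; rw [List.mem_singleton.mp he]; exact hc
  | cons f t ih =>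
    have ht : ∀ c ∈ t, c / 2 < 167 := fun e he => hL e (List.mem_cons_of_mem _ he)
    unfold ins
    cases Nat.beq f d
    · intro e he
      have he' : e = f ∨ e ∈ ins c d t := List.mem_cons.mp he
      rcases he' with rfl | he'
      · exact hL _ List.mem_cons_self
      · exact ih ht e he'
    · exact ht

lemma v_nrm {L : List ℕ} (hL : ∀ c ∈ L, c / 2 < 167) : ∀ c ∈ nrm L, c / 2 < 167 := by
  induction L with
  | nil => exact hL
  | cons d t ih => exact v_ins (hL _ List.mem_cons_self) (ih (fun e he => hL e (List.mem_cons_of_mem _ he)))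

/-- product -/
noncomputable def VL.m (L M : VL) : VL :=
  ⟨nrm (bind (fun i => bind (fun j => pr i j) M.1) L.1),
    v_nrm (v_bind L.2 (fun i hi => v_bind M.2 (fun j hj => pr_lt i j hi hj)))⟩
/-- sum -/
def VL.a (L M : VL) : VL := ⟨nrm (app L.1 M.1), v_nrm (v_app L.2 M.2)⟩
/-- difference -/
def VL.s (L M : VL) : VL := ⟨nrm (app L.1 (flipL M.1)), v_nrm (v_app L.2 (v_flipL M.2))⟩

/-- value of a list -/
noncomputable def ev (Φ : Type) [CommRing Φ] (L : VL) : E Φ := fun k => ((cf L.1 k : ℤ) : Φ)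

section
variable {Φ : Type} [CommRing Φ]

lemma ev_a (L M : VL) : ev Φ (L.a M) = ev Φ L + ev Φ M := by
  funext k
  show ((cf (nrm (app L.1 M.1)) k : ℤ) : Φ) = ((cf L.1 k : ℤ) : Φ) + ((cf M.1 k : ℤ) : Φ)
  rw [cf_nrm, cf_app, Int.cast_add]

lemma ev_s (L M : VL) : ev Φ (L.s M) = ev Φ L - ev Φ M := by
  funext k
  show ((cf (nrm (app L.1 (flipL M.1))) k : ℤ) : Φ) = ((cf L.1 k : ℤ) : Φ) - ((cf M.1 k : ℤ) : Φ)
  rw [cf_nrm, cf_app, cf_flipL, Int.cast_add, Int.cast_neg, sub_eq_add_neg]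

lemma ev_m (L M : VL) : ev Φ (L.m M) = ev Φ L * ev Φ M := by
  funext k
  rw [mul_def]
  show ((cf (nrm (bind (fun i => bind (fun j => pr i j) M.1) L.1)) k : ℤ) : Φ) =
    ∑ i : Fin 167, ∑ j : Fin 167, (ga i j k : Φ) * (((cf L.1 i : ℤ) : Φ) * ((cf M.1 j : ℤ) : Φ))
  rw [cf_nrm, cf_bind _ 167 _ L.2, Int.cast_sum]
  refine Finset.sum_congr rfl fun i _ => ?_
  rw [cf_bind _ 167 _ M.2, Int.cast_mul, Int.cast_sum, Finset.mul_sum]
  refine Finset.sum_congr rfl fun j _ => ?_
  show _ = ((cf (pr i j) k : ℤ) : Φ) * _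
  push_cast
  ring

end

/-! ### the polynomial -/

section
variable {R : Type} [NonUnitalNonAssocRing R]

/-- `q(u,v) = [u,b][v,c] + [u,(v,b,c)]` -/
def qq (b c u v : R) : R := br u b * br v c + br u (as v b c)

/-- the element of degree 7 -/
def nn (a b s w c : R) : R :=
  br (qq b c a (as b s w) + qq b c (as b s w) a) a + br (qq b c a a) (as b s w)

end

/-- commutator of lists -/
noncomputable def VL.br (L M : VL) : VL := (L.m M).s (M.m L)
/-- associator of lists -/
noncomputable def VL.as (L M N : VL) : VL := ((L.m M).m N).s (L.m (M.m N))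
/-- `q` for lists -/
noncomputable def VL.qq (b c u v : VL) : VL := ((u.br b).m (v.br c)).a (u.br (v.as b c))
/-- the polynomial for lists -/
noncomputable def VL.nn (a b s w c : VL) : VL :=
  (((VL.qq b c a (b.as s w)).a (VL.qq b c (b.as s w) a)).br a).a ((VL.qq b c a a).br (b.as s w))

section
variable {Φ : Type} [CommRing Φ]

lemma ev_br (L M : VL) : ev Φ (L.br M) = br (ev Φ L) (ev Φ M) := by
  unfold VL.br br; rw [ev_s, ev_m, ev_m]

lemma ev_as (L M N : VL) : ev Φ (L.as M N) = as (ev Φ L) (ev Φ M) (ev Φ N) := by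
  unfold VL.as as; rw [ev_s, ev_m, ev_m, ev_m, ev_m]

lemma ev_qq (b c u v : VL) : ev Φ (VL.qq b c u v) = qq (ev Φ b) (ev Φ c) (ev Φ u) (ev Φ v) := by
  unfold VL.qq qq; rw [ev_a, ev_m, ev_br, ev_br, ev_br, ev_as]

lemma ev_nn (a b s w c : VL) : ev Φ (VL.nn a b s w c) = nn (ev Φ a) (ev Φ b) (ev Φ s) (ev Φ w) (ev Φ c) := by
  unfold VL.nn nn; rw [ev_a, ev_br, ev_a, ev_qq, ev_qq, ev_br, ev_qq, ev_as]

end

/-- basis vectors -/
def gv (i : ℕ) (hi : i < 167) : VL := ⟨[2 * i], by intro c hc; rw [List.mem_singleton.mp hc]; omega⟩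

/-- the generators -/
def g5 : Fin 5 → VL := ![gv 0 (by norm_num), gv 1 (by norm_num), gv 2 (by norm_num), gv 3 (by norm_num), gv 4 (by norm_num)]

set_option maxRecDepth 100000 in
theorem nn_val : (VL.nn (gv 0 (by norm_num)) (gv 1 (by norm_num)) (gv 2 (by norm_num)) (gv 3 (by norm_num))
    (gv 4 (by norm_num))).1 = [333] := by
  decide +kernel

theorem nn_ne (Φ : Type) [CommRing Φ] [Nontrivial Φ] : ∃ v : Fin 5 → E Φ, nn (v 0) (v 1) (v 2) (v 3) (v 4) ≠ 0 := by
  refine ⟨fun i => ev Φ (g5 i), ?_⟩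
  have h : nn (ev Φ (g5 0)) (ev Φ (g5 1)) (ev Φ (g5 2)) (ev Φ (g5 3)) (ev Φ (g5 4)) =
      ev Φ (VL.nn (g5 0) (g5 1) (g5 2) (g5 3) (g5 4)) := (ev_nn _ _ _ _ _).symm
  intro h0
  rw [h] at h0
  have h1 := congrFun h0 (166 : Fin 167)
  have h2 : ev Φ (VL.nn (g5 0) (g5 1) (g5 2) (g5 3) (g5 4)) (166 : Fin 167) = ((cf [333] 166 : ℤ) : Φ) := by
    rw [← nn_val]
    rfl
  rw [h2] at h1
  have h3 : cf [333] 166 = -1 := by decide
  rw [h3] at h1
  have h4 : ((-1 : ℤ) : Φ) = 0 := h1
  have h5 : (1 : Φ) = 0 := by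
    have : ((-1 : ℤ) : Φ) = -1 := by simp
    rw [this] at h4
    exact neg_eq_zero.mp h4
  exact one_ne_zero h5

/-- the element of degree 7 is not zero in a free alternative algebra over a nonzero commutative ring -/
theorem nn_free (Φ : Type) [CommRing Φ] [Nontrivial Φ] (X : Type) (ι : Fin 5 ↪ X) :
    nn (FreeAlt.gen (ι 0) : FreeAlt Φ X) (FreeAlt.gen (ι 1)) (FreeAlt.gen (ι 2)) (FreeAlt.gen (ι 3)) (FreeAlt.gen (ι 4)) ≠ 0 := by
  classical
  intro h0
  obtain ⟨v, hv⟩ := nn_ne Φ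
  have hB := E_alt (Φ := Φ)
  let f : X → E Φ := fun x => if h : ∃ i, ι i = x then v h.choose else 0
  have hf : ∀ i, f (ι i) = v i := by
    intro i
    have h : ∃ j, ι j = ι i := ⟨i, rfl⟩
    show (if h : ∃ j, ι j = ι i then v h.choose else 0) = v i
    rw [dif_pos h]
    exact congrArg v (ι.injective h.choose_spec)
  let g : FreeAlt Φ X →ₙₐ[Φ] E Φ := FreeAlt.lift (fun a b => ⟨hB.left a b, hB.right a b⟩) f
  have hg : ∀ i, g (FreeAlt.gen (ι i)) = v i := fun i =>
    (FreeAlt.lift_gen (fun a b => ⟨hB.left a b, hB.right a b⟩) f (ι i)).trans (hf i)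
  apply hv
  have h1 := congrArg g h0
  have hz : g 0 = 0 := map_zero g
  rw [hz] at h1
  rw [← h1, ← hg 0, ← hg 1, ← hg 2, ← hg 3, ← hg 4]
  unfold nn qq br as
  simp only [map_add, map_sub, map_mul]

end Pool.Agent.Helper817.UD
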