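import Pool.Agent.Helper817.Fam
import Pool.Agent.Helper817.IdI2
import Pool.Agent.Helper817.UDAlg
set_option autoImplicit false
set_option linter.unusedSectionVars false

/-!
From the identities `N1(a;b,(x,y,z)) = 0` and (in characteristic two) `n(a,b;s,w,[p,q]) = 0` to `U ∩ D ≠ 0` in the free
alternative algebra of infinite rank over an arbitrary nonzero commutative ring.
-/

namespace Pool.Agent.Helper817.AllPhi
open Pool.Agent.Helper928.Nuc.Tens hiding as_add1 as_add2 as_add3 as_neg1 as_z1 as_z2 as_z3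
open Pool.Agent.Helper928.Nuc.Alt Pool.Agent.Helper928.Nuc.Free Pool.Agent.Helper341.Alt
open Pool.Agent.Helper341.Alt.Asm Pool.Agent.Helper817.Fam

/-- `N(a;b,·)` vanishes on associators -/
def I3 : Prop :=
  ∀ (A : Type) [NonUnitalNonAssocRing A], IsAlt A → ∀ a b x y z : A, N1 a b (as x y z) = 0

/-- in characteristic two `n(a,b;s,w,·)` vanishes on commutators -/
def I5 : Prop :=
  ∀ (A : Type) [NonUnitalNonAssocRing A], IsAlt A → (∀ x : A, x + x = 0) →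
    ∀ a b s w p q : A, nn a b s w (br p q) = 0

section
variable {A : Type} [NonUnitalNonAssocRing A] (hA : IsAlt A)
include hA
open DN

lemma N1d_nuc (a d b c : A) : IsNuc (N1d a d b c) := by
  intro r s
  have h := IdI2.N1_nuc (DN.isAlt hA) (mk a d) (mk b 0) (mk c 0) (mk r 0) (mk s 0)
  rw [N1_dn] at h
  have h2 := congrArg Prod.snd h
  rw [DN.as2] at h2
  simp only [mk1, mk2, as_z2, as_z3, add_zero] at h2
  exact h2

lemma N1d_I2 (a d b c y z : A) : N1d a d b c * as c y z = 0 := by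
  have h := IdI2.I2 (DN.isAlt hA) (mk a d) (mk b 0) (mk c 0) (mk y 0) (mk z 0)
  rw [N1_dn] at h
  have h2 := congrArg Prod.snd h
  rw [DN.mul2, DN.as2] at h2
  simp only [mk1, mk2, as_z1, as_z2, as_z3, add_zero, mul_zero, zero_add, DN.as1] at h2
  exact h2

lemma N1d_I3 (H3 : I3) (a d b x y z : A) : N1d a d b (as x y z) = 0 := by
  have h := H3 (DN A) (DN.isAlt hA) (mk a d) (mk b 0) (mk x 0) (mk y 0) (mk z 0)
  have e : as (mk x 0) (mk y 0) (mk z 0) = mk (as x y z) 0 := by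
    apply DN.ext
    · rfl
    · rw [DN.as2]; simp only [mk1, mk2, as_z1, as_z2, as_z3, add_zero]
  rw [e, N1_dn] at h
  exact congrArg Prod.snd h

/-- the family `c ↦ N'(a;d;b,c)` -/
lemma fam (H3 : I3) (a d b : A) : NFam A (fun c => N1d a d b c) where
  add := N1d_add a d b
  nuc := N1d_nuc hA a d b
  i2 := N1d_I2 hA a d b
  i3 := N1d_I3 hA H3 a d b

end

section
variable {Φ : Type} [CommRing Φ] {A : Type} [NonUnitalNonAssocRing A] [Module Φ A] [IsScalarTower Φ A A]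
    [SMulCommClass Φ A A]

lemma fin (hA : IsAlt A) (m : A) (hm : m ∈ Dideal Φ A)
    (h : ∃ k : A, k ≠ 0 ∧ IsNuc k ∧ (∀ y r s : A, k * as y r s = 0) ∧ (k = m ∨ ∃ t, k = m * t)) :
    Uideal Φ A ⊓ Dideal Φ A ≠ ⊥ := by
  obtain ⟨k, hk0, hkN, hkD, hk⟩ := h
  have hD : k ∈ Dideal Φ A := by
    rcases hk with rfl | ⟨t, rfl⟩
    · exact hm
    · exact (D_ideal t _ hm).2
  have hU : k ∈ Uideal Φ A := J_le hA ⟨hkN, hkD⟩
  intro h
  exact hk0 ((Submodule.mem_bot Φ).mp (h ▸ (⟨hU, hD⟩ : k ∈ Uideal Φ A ⊓ Dideal Φ A)))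

end

/-- if `2 ≠ 0` in `Φ` then `2 n ≠ 0` for the generators -/
theorem nn_two (Φ : Type) [CommRing Φ] (h2 : (1 : Φ) + 1 ≠ 0) (X : Type) (ι : Fin 5 ↪ X) :
    nn (FreeAlt.gen (ι 0) : FreeAlt Φ X) (FreeAlt.gen (ι 1)) (FreeAlt.gen (ι 2)) (FreeAlt.gen (ι 3)) (FreeAlt.gen (ι 4))
      + nn (FreeAlt.gen (ι 0) : FreeAlt Φ X) (FreeAlt.gen (ι 1)) (FreeAlt.gen (ι 2)) (FreeAlt.gen (ι 3))
        (FreeAlt.gen (ι 4)) ≠ 0 := by
  classical
  intro h0
  let v : Fin 5 → UD.E Φ := fun i => UD.ev Φ (UD.g5 i)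
  have hB := UD.E_alt (Φ := Φ)
  let f : X → UD.E Φ := fun x => if h : ∃ i, ι i = x then v h.choose else 0
  have hf : ∀ i, f (ι i) = v i := by
    intro i
    have h : ∃ j, ι j = ι i := ⟨i, rfl⟩
    show (if h : ∃ j, ι j = ι i then v h.choose else 0) = v i
    rw [dif_pos h]
    exact congrArg v (ι.injective h.choose_spec)
  let g : FreeAlt Φ X →ₙₐ[Φ] UD.E Φ := FreeAlt.lift (fun a b => ⟨hB.left a b, hB.right a b⟩) f
  have hg : ∀ i, g (FreeAlt.gen (ι i)) = v i := fun i =>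
    (FreeAlt.lift_gen (fun a b => ⟨hB.left a b, hB.right a b⟩) f (ι i)).trans (hf i)
  have h1 := congrArg g h0
  have e : g (nn (FreeAlt.gen (ι 0) : FreeAlt Φ X) (FreeAlt.gen (ι 1)) (FreeAlt.gen (ι 2)) (FreeAlt.gen (ι 3))
      (FreeAlt.gen (ι 4))) = UD.nn (v 0) (v 1) (v 2) (v 3) (v 4) := by
    rw [← hg 0, ← hg 1, ← hg 2, ← hg 3, ← hg 4]
    unfold nn N1d qq UD.nn UD.qq br as
    simp only [map_add, map_sub, map_mul]
  have hz : g 0 = 0 := map_zero g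
  rw [map_add, e, hz] at h1
  have h : UD.nn (v 0) (v 1) (v 2) (v 3) (v 4) =
      UD.ev Φ (UD.VL.nn (UD.g5 0) (UD.g5 1) (UD.g5 2) (UD.g5 3) (UD.g5 4)) := (UD.ev_nn _ _ _ _ _).symm
  rw [h] at h1
  have h3 := congrFun h1 (166 : Fin 167)
  have h4 : UD.ev Φ (UD.VL.nn (UD.g5 0) (UD.g5 1) (UD.g5 2) (UD.g5 3) (UD.g5 4)) (166 : Fin 167) =
      ((UD.cf [333] 166 : ℤ) : Φ) := by
    rw [← UD.nn_val]
    rfl
  have h5 : UD.ev Φ (UD.VL.nn (UD.g5 0) (UD.g5 1) (UD.g5 2) (UD.g5 3) (UD.g5 4)) (166 : Fin 167) +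
      UD.ev Φ (UD.VL.nn (UD.g5 0) (UD.g5 1) (UD.g5 2) (UD.g5 3) (UD.g5 4)) (166 : Fin 167) = 0 := h3
  rw [h4] at h5
  have h6 : UD.cf [333] 166 = -1 := by decide
  rw [h6] at h5
  apply h2
  have h7 : ((-1 : ℤ) : Φ) = -1 := by simp
  rw [h7] at h5
  linear_combination - h5

/-- the free alternative algebra of infinite rank over a nonzero commutative ring is not separated -/
theorem all (H3 : I3) (H5 : I5) (Φ : Type) [CommRing Φ] [Nontrivial Φ] (X : Type) [Infinite X] :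
    Uideal Φ (FreeAlt Φ X) ⊓ Dideal Φ (FreeAlt Φ X) ≠ ⊥ := by
  let ι : Fin 5 ↪ X := Fin.valEmbedding.trans (Infinite.natEmbedding X)
  have hA : IsAlt (FreeAlt Φ X) := freeAlt_isAlt
  have hD := nn_mem_D (Φ := Φ) (FreeAlt.gen (ι 0) : FreeAlt Φ X) (FreeAlt.gen (ι 1)) (FreeAlt.gen (ι 2))
    (FreeAlt.gen (ι 3)) (FreeAlt.gen (ι 4))
  have F := fam hA H3 (FreeAlt.gen (ι 0) : FreeAlt Φ X)
    (as (FreeAlt.gen (ι 1)) (FreeAlt.gen (ι 2)) (FreeAlt.gen (ι 3))) (FreeAlt.gen (ι 1))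
  by_cases h2 : (1 : Φ) + 1 = 0
  · have hx : ∀ x : FreeAlt Φ X, x + x = 0 := by
      intro x
      have : x + x = ((1 : Φ) + 1) • x := by rw [add_smul, one_smul]
      rw [this, h2, zero_smul]
    exact fin hA _ hD (case_char2 hA F (fun p q => H5 _ hA hx _ _ _ _ p q) hx (FreeAlt.gen (ι 4))
      (UD.nn_free Φ X ι))
  · exact fin hA _ (Submodule.add_mem _ hD hD) (case_two hA F (FreeAlt.gen (ι 4)) (nn_two Φ h2 X ι))

end Pool.Agent.Helper817.AllPhi
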