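import Pool.Agent.Helper341.Alt.LemV
set_option autoImplicit false

/-!
Kernel-checkable certificates for identities of alternative rings.

Monomials are numbered; `TB` stores, for the monomial `k ≥ nl`, the numbers of its two factors
(16 bits each); the numbers `k < nl` are letters.
A certificate is a binary tree of instances of a few basic identities, with coefficients; formal sums are compared
as natural numbers in base `B = 2 ^ 32`.
-/

namespace Pool.Agent.Helper817.AltCert
open Pool.Agent.Helper928.Nuc.Tens Pool.Agent.Helper928.Nuc.Alt Pool.Agent.Helper341.Alt.LemV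

/-! ### injectivity of base `B` representations -/

lemma sum_inj (B : ℕ) (K : ℕ) : ∀ (f g : ℕ → ℕ), (∀ m, f m < B) → (∀ m, g m < B) →
    ∑ m ∈ Finset.range K, f m * B ^ m = ∑ m ∈ Finset.range K, g m * B ^ m → ∀ m < K, f m = g m := by
  induction K with
  | zero => intro f g _ _ _ m hm; omega
  | succ K ih =>
    intro f g hf hg h
    rw [Finset.sum_range_succ', Finset.sum_range_succ'] at h
    have e : ∀ u : ℕ → ℕ, ∑ m ∈ Finset.range K, u (m + 1) * B ^ (m + 1) = B * ∑ m ∈ Finset.range K, u (m + 1) * B ^ m := by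
      intro u
      rw [Finset.mul_sum]
      refine Finset.sum_congr rfl fun m _ => ?_
      rw [pow_succ]; ring
    rw [e, e, pow_zero, mul_one, mul_one] at h
    have h0 : f 0 = g 0 := by
      have h1 := congrArg (· % B) h
      simp only [Nat.mul_add_mod] at h1
      rwa [Nat.mod_eq_of_lt (hf 0), Nat.mod_eq_of_lt (hg 0)] at h1
    rw [h0] at h
    have h2 := Nat.add_right_cancel h
    have hB : 0 < B := lt_of_le_of_lt (Nat.zero_le _) (hf 0)
    have h3 := Nat.eq_of_mul_eq_mul_left hB h2
    have h4 := ih (fun m => f (m + 1)) (fun m => g (m + 1)) (fun m => hf _) (fun m => hg _) h3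
    intro m hm
    cases m with
    | zero => exact h0
    | succ m => exact h4 m (by omega)

/-- sums of weights -/
def lsum {M : Type} [AddCommMonoid M] (g : ℕ → M) (L : List (ℕ × ℕ)) : M := (L.map fun q => q.2 • g q.1).sum

lemma lsum_append {M : Type} [AddCommMonoid M] (g : ℕ → M) (L L' : List (ℕ × ℕ)) :
    lsum g (L ++ L') = lsum g L + lsum g L' := by
  unfold lsum; rw [List.map_append, List.sum_append]

lemma lsum_nil {M : Type} [AddCommMonoid M] (g : ℕ → M) : lsum g [] = 0 := rfl
lemma lsum_cons {M : Type} [AddCommMonoid M] (g : ℕ → M) (q : ℕ × ℕ) (L : List (ℕ × ℕ)) :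
    lsum g (q :: L) = q.2 • g q.1 + lsum g L := rfl

/-- coefficient of `m` -/
def co (L : List (ℕ × ℕ)) (m : ℕ) : ℕ := lsum (fun k => if k = m then 1 else 0) L

lemma lsum_eq {M : Type} [AddCommMonoid M] (g : ℕ → M) (K : ℕ) (L : List (ℕ × ℕ)) (hL : ∀ q ∈ L, q.1 < K) :
    lsum g L = ∑ m ∈ Finset.range K, co L m • g m := by
  induction L with
  | nil =>
    rw [lsum_nil]
    symm
    apply Finset.sum_eq_zero
    intro m _
    show (0 : ℕ) • g m = 0
    rw [zero_smul]
  | cons q L ih =>
    rw [lsum_cons, ih (fun r hr => hL r (List.mem_cons_of_mem _ hr))]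
    have hq : q.1 < K := hL q List.mem_cons_self
    have e : ∀ m, co (q :: L) m • g m = (if m = q.1 then q.2 • g m else 0) + co L m • g m := by
      intro m
      unfold co
      rw [lsum_cons, add_smul]
      by_cases h : q.1 = m
      · rw [if_pos h, if_pos h.symm]; simp
      · rw [if_neg h, if_neg (fun h' => h h'.symm)]; simp
    rw [Finset.sum_congr rfl (fun m _ => e m), Finset.sum_add_distrib, Finset.sum_ite_eq' (Finset.range K),
      if_pos (Finset.mem_range.mpr hq)]

lemma co_le (L : List (ℕ × ℕ)) (m : ℕ) : co L m ≤ lsum (fun _ => 1) L := by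
  induction L with
  | nil => exact le_refl _
  | cons q L ih =>
    unfold co at *
    rw [lsum_cons, lsum_cons]
    apply add_le_add _ ih
    simp only [smul_eq_mul]
    split_ifs <;> simp

lemma lsum_inj {M : Type} [AddCommMonoid M] (B : ℕ) (L L' : List (ℕ × ℕ)) (h1 : lsum (fun _ => 1) L < B)
    (h2 : lsum (fun _ => 1) L' < B) (h : lsum (fun m => B ^ m) L = lsum (fun m => B ^ m) L') (g : ℕ → M) :
    lsum g L = lsum g L' := by
  obtain ⟨K, hK⟩ : ∃ K, ∀ q ∈ L ++ L', q.1 < K := by
    refine ⟨((L ++ L').map Prod.fst).sum + 1, fun q hq => ?_⟩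
    have := List.single_le_sum (l := (L ++ L').map Prod.fst) (fun x _ => Nat.zero_le x) q.1 (List.mem_map_of_mem hq)
    omega
  have hL : ∀ q ∈ L, q.1 < K := fun q hq => hK q (List.mem_append_left _ hq)
  have hL' : ∀ q ∈ L', q.1 < K := fun q hq => hK q (List.mem_append_right _ hq)
  rw [lsum_eq _ K L hL, lsum_eq _ K L' hL'] at h
  have h3 := sum_inj B K (co L) (co L') (fun m => lt_of_le_of_lt (co_le L m) h1)
    (fun m => lt_of_le_of_lt (co_le L' m) h2) h
  rw [lsum_eq g K L hL, lsum_eq g K L' hL']
  refine Finset.sum_congr rfl fun m hm => ?_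
  rw [h3 m (Finset.mem_range.mp hm)]

/-! ### certificates -/

/-- binary trees of codes -/
inductive Tr : Type
  | l : ℕ → Tr
  | n : Tr → Tr → Tr

noncomputable def Tr.sum (f : ℕ → ℕ) (t : Tr) : ℕ := Tr.rec (fun a => f a) (fun _ _ x y => Nat.add x y) t
noncomputable def Tr.all (f : ℕ → Bool) (t : Tr) : Bool := Tr.rec (fun a => f a) (fun _ _ x y => and x y) t
/-- leaves -/
def Tr.leaves : Tr → List ℕ
  | .l a => [a]
  | .n x y => x.leaves ++ y.leaves

lemma Tr.all_iff (f : ℕ → Bool) (t : Tr) (h : t.all f = true) : ∀ a ∈ t.leaves, f a = true := by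
  induction t with
  | l a => intro b hb; rw [List.mem_singleton.mp hb]; exact h
  | n x y hx hy =>
    have h' : (Tr.all f x && Tr.all f y) = true := h
    rw [Bool.and_eq_true] at h'
    intro b hb
    rcases List.mem_append.mp hb with hb | hb
    · exact hx h'.1 b hb
    · exact hy h'.2 b hb

lemma Tr.sum_eq (f : ℕ → ℕ) (t : Tr) : t.sum f = (t.leaves.map f).sum := by
  induction t with
  | l a => simp [Tr.sum, Tr.leaves]
  | n x y hx hy =>
    show Tr.sum f x + Tr.sum f y = _
    rw [hx, hy, Tr.leaves, List.map_append, List.sum_append]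

section
variable (TB nl : ℕ)

/-- left factor -/
def lf (k : ℕ) : ℕ := Nat.mod (Nat.shiftRight TB (Nat.mul 32 k)) 65536
/-- right factor -/
def rf (k : ℕ) : ℕ := Nat.mod (Nat.shiftRight TB (Nat.add (Nat.mul 32 k) 16)) 65536

/-- `k` is the product of `i` and `j` -/
def sp (k i j : ℕ) : Bool :=
  Nat.beq (lf TB k) i && (Nat.beq (rf TB k) j && (Nat.ble nl k && (Nat.ble (Nat.add i 1) k && Nat.ble (Nat.add j 1) k)))

/-- values -/
noncomputable def V {R : Type} [NonUnitalNonAssocRing R] (x : ℕ → R) (k : ℕ) : R :=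
  if nl ≤ k then
    if h : lf TB k < k ∧ rf TB k < k then
      have := h.1
      have := h.2
      V x (lf TB k) * V x (rf TB k)
    else 0
  else x k
termination_by k

lemma V_sp {R : Type} [NonUnitalNonAssocRing R] (x : ℕ → R) {k i j : ℕ} (h : sp TB nl k i j = true) :
    V TB nl x k = V TB nl x i * V TB nl x j := by
  unfold sp at h
  simp only [Bool.and_eq_true, Nat.beq_eq, Nat.ble_eq] at h
  obtain ⟨h1, h2, h3, h4, h5⟩ := h
  have h4' : i + 1 ≤ k := h4
  have h5' : j + 1 ≤ k := h5
  have h6 : lf TB k < k ∧ rf TB k < k := ⟨by omega, by omega⟩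
  have e : V TB nl x k = V TB nl x (lf TB k) * V TB nl x (rf TB k) := by
    rw [V, if_pos h3, dif_pos h6]
  rw [e, h1, h2]

lemma V_lt {R : Type} [NonUnitalNonAssocRing R] (x : ℕ → R) {k : ℕ} (h : k < nl) : V TB nl x k = x k := by
  rw [V, if_neg (by omega)]

/-- walk down a common context: path bits, then the inner monomials are passed to `f` -/
def walk (f : ℕ → ℕ → ℕ → ℕ → Bool) : ℕ → ℕ → ℕ → ℕ → ℕ → ℕ → Bool
  | 0, _, a, b, c, d => f a b c d
  | n + 1, p, a, b, c, d =>
    cond (Nat.beq (Nat.mod p 2) 0)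
      -- context `z * _`
      (sp TB nl a (lf TB a) (rf TB a) && (sp TB nl b (lf TB a) (rf TB b) &&
        (sp TB nl c (lf TB a) (rf TB c) && (sp TB nl d (lf TB a) (rf TB d) &&
        walk f n (Nat.div p 2) (rf TB a) (rf TB b) (rf TB c) (rf TB d)))))
      (sp TB nl a (lf TB a) (rf TB a) && (sp TB nl b (lf TB b) (rf TB a) &&
        (sp TB nl c (lf TB c) (rf TB a) && (sp TB nl d (lf TB d) (rf TB a) &&
        walk f n (Nat.div p 2) (lf TB a) (lf TB b) (lf TB c) (lf TB d)))))

/-- check of the basic identity of type `ty`; `a, b, c, d` are the numbers of the four monomials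
(`c = a`, `d = b` are dummies for the identities with two monomials) -/
def base (ty a b c d : ℕ) : Bool :=
  cond (Nat.beq ty 0) -- (uv)w - u(vw) + (vu)w - v(uw)
    (sp TB nl a (lf TB a) (rf TB a) && (sp TB nl (lf TB a) (lf TB (lf TB a)) (rf TB (lf TB a)) &&
      (sp TB nl b (lf TB (lf TB a)) (rf TB b) && (sp TB nl (rf TB b) (rf TB (lf TB a)) (rf TB a) &&
      (sp TB nl c (lf TB c) (rf TB a) && (sp TB nl (lf TB c) (rf TB (lf TB a)) (lf TB (lf TB a)) &&
      (sp TB nl d (rf TB (lf TB a)) (rf TB d) && sp TB nl (rf TB d) (lf TB (lf TB a)) (rf TB a))))))))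
  (cond (Nat.beq ty 1) -- (uv)w - u(vw) + (uw)v - u(wv)
    (sp TB nl a (lf TB a) (rf TB a) && (sp TB nl (lf TB a) (lf TB (lf TB a)) (rf TB (lf TB a)) &&
      (sp TB nl b (lf TB (lf TB a)) (rf TB b) && (sp TB nl (rf TB b) (rf TB (lf TB a)) (rf TB a) &&
      (sp TB nl c (lf TB c) (rf TB (lf TB a)) && (sp TB nl (lf TB c) (lf TB (lf TB a)) (rf TB a) &&
      (sp TB nl d (lf TB (lf TB a)) (rf TB d) && sp TB nl (rf TB d) (rf TB a) (rf TB (lf TB a)))))))))
  (cond (Nat.beq ty 2) -- (uv)w - u(vw) + (wv)u - w(vu)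
    (sp TB nl a (lf TB a) (rf TB a) && (sp TB nl (lf TB a) (lf TB (lf TB a)) (rf TB (lf TB a)) &&
      (sp TB nl b (lf TB (lf TB a)) (rf TB b) && (sp TB nl (rf TB b) (rf TB (lf TB a)) (rf TB a) &&
      (sp TB nl c (lf TB c) (lf TB (lf TB a)) && (sp TB nl (lf TB c) (rf TB a) (rf TB (lf TB a)) &&
      (sp TB nl d (rf TB a) (rf TB d) && sp TB nl (rf TB d) (rf TB (lf TB a)) (lf TB (lf TB a)))))))))
  (cond (Nat.beq ty 3) -- (uv)w - u(vw) - (vw)u + v(wu)
    (sp TB nl a (lf TB a) (rf TB a) && (sp TB nl (lf TB a) (lf TB (lf TB a)) (rf TB (lf TB a)) &&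
      (sp TB nl b (lf TB (lf TB a)) (rf TB b) && (sp TB nl (rf TB b) (rf TB (lf TB a)) (rf TB a) &&
      (sp TB nl c (lf TB c) (lf TB (lf TB a)) && (sp TB nl (lf TB c) (rf TB (lf TB a)) (rf TB a) &&
      (sp TB nl d (rf TB (lf TB a)) (rf TB d) && sp TB nl (rf TB d) (rf TB a) (lf TB (lf TB a)))))))))
  (cond (Nat.beq ty 4) -- (uu)w - u(uw)
    (sp TB nl a (lf TB a) (rf TB a) && (sp TB nl (lf TB a) (lf TB (lf TB a)) (lf TB (lf TB a)) &&
      (sp TB nl b (lf TB (lf TB a)) (rf TB b) && sp TB nl (rf TB b) (lf TB (lf TB a)) (rf TB a))))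
  (cond (Nat.beq ty 5) -- (uw)w - u(ww)
    (sp TB nl a (lf TB a) (rf TB a) && (sp TB nl (lf TB a) (lf TB (lf TB a)) (rf TB a) &&
      (sp TB nl b (lf TB (lf TB a)) (rf TB b) && sp TB nl (rf TB b) (rf TB a) (rf TB a))))
  (cond (Nat.beq ty 6) -- u(v(uw)) - ((uv)u)w
    (sp TB nl a (lf TB a) (rf TB a) && (sp TB nl (rf TB a) (lf TB (rf TB a)) (rf TB (rf TB a)) &&
      (sp TB nl (rf TB (rf TB a)) (lf TB a) (rf TB (rf TB (rf TB a))) &&
      (sp TB nl b (lf TB b) (rf TB (rf TB (rf TB a))) &&
      (sp TB nl (lf TB b) (lf TB (lf TB b)) (lf TB a) && sp TB nl (lf TB (lf TB b)) (lf TB a) (lf TB (rf TB a)))))))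
  (cond (Nat.beq ty 7) -- ((wu)v)u - w(u(vu))
    (sp TB nl a (lf TB a) (rf TB a) && (sp TB nl (lf TB a) (lf TB (lf TB a)) (rf TB (lf TB a)) &&
      (sp TB nl (lf TB (lf TB a)) (lf TB (lf TB (lf TB a))) (rf TB a) &&
      (sp TB nl b (lf TB (lf TB (lf TB a))) (rf TB b) &&
      (sp TB nl (rf TB b) (rf TB a) (rf TB (rf TB b)) && sp TB nl (rf TB (rf TB b)) (rf TB (lf TB a)) (rf TB a))))))
  (cond (Nat.beq ty 8) -- (uv)(wu) - (u(vw))u
    (sp TB nl a (lf TB a) (rf TB a) && (sp TB nl (lf TB a) (lf TB (lf TB a)) (rf TB (lf TB a)) &&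
      (sp TB nl (rf TB a) (lf TB (rf TB a)) (lf TB (lf TB a)) &&
      (sp TB nl b (lf TB b) (lf TB (lf TB a)) &&
      (sp TB nl (lf TB b) (lf TB (lf TB a)) (rf TB (lf TB b)) &&
      sp TB nl (rf TB (lf TB b)) (rf TB (lf TB a)) (lf TB (rf TB a)))))))
  (cond (Nat.beq ty 9) -- (uv)(uw) - u(v(uw)) - ((uv)w)u + (u(vw))u
    (sp TB nl a (lf TB a) (rf TB a) && (sp TB nl (lf TB a) (lf TB (lf TB a)) (rf TB (lf TB a)) &&
      (sp TB nl (rf TB a) (lf TB (lf TB a)) (rf TB (rf TB a)) &&
      (sp TB nl b (lf TB (lf TB a)) (rf TB b) && (sp TB nl (rf TB b) (rf TB (lf TB a)) (rf TB a) &&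
      (sp TB nl c (lf TB c) (lf TB (lf TB a)) && (sp TB nl (lf TB c) (lf TB a) (rf TB (rf TB a)) &&
      (sp TB nl d (lf TB d) (lf TB (lf TB a)) && (sp TB nl (lf TB d) (lf TB (lf TB a)) (rf TB (lf TB d)) &&
      sp TB nl (rf TB (lf TB d)) (rf TB (lf TB a)) (rf TB (rf TB a)))))))))))
  (cond (Nat.beq ty 10) -- (uv)(wu) - u(v(wu)) - u((uv)w) + u(u(vw))
    (sp TB nl a (lf TB a) (rf TB a) && (sp TB nl (lf TB a) (lf TB (lf TB a)) (rf TB (lf TB a)) &&
      (sp TB nl (rf TB a) (lf TB (rf TB a)) (lf TB (lf TB a)) &&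
      (sp TB nl b (lf TB (lf TB a)) (rf TB b) && (sp TB nl (rf TB b) (rf TB (lf TB a)) (rf TB a) &&
      (sp TB nl c (lf TB (lf TB a)) (rf TB c) && (sp TB nl (rf TB c) (lf TB a) (lf TB (rf TB a)) &&
      (sp TB nl d (lf TB (lf TB a)) (rf TB d) && (sp TB nl (rf TB d) (lf TB (lf TB a)) (rf TB (rf TB d)) &&
      sp TB nl (rf TB (rf TB d)) (rf TB (lf TB a)) (lf TB (rf TB a)))))))))))
  false))))))))))

end

/-- the sign pattern of the types: `0`: `a - b + c - d`; `1`: `a - b - c + d`; `2`: `a - b` -/
def pat (ty : ℕ) : ℕ :=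
  cond (Nat.ble ty 2) 0 (cond (Nat.beq ty 3) 1 (cond (Nat.ble 9 ty) 1 2))

section
variable {R : Type} [NonUnitalNonAssocRing R]

/-- the value of an instance -/
def pv (ty : ℕ) (a b c d : R) : R :=
  cond (Nat.beq (pat ty) 0) (a - b + c - d) (cond (Nat.beq (pat ty) 1) (a - b - c + d) (a - b))

lemma pv_mull (ty : ℕ) (z a b c d : R) : pv ty (z * a) (z * b) (z * c) (z * d) = z * pv ty a b c d := by
  unfold pv
  cases Nat.beq (pat ty) 0 <;> cases Nat.beq (pat ty) 1 <;> simp only [cond_true, cond_false, mul_sub, mul_add]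

lemma pv_mulr (ty : ℕ) (z a b c d : R) : pv ty (a * z) (b * z) (c * z) (d * z) = pv ty a b c d * z := by
  unfold pv
  cases Nat.beq (pat ty) 0 <;> cases Nat.beq (pat ty) 1 <;> simp only [cond_true, cond_false, sub_mul, add_mul]

variable (hR : IsAlt R)
include hR

lemma M4 (u v w : R) : as u v (u * w) = as u v w * u := by
  have h := as_mul_self hR v w u
  rw [pc2 hR v w u] at h
  rw [h, p12 hR (u * w) v u, pc2 hR v (u * w) u, neg_neg]

lemma F0 (w u v : R) : as (w * u) u v = u * as w u v := by
  have h := F_cyc hR w u u v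
  rw [as_self1 hR u v, zero_mul, sub_zero, as_self2 hR u (v * w), as_self2 hR u v, as_self2 hR u w] at h
  rw [zero_mul, mul_zero, sub_zero, sub_zero, neg_zero] at h
  exact sub_eq_zero.mp h

lemma M5 (u v w : R) : as u v (w * u) = u * as u v w := by
  rw [← pc1 hR (w * u) u v, F0 hR, pc1 hR w u v]

lemma t0 (u v w : R) : (u * v) * w - u * (v * w) + (v * u) * w - v * (u * w) = 0 := by
  have h := p12 hR u v w
  unfold as at h
  linear_combination (norm := abel) h

lemma t1 (u v w : R) : (u * v) * w - u * (v * w) + (u * w) * v - u * (w * v) = 0 := by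
  have h := p23 hR u v w
  unfold as at h
  linear_combination (norm := abel) h

lemma t2 (u v w : R) : (u * v) * w - u * (v * w) + (w * v) * u - w * (v * u) = 0 := by
  have h1 := p12 hR u v w
  have h2 := p23 hR v u w
  have h3 := p12 hR v w u
  unfold as at h1 h2 h3
  linear_combination (norm := abel) h1 - h2 + h3

lemma t3 (u v w : R) : (u * v) * w - u * (v * w) - (v * w) * u + v * (w * u) = 0 := by
  have h := pc1 hR u v w
  unfold as at h
  linear_combination (norm := abel) h

lemma t4 (u w : R) : (u * u) * w - u * (u * w) = 0 := as_self1 hR u w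
lemma t5 (u w : R) : (u * w) * w - u * (w * w) = 0 := as_self2 hR w u

lemma t9 (u v w : R) : (u * v) * (u * w) - u * (v * (u * w)) - ((u * v) * w) * u + (u * (v * w)) * u = 0 := by
  have h := M4 hR u v w
  unfold as at h
  rw [sub_mul] at h
  linear_combination (norm := abel) h

lemma t10 (u v w : R) : (u * v) * (w * u) - u * (v * (w * u)) - u * ((u * v) * w) + u * (u * (v * w)) = 0 := by
  have h := M5 hR u v w
  unfold as at h
  rw [mul_sub] at h
  linear_combination (norm := abel) h

lemma t6 (u v w : R) : u * (v * (u * w)) - ((u * v) * u) * w = 0 := by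
  have h1 := M4 hR u v w
  have h2 : as (u * v) u w = - (as u v w * u) := by
    have h := F0 hR u v (0 : R)
    have k := F_cyc hR u v u w
    have k2 := F_34 hR w u u v
    have k3 := F_cyc hR w u u v
    rw [as_self1 hR u v, zero_mul, sub_zero, as_self2 hR u (v * w), as_self2 hR u v, as_self2 hR u w, zero_mul,
      mul_zero, sub_zero, sub_zero, neg_zero] at k3
    rw [as_self1 hR u v, zero_mul, sub_zero, k3, neg_zero] at k2
    rw [k2, neg_zero, as_self1 hR u w, mul_zero, sub_zero] at k
    rw [sub_eq_zero.mp k, p12 hR v u w, neg_mul]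
  unfold as at h1 h2
  rw [sub_mul] at h1 h2
  linear_combination (norm := abel) -h1 - h2

lemma t7 (u v w : R) : ((w * u) * v) * u - w * (u * (v * u)) = 0 := by
  have h1 := M5 hR u w v
  have h2 : as (w * u) v u = u * as w v u := by
    have k := F0 hR w u v
    rw [p23 hR (w * u) v u, k, p23 hR w v u, mul_neg]
  have e1 : as w u (v * u) = - (u * as u w v) := by rw [p12 hR, h1]
  have e2 : as w v u = as u w v := pc2 hR w v u
  rw [e2] at h2
  unfold as at h2 e1
  linear_combination (norm := abel) h2 + e1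

lemma t8 (u v w : R) : (u * v) * (w * u) - (u * (v * w)) * u = 0 := by
  have h1 := M5 hR u v w
  have h2 : (u * (v * w)) * u = u * ((v * w) * u) := by
    have h := flex hR u (v * w)
    unfold as at h
    exact sub_eq_zero.mp h
  have h3 := pc1 hR u v w
  rw [h2]
  rw [h3] at h1
  unfold as at h1
  rw [mul_sub] at h1
  linear_combination (norm := abel) h1

variable (TB nl : ℕ) (x : ℕ → R)

lemma base_sound (ty a b c d : ℕ) (h : base TB nl ty a b c d = true) :
    pv ty (V TB nl x a) (V TB nl x b) (V TB nl x c) (V TB nl x d) = 0 := by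
  have S := fun (k i j : ℕ) (h : sp TB nl k i j = true) => V_sp TB nl x h
  unfold base at h
  cases hb : Nat.beq ty 0 with
  | true =>
    rw [hb, cond_true] at h
    have hty : ty = 0 := Nat.eq_of_beq_eq_true hb
    subst hty
    simp only [Bool.and_eq_true] at h
    obtain ⟨s1, s2, s3, s4, s5, s6, s7, s8⟩ := h
    show V TB nl x a - V TB nl x b + V TB nl x c - V TB nl x d = 0
    have H := t0 hR (V TB nl x (lf TB (lf TB a))) (V TB nl x (rf TB (lf TB a))) (V TB nl x (rf TB a))
    rw [S _ _ _ s1, S _ _ _ s3, S _ _ _ s5, S _ _ _ s7, S _ _ _ s2, S _ _ _ s4, S _ _ _ s6, S _ _ _ s8]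
    exact H
  | false =>
    rw [hb, cond_false] at h
    cases hb : Nat.beq ty 1 with
    | true =>
      rw [hb, cond_true] at h
      have hty : ty = 1 := Nat.eq_of_beq_eq_true hb
      subst hty
      simp only [Bool.and_eq_true] at h
      obtain ⟨s1, s2, s3, s4, s5, s6, s7, s8⟩ := h
      show V TB nl x a - V TB nl x b + V TB nl x c - V TB nl x d = 0
      have H := t1 hR (V TB nl x (lf TB (lf TB a))) (V TB nl x (rf TB (lf TB a))) (V TB nl x (rf TB a))
      rw [S _ _ _ s1, S _ _ _ s3, S _ _ _ s5, S _ _ _ s7, S _ _ _ s2, S _ _ _ s4, S _ _ _ s6, S _ _ _ s8]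
      exact H
    | false =>
      rw [hb, cond_false] at h
      cases hb : Nat.beq ty 2 with
      | true =>
        rw [hb, cond_true] at h
        have hty : ty = 2 := Nat.eq_of_beq_eq_true hb
        subst hty
        simp only [Bool.and_eq_true] at h
        obtain ⟨s1, s2, s3, s4, s5, s6, s7, s8⟩ := h
        show V TB nl x a - V TB nl x b + V TB nl x c - V TB nl x d = 0
        have H := t2 hR (V TB nl x (lf TB (lf TB a))) (V TB nl x (rf TB (lf TB a))) (V TB nl x (rf TB a))
        rw [S _ _ _ s1, S _ _ _ s3, S _ _ _ s5, S _ _ _ s7, S _ _ _ s2, S _ _ _ s4, S _ _ _ s6, S _ _ _ s8]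
        exact H
      | false =>
        rw [hb, cond_false] at h
        cases hb : Nat.beq ty 3 with
        | true =>
          rw [hb, cond_true] at h
          have hty : ty = 3 := Nat.eq_of_beq_eq_true hb
          subst hty
          simp only [Bool.and_eq_true] at h
          obtain ⟨s1, s2, s3, s4, s5, s6, s7, s8⟩ := h
          show V TB nl x a - V TB nl x b - V TB nl x c + V TB nl x d = 0
          have H := t3 hR (V TB nl x (lf TB (lf TB a))) (V TB nl x (rf TB (lf TB a))) (V TB nl x (rf TB a))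
          rw [S _ _ _ s1, S _ _ _ s3, S _ _ _ s5, S _ _ _ s7, S _ _ _ s2, S _ _ _ s4, S _ _ _ s6, S _ _ _ s8]
          exact H
        | false =>
          rw [hb, cond_false] at h
          cases hb : Nat.beq ty 4 with
          | true =>
            rw [hb, cond_true] at h
            have hty : ty = 4 := Nat.eq_of_beq_eq_true hb
            subst hty
            simp only [Bool.and_eq_true] at h
            obtain ⟨s1, s2, s3, s4⟩ := h
            show V TB nl x a - V TB nl x b = 0
            have H := t4 hR (V TB nl x (lf TB (lf TB a))) (V TB nl x (rf TB a))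
            rw [S _ _ _ s1, S _ _ _ s3, S _ _ _ s2, S _ _ _ s4]
            exact H
          | false =>
            rw [hb, cond_false] at h
            cases hb : Nat.beq ty 5 with
            | true =>
              rw [hb, cond_true] at h
              have hty : ty = 5 := Nat.eq_of_beq_eq_true hb
              subst hty
              simp only [Bool.and_eq_true] at h
              obtain ⟨s1, s2, s3, s4⟩ := h
              show V TB nl x a - V TB nl x b = 0
              have H := t5 hR (V TB nl x (lf TB (lf TB a))) (V TB nl x (rf TB a))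
              rw [S _ _ _ s1, S _ _ _ s3, S _ _ _ s2, S _ _ _ s4]
              exact H
            | false =>
              rw [hb, cond_false] at h
              cases hb : Nat.beq ty 6 with
              | true =>
                rw [hb, cond_true] at h
                have hty : ty = 6 := Nat.eq_of_beq_eq_true hb
                subst hty
                simp only [Bool.and_eq_true] at h
                obtain ⟨s1, s2, s3, s4, s5, s6⟩ := h
                show V TB nl x a - V TB nl x b = 0
                have H := t6 hR (V TB nl x (lf TB a)) (V TB nl x (lf TB (rf TB a))) (V TB nl x (rf TB (rf TB (rf TB a))))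
                rw [S _ _ _ s1, S _ _ _ s4, S _ _ _ s2, S _ _ _ s3, S _ _ _ s5, S _ _ _ s6]
                exact H
              | false =>
                rw [hb, cond_false] at h
                cases hb : Nat.beq ty 7 with
                | true =>
                  rw [hb, cond_true] at h
                  have hty : ty = 7 := Nat.eq_of_beq_eq_true hb
                  subst hty
                  simp only [Bool.and_eq_true] at h
                  obtain ⟨s1, s2, s3, s4, s5, s6⟩ := h
                  show V TB nl x a - V TB nl x b = 0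
                  have H := t7 hR (V TB nl x (rf TB a)) (V TB nl x (rf TB (lf TB a))) (V TB nl x (lf TB (lf TB (lf TB a))))
                  rw [S _ _ _ s1, S _ _ _ s4, S _ _ _ s2, S _ _ _ s3, S _ _ _ s5, S _ _ _ s6]
                  exact H
                | false =>
                  rw [hb, cond_false] at h
                  cases hb : Nat.beq ty 8 with
                  | true =>
                    rw [hb, cond_true] at h
                    have hty : ty = 8 := Nat.eq_of_beq_eq_true hb
                    subst hty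
                    simp only [Bool.and_eq_true] at h
                    obtain ⟨s1, s2, s3, s4, s5, s6⟩ := h
                    show V TB nl x a - V TB nl x b = 0
                    have H := t8 hR (V TB nl x (lf TB (lf TB a))) (V TB nl x (rf TB (lf TB a))) (V TB nl x (lf TB (rf TB a)))
                    rw [S _ _ _ s1, S _ _ _ s4, S _ _ _ s2, S _ _ _ s3, S _ _ _ s5, S _ _ _ s6]
                    exact H
                  | false =>
                    rw [hb, cond_false] at h
                    cases hb : Nat.beq ty 9 with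
                    | true =>
                      rw [hb, cond_true] at h
                      have hty : ty = 9 := Nat.eq_of_beq_eq_true hb
                      subst hty
                      simp only [Bool.and_eq_true] at h
                      obtain ⟨s1, s2, s3, s4, s5, s6, s7, s8, s9, s10⟩ := h
                      show V TB nl x a - V TB nl x b - V TB nl x c + V TB nl x d = 0
                      have H := t9 hR (V TB nl x (lf TB (lf TB a))) (V TB nl x (rf TB (lf TB a))) (V TB nl x (rf TB (rf TB a)))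
                      rw [S _ _ _ s1, S _ _ _ s4, S _ _ _ s6, S _ _ _ s8, S _ _ _ s5, S _ _ _ s7, S _ _ _ s2, S _ _ _ s3, S _ _ _ s9, S _ _ _ s10]
                      exact H
                    | false =>
                      rw [hb, cond_false] at h
                      cases hb : Nat.beq ty 10 with
                      | true =>
                        rw [hb, cond_true] at h
                        have hty : ty = 10 := Nat.eq_of_beq_eq_true hb
                        subst hty
                        simp only [Bool.and_eq_true] at h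
                        obtain ⟨s1, s2, s3, s4, s5, s6, s7, s8, s9, s10⟩ := h
                        show V TB nl x a - V TB nl x b - V TB nl x c + V TB nl x d = 0
                        have H := t10 hR (V TB nl x (lf TB (lf TB a))) (V TB nl x (rf TB (lf TB a))) (V TB nl x (lf TB (rf TB a)))
                        rw [S _ _ _ s1, S _ _ _ s4, S _ _ _ s6, S _ _ _ s8, S _ _ _ s5, S _ _ _ s7, S _ _ _ s2, S _ _ _ s3, S _ _ _ s9, S _ _ _ s10]
                        exact H
                      | false =>
                        rw [hb, cond_false] at h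
                        exact absurd h (by decide)

lemma walk_sound (ty : ℕ) (n : ℕ) : ∀ p a b c d : ℕ, walk TB nl (base TB nl ty) n p a b c d = true →
    pv ty (V TB nl x a) (V TB nl x b) (V TB nl x c) (V TB nl x d) = 0 := by
  have S := fun (k i j : ℕ) (h : sp TB nl k i j = true) => V_sp TB nl x h
  induction n with
  | zero => intro p a b c d h; exact base_sound hR TB nl x ty a b c d h
  | succ n ih =>
    intro p a b c d h
    unfold walk at h
    cases hb : Nat.beq (Nat.mod p 2) 0 with
    | true =>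
      rw [hb, cond_true] at h
      simp only [Bool.and_eq_true] at h
      obtain ⟨s1, s2, s3, s4, s5⟩ := h
      rw [S _ _ _ s1, S _ _ _ s2, S _ _ _ s3, S _ _ _ s4, pv_mull, ih _ _ _ _ _ s5, mul_zero]
    | false =>
      rw [hb, cond_false] at h
      simp only [Bool.and_eq_true] at h
      obtain ⟨s1, s2, s3, s4, s5⟩ := h
      rw [S _ _ _ s1, S _ _ _ s2, S _ _ _ s3, S _ _ _ s4, pv_mulr, ih _ _ _ _ _ s5, zero_mul]

end

/-! ### codes of instances -/

/-- type -/
def cty (i : ℕ) : ℕ := Nat.mod i 16
/-- first monomial -/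
def ca (i : ℕ) : ℕ := Nat.mod (Nat.shiftRight i 16) 65536
def cb (i : ℕ) : ℕ := Nat.mod (Nat.shiftRight i 32) 65536
def cc (i : ℕ) : ℕ := Nat.mod (Nat.shiftRight i 48) 65536
def cd (i : ℕ) : ℕ := Nat.mod (Nat.shiftRight i 64) 65536
/-- coefficient -/
def cco (i : ℕ) : ℕ := Nat.shiftRight i 81
/-- the sign is `+` -/
def csg (i : ℕ) : Bool := Nat.beq (Nat.mod (Nat.shiftRight i 80) 2) 0

/-- positive monomials -/
def cP (i : ℕ) : List ℕ :=
  cond (Nat.beq (pat (cty i)) 0) [ca i, cc i] (cond (Nat.beq (pat (cty i)) 1) [ca i, cd i] [ca i])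
/-- negative monomials -/
def cN (i : ℕ) : List ℕ :=
  cond (Nat.beq (pat (cty i)) 0) [cb i, cd i] (cond (Nat.beq (pat (cty i)) 1) [cb i, cc i] [cb i])

/-- left hand side -/
def pl (i : ℕ) : List ℕ := cond (csg i) (cP i) (cN i)
/-- right hand side -/
def nl' (i : ℕ) : List ℕ := cond (csg i) (cN i) (cP i)

/-- sum of weights of a list of monomials -/
def ws (f : ℕ → ℕ) : List ℕ → ℕ
  | [] => 0
  | m :: t => Nat.add (f m) (ws f t)

/-- check of an instance -/
def okI (TB nl i : ℕ) : Bool :=
  walk TB nl (base TB nl (cty i)) (Nat.mod (Nat.shiftRight i 4) 16) (Nat.mod (Nat.shiftRight i 8) 256) (ca i) (cb i)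
    (cc i) (cd i)

/-- weighted left hand sides -/
def wp (f : ℕ → ℕ) (i : ℕ) : ℕ := Nat.mul (cco i) (ws f (pl i))
def wn (f : ℕ → ℕ) (i : ℕ) : ℕ := Nat.mul (cco i) (ws f (nl' i))

/-- weights -/
def bw (m : ℕ) : ℕ := Nat.pow 2 (Nat.mul 32 m)
def one (_ : ℕ) : ℕ := 1

def tw (f : ℕ → ℕ) : List (ℕ × ℕ) → ℕ
  | [] => 0
  | q :: t => Nat.add (Nat.mul q.2 (f q.1)) (tw f t)

/-- the check of a certificate for `∑ TP = ∑ TN` -/
noncomputable def chk (TB nl : ℕ) (t : Tr) (TP TN : List (ℕ × ℕ)) : Bool :=
  t.all (okI TB nl) && (Nat.beq (Nat.add (t.sum (wp bw)) (tw bw TN)) (Nat.add (t.sum (wn bw)) (tw bw TP)) &&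
    (Nat.ble (Nat.add (t.sum (wp one)) (tw one TN)) 4294967295 &&
      Nat.ble (Nat.add (t.sum (wn one)) (tw one TP)) 4294967295))

lemma ws_eq (f : ℕ → ℕ) (L : List ℕ) : ws f L = (L.map f).sum := by
  induction L with
  | nil => rfl
  | cons a t ih => show f a + ws f t = _; rw [ih, List.map_cons, List.sum_cons]

lemma tw_eq (f : ℕ → ℕ) (L : List (ℕ × ℕ)) : tw f L = lsum f L := by
  induction L with
  | nil => rfl
  | cons a t ih => show a.2 * f a.1 + tw f t = _; rw [ih, lsum_cons, smul_eq_mul]

/-- the list of all left hand monomials -/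
def LP (L : List ℕ) : List (ℕ × ℕ) := L.flatMap fun i => (pl i).map fun m => (m, cco i)
def LN (L : List ℕ) : List (ℕ × ℕ) := L.flatMap fun i => (nl' i).map fun m => (m, cco i)

lemma lsum_map {M : Type} [AddCommMonoid M] (g : ℕ → M) (c : ℕ) (L : List ℕ) :
    lsum g (L.map fun m => (m, c)) = c • (L.map g).sum := by
  induction L with
  | nil => simp [lsum]
  | cons a t ih => rw [List.map_cons, lsum_cons, ih, List.map_cons, List.sum_cons, smul_add]

lemma lsum_LP {M : Type} [AddCommMonoid M] (g : ℕ → M) (L : List ℕ) :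
    lsum g (LP L) = (L.map fun i => cco i • ((pl i).map g).sum).sum := by
  induction L with
  | nil => rfl
  | cons a t ih => 
    show lsum g (((pl a).map fun m => (m, cco a)) ++ LP t) = _
    rw [lsum_append, lsum_map, ih, List.map_cons, List.sum_cons]

lemma lsum_LN {M : Type} [AddCommMonoid M] (g : ℕ → M) (L : List ℕ) :
    lsum g (LN L) = (L.map fun i => cco i • ((nl' i).map g).sum).sum := by
  induction L with
  | nil => rfl
  | cons a t ih => 
    show lsum g (((nl' a).map fun m => (m, cco a)) ++ LN t) = _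
    rw [lsum_append, lsum_map, ih, List.map_cons, List.sum_cons]

lemma sum_wp (f : ℕ → ℕ) (t : Tr) : t.sum (wp f) = lsum f (LP t.leaves) := by
  rw [Tr.sum_eq, lsum_LP]
  congr 1
  apply List.map_congr_left
  intro i _
  show cco i * ws f (pl i) = _
  rw [ws_eq, smul_eq_mul]

lemma sum_wn (f : ℕ → ℕ) (t : Tr) : t.sum (wn f) = lsum f (LN t.leaves) := by
  rw [Tr.sum_eq, lsum_LN]
  congr 1
  apply List.map_congr_left
  intro i _
  show cco i * ws f (nl' i) = _
  rw [ws_eq, smul_eq_mul]

section
variable {R : Type} [NonUnitalNonAssocRing R] (hR : IsAlt R)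
include hR

lemma inst_eq (TB nl : ℕ) (x : ℕ → R) (i : ℕ) (h : okI TB nl i = true) :
    ((pl i).map (V TB nl x)).sum = ((nl' i).map (V TB nl x)).sum := by
  have h1 := walk_sound hR TB nl x _ _ _ _ _ _ _ h
  have h2 : ((cP i).map (V TB nl x)).sum = ((cN i).map (V TB nl x)).sum := by
    unfold pv at h1
    unfold cP cN
    cases e0 : Nat.beq (pat (cty i)) 0 with
    | true =>
      rw [e0, cond_true] at h1
      simp only [cond_true, List.map_cons, List.map_nil, List.sum_cons, List.sum_nil, add_zero]
      linear_combination (norm := abel) h1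
    | false =>
      rw [e0, cond_false] at h1
      cases e1 : Nat.beq (pat (cty i)) 1 with
      | true =>
        rw [e1, cond_true] at h1
        simp only [cond_true, cond_false, List.map_cons, List.map_nil, List.sum_cons, List.sum_nil, add_zero]
        linear_combination (norm := abel) h1
      | false =>
        rw [e1, cond_false] at h1
        simp only [cond_false, List.map_cons, List.map_nil, List.sum_cons, List.sum_nil, add_zero]
        linear_combination (norm := abel) h1
  unfold pl nl'
  cases csg i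
  · exact h2.symm
  · exact h2

/-- soundness of certificates -/
theorem chk_sound (TB nl : ℕ) (t : Tr) (TP TN : List (ℕ × ℕ)) (h : chk TB nl t TP TN = true) (x : ℕ → R) :
    lsum (V TB nl x) TP = lsum (V TB nl x) TN := by
  unfold chk at h
  simp only [Bool.and_eq_true, Nat.beq_eq, Nat.ble_eq] at h
  obtain ⟨h1, h2, h3, h4⟩ := h
  have h2' : t.sum (wp bw) + tw bw TN = t.sum (wn bw) + tw bw TP := h2
  have h3' : t.sum (wp one) + tw one TN ≤ 4294967295 := h3
  have h4' : t.sum (wn one) + tw one TP ≤ 4294967295 := h4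
  rw [sum_wp, sum_wn, tw_eq, tw_eq, ← lsum_append, ← lsum_append] at h2'
  rw [sum_wp, tw_eq, ← lsum_append] at h3'
  rw [sum_wn, tw_eq, ← lsum_append] at h4'
  have hbw : (bw : ℕ → ℕ) = fun m => (2 ^ 32) ^ m := by
    funext m
    show 2 ^ (32 * m) = _
    rw [pow_mul]
  rw [hbw] at h2'
  have h5 := lsum_inj (M := R) (2 ^ 32) _ _ (show lsum (fun _ => 1) (LP t.leaves ++ TN) < 2 ^ 32 from by
    have : lsum (fun _ => 1) (LP t.leaves ++ TN) ≤ 4294967295 := h3'
    omega) (show lsum (fun _ => 1) (LN t.leaves ++ TP) < 2 ^ 32 from by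
    have : lsum (fun _ => 1) (LN t.leaves ++ TP) ≤ 4294967295 := h4'
    omega) h2' (V TB nl x)
  rw [lsum_append, lsum_append, lsum_LP, lsum_LN] at h5
  have h6 : (t.leaves.map fun i => cco i • ((pl i).map (V TB nl x)).sum) =
      (t.leaves.map fun i => cco i • ((nl' i).map (V TB nl x)).sum) := by
    apply List.map_congr_left
    intro i hi
    rw [inst_eq hR TB nl x i (Tr.all_iff _ t h1 i hi)]
  rw [h6] at h5
  exact (add_left_cancel h5).symm

end

/-! ### targets -/

/-- monomials -/
inductive T : Type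
  | x : ℕ → T
  | m : T → T → T

def T.val {R : Type} [NonUnitalNonAssocRing R] (x : ℕ → R) : T → R
  | .x i => x i
  | .m a b => a.val x * b.val x

/-- the monomial `k` is `t` -/
def rep (TB nl : ℕ) : T → ℕ → Bool
  | .x i, k => Nat.beq k i && Nat.ble (Nat.add i 1) nl
  | .m a b, k => sp TB nl k (lf TB k) (rf TB k) && (rep TB nl a (lf TB k) && rep TB nl b (rf TB k))

lemma rep_sound {R : Type} [NonUnitalNonAssocRing R] (TB nl : ℕ) (x : ℕ → R) (t : T) :
    ∀ k, rep TB nl t k = true → V TB nl x k = t.val x := by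
  induction t with
  | x i =>
    intro k h
    unfold rep at h
    simp only [Bool.and_eq_true, Nat.beq_eq, Nat.ble_eq] at h
    rw [h.1]
    exact V_lt TB nl x (show i + 1 ≤ nl from h.2)
  | m a b iha ihb =>
    intro k h
    unfold rep at h
    simp only [Bool.and_eq_true] at h
    rw [V_sp TB nl x h.1, iha _ h.2.1, ihb _ h.2.2]
    rfl

/-- targets: coefficient, number, monomial -/
def repL (TB nl : ℕ) : List (ℕ × ℕ × T) → Bool
  | [] => true
  | q :: t => rep TB nl q.2.2 q.2.1 && repL TB nl t

def valL {R : Type} [NonUnitalNonAssocRing R] (x : ℕ → R) : List (ℕ × ℕ × T) → R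
  | [] => 0
  | q :: t => q.1 • q.2.2.val x + valL x t

def keyL : List (ℕ × ℕ × T) → List (ℕ × ℕ)
  | [] => []
  | q :: t => (q.2.1, q.1) :: keyL t

lemma repL_sound {R : Type} [NonUnitalNonAssocRing R] (TB nl : ℕ) (x : ℕ → R) (L : List (ℕ × ℕ × T))
    (h : repL TB nl L = true) : lsum (V TB nl x) (keyL L) = valL x L := by
  induction L with
  | nil => rfl
  | cons q t ih =>
    unfold repL at h
    rw [Bool.and_eq_true] at h
    show lsum _ ((q.2.1, q.1) :: keyL t) = q.1 • q.2.2.val x + valL x t
    rw [lsum_cons, ih h.2, rep_sound TB nl x _ _ h.1]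

theorem main {R : Type} [NonUnitalNonAssocRing R] (hR : IsAlt R) (TB nl : ℕ) (t : Tr) (TP TN : List (ℕ × ℕ × T))
    (h : chk TB nl t (keyL TP) (keyL TN) = true) (hP : repL TB nl TP = true) (hN : repL TB nl TN = true) (x : ℕ → R) :
    valL x TP = valL x TN := by
  rw [← repL_sound TB nl x TP hP, ← repL_sound TB nl x TN hN]
  exact chk_sound hR TB nl t _ _ h x

end Pool.Agent.Helper817.AltCert
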