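import Pool.Agent.Helper817.AltCert
import Pool.Agent.Helper341.Alt.LemV
set_option autoImplicit false
set_option linter.unusedSectionVars false

/-!
Additive families `c ↦ n c` of nuclear elements of an alternative ring with `n c (c,y,z) = 0` and `n (x,y,z) = 0`:
if `2 n c ≠ 0`, or if the ring has characteristic two, `n [p,q] = 0` for all `p, q` and `n c ≠ 0`, then there is a nonzero
nuclear element which annihilates all associators and lies in the ideal generated by `n c`.
-/

namespace Pool.Agent.Helper817.Fam
open Pool.Agent.Helper928.Nuc.Tens hiding as_add1 as_add2 as_add3 as_neg1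
open Pool.Agent.Helper928.Nuc.Alt Pool.Agent.Helper341.Alt
open Pool.Agent.Helper341.Alt.LemV (as_add1 as_add2 as_add3 as_neg1 br_add1 br_antisymm flex as_self1 as_self2 F_comm
  three_as as_mul_self)

section nuc
variable {A : Type} [NonUnitalNonAssocRing A] (hA : IsAlt A) {m : A} (hm : IsNuc m)
include hA hm

omit hA in
lemma a1 (x y : A) : m * x * y = m * (x * y) := sub_eq_zero.mp (hm x y)
lemma a2 (x y : A) : x * m * y = x * (m * y) := sub_eq_zero.mp (hm.two hA x y)
lemma a3 (x y : A) : x * y * m = x * (y * m) := sub_eq_zero.mp (hm.three hA x y)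

/-- nuclear elements commute with associators -/
lemma nuc_as (a b c : A) : as a b c * m = m * as a b c := by
  have h := cocycle a b c m
  rw [hm.three hA b c, hm.three hA, hm.three hA, mul_zero, pc2 hA a b (c * m), hm.mul_right hA c a b,
    ← pc2 hA a b c] at h
  linear_combination (norm := abel) h

/-- `[m,w](w,y,z) = 0` -/
lemma br_self (w y z : A) : br m w * as w y z = 0 := by
  have e1 : as w y (z * w) = w * as w y z := AltCert.M5 hA w y z
  have e2 : m * (w * as w y z) = w * (m * as w y z) := by
    rw [← e1, ← nuc_as hA hm, e1, a3 hA hm, nuc_as hA hm]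
  unfold br
  rw [sub_mul, a1 hm, a2 hA hm, e2, sub_self]

lemma br_self1 (w x y z : A) : br m w * as x y z = - (br m x * as w y z) := by
  have h := br_self hA hm (w + x) y z
  have e : br m (w + x) = br m w + br m x := by unfold br; rw [mul_add, add_mul]; abel
  rw [e, as_add1] at h
  simp only [mul_add, add_mul] at h
  rw [br_self hA hm w y z, br_self hA hm x y z] at h
  linear_combination (norm := abel) h

lemma br_as (w x y z : A) : br m w * as x y z = m * (w * as x y z) - w * (m * as x y z) := by
  unfold br
  rw [sub_mul, a1 hm, a2 hA hm]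

end nuc

/-- the families -/
structure NFam (A : Type) [NonUnitalNonAssocRing A] (n : A → A) : Prop where
  add : ∀ c c', n (c + c') = n c + n c'
  nuc : ∀ c, IsNuc (n c)
  i2 : ∀ c y z, n c * as c y z = 0
  i3 : ∀ x y z, n (as x y z) = 0

section
variable {A : Type} [NonUnitalNonAssocRing A] (hA : IsAlt A) {n : A → A} (H : NFam A n)
include hA H

omit hA in
lemma sw (c x y z : A) : n c * as x y z = - (n x * as c y z) := by
  have h := H.i2 (c + x) y z
  rw [H.add, as_add1] at h
  simp only [mul_add, add_mul] at h
  rw [H.i2, H.i2] at h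
  linear_combination (norm := abel) h

omit hA in
lemma P2 (c p q r y z : A) : n c * as (as p q r) y z = 0 := by
  rw [sw H, H.i3, zero_mul, neg_zero]

lemma G_nuc (c x y z : A) : IsNuc (n c * as x y z) := by
  intro u v
  rw [(H.nuc c).mul_left hA, P2 H]

/-- `Λ` alternates in the last argument of the first associator and the first one of the second -/
lemma L_self (c x y z v t : A) : n c * as x y z * as z v t = 0 := by
  rw [← (G_nuc hA H c x y z).mul_left hA, a1 (H.nuc c), as_mul_self hA, mul_neg]
  have h : IsNuc (-(n c * as (z * y) x z)) := by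
    intro u v
    rw [as_neg1, G_nuc hA H, neg_zero]
  exact h v t

lemma L_sw (c x y z u v t : A) : n c * as x y z * as u v t = - (n c * as x y u * as z v t) := by
  have h := L_self hA H c x y (z + u) v t
  rw [as_add1, as_add3] at h
  simp only [mul_add, add_mul] at h
  rw [L_self hA H c x y z, L_self hA H c x y u] at h
  linear_combination (norm := abel) h

lemma L_anti (c x y z u v t : A) : n c * as x y z * as u v t = - (n c * as u v t * as x y z) := by
  rw [L_sw hA H c x y z u v t, pc2 hA x y u, pc1 hA z v t, L_sw hA H c u x y v t z, pc2 hA u x v, pc1 hA y t z,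
    L_sw hA H c v u x t z y, p12 hA v u t, p23 hA x z y]
  simp only [mul_neg, neg_mul, neg_neg]

lemma L_comm (c x y z u v t : A) : n c * as x y z * as u v t = n c * as u v t * as x y z := by
  rw [← nuc_as hA (G_nuc hA H c x y z), ← a2 hA (H.nuc c), nuc_as hA (H.nuc c)]

lemma L_two (c x y z u v t : A) : n c * as x y z * as u v t + n c * as x y z * as u v t = 0 := by
  have h1 := L_anti hA H c x y z u v t
  have h2 := L_comm hA H c x y z u v t
  linear_combination (norm := abel) h1 + h2

/-- the case `2 n c ≠ 0` -/
theorem case_two (c : A) (h0 : n c + n c ≠ 0) :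
    ∃ k : A, k ≠ 0 ∧ IsNuc k ∧ (∀ y r s : A, k * as y r s = 0) ∧
      (k = n c + n c ∨ ∃ t, k = (n c + n c) * t) := by
  have hN : IsNuc (n c + n c) := by
    intro u v
    rw [as_add1, H.nuc c, add_zero]
  by_cases h : ∀ x y z, (n c + n c) * as x y z = 0
  · exact ⟨n c + n c, h0, hN, h, Or.inl rfl⟩
  · push Not at h
    obtain ⟨x, y, z, h⟩ := h
    refine ⟨(n c + n c) * as x y z, h, ?_, ?_, Or.inr ⟨_, rfl⟩⟩
    · intro u v
      rw [hN.mul_left hA, add_mul, P2 H, add_zero]
    · intro u v t
      rw [add_mul, add_mul]
      exact L_two hA H c x y z u v t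

end

section two
variable {A : Type} [NonUnitalNonAssocRing A] (hA : IsAlt A) {n : A → A} (H : NFam A n)
  (h5 : ∀ p q : A, n (br p q) = 0)
include hA H h5

omit hA in
lemma P1 (c p q y z : A) : n c * as (br p q) y z = 0 := by
  rw [sw H, h5, zero_mul, neg_zero]

lemma nF (c a b x y : A) : n c * as (a * b) x y = n c * (b * as a x y) + n c * as b x y * a := by
  have h := congrArg (fun t => n c * t) (F_comm hA a b x y)
  simp only [mul_add, mul_sub] at h
  rw [P1 H h5, P1 H h5, add_zero, ← a1 (H.nuc c) (as b x y) a] at h
  linear_combination (norm := abel) h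

/-- `κ` vanishes if `c` occurs in the associator -/
lemma kap_c (c w y z : A) : br (n c) w * as c y z = 0 := by
  rw [br_as hA (H.nuc c), H.i2, mul_zero, sub_zero]
  have h1 := nF hA H h5 c c w y z
  -- n c (cw,y,z) = n c (w (c,y,z)) + (n c (w,y,z)) c
  have h2 : n c * as (c * w) y z = n c * as w y z * c := by
    have e1 := AltCert.M4 hA (y + c) z w
    rw [as_add1, as_add1, add_mul, as_add3, as_add3] at e1
    simp only [mul_add, add_mul] at e1
    rw [AltCert.M4 hA y z w, AltCert.M4 hA c z w] at e1
    have e2 : as y z (c * w) + as c z (y * w) = as y z w * c + as c z w * y := by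
      linear_combination (norm := abel) e1
    have e3 := congrArg (fun t => n c * t) e2
    simp only [mul_add] at e3
    rw [H.i2, add_zero, ← a1 (H.nuc c) (as c z w) y, H.i2, zero_mul, add_zero, ← a1 (H.nuc c) (as y z w) c,
      ← pc1 hA (c * w) y z, ← pc1 hA w y z] at e3
    exact e3
  rw [h2] at h1
  linear_combination (norm := abel) - h1

lemma kap_sw (c w x y z : A) : br (n c) w * as x y z = - (br (n x) w * as c y z) := by
  have h := kap_c hA H h5 (c + x) w y z
  rw [H.add, br_add1, as_add1] at h
  simp only [mul_add, add_mul] at h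
  rw [kap_c hA H h5 c, kap_c hA H h5 x] at h
  linear_combination (norm := abel) h

lemma br_z1 (w : A) : br (0 : A) w = 0 := by unfold br; simp

lemma kap_br (c w p q y z : A) : br (n c) w * as (br p q) y z = 0 := by
  rw [kap_sw hA H h5, h5, br_z1 hA H h5, zero_mul, neg_zero]

/-- `θ` -/
lemma th_self (c x u v z : A) : n c * as x u v * br x z = 0 := by
  have h := congrArg (fun t => n c * t) (F_comm hA (br x z) x u v)
  simp only [mul_add, mul_sub] at h
  have e1 : br x z * x = br x (z * x) := by
    have := flex hA x z
    unfold as at this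
    unfold br
    rw [sub_mul]
    linear_combination (norm := abel) this
  have e2 : n c * (x * as (br x z) u v) = 0 := by
    have h2 := br_as hA (H.nuc c) x (br x z) u v
    rw [kap_br hA H h5, P1 H h5, mul_zero, sub_zero] at h2
    exact h2.symm
  rw [e1, P1 H h5, P1 H h5, P1 H h5, e2, ← a1 (H.nuc c)] at h
  linear_combination (norm := abel) - h

lemma th_sw (c x u v y z : A) : n c * as x u v * br y z = - (n c * as y u v * br x z) := by
  have h := th_self hA H h5 c (x + y) u v z
  rw [br_add1, as_add1] at h
  simp only [mul_add, add_mul] at h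
  rw [th_self hA H h5 c x, th_self hA H h5 c y] at h
  linear_combination (norm := abel) h

/-- `n c [e,z]` is nuclear and annihilates associators -/
lemma ez_nuc (c p q r z : A) : IsNuc (n c * br (as p q r) z) := by
  intro u v
  rw [(H.nuc c).mul_left hA, P1 H h5]

lemma ez_kill (c p q r z y u v : A) : n c * br (as p q r) z * as y u v = 0 := by
  rw [← nuc_as hA (ez_nuc hA H h5 c p q r z), ← a2 hA (H.nuc c), nuc_as hA (H.nuc c), th_sw hA H h5, P2 H, zero_mul,
    neg_zero]

/-- `κ(c;x,u,v,t)[u,z] = 0` -/
lemma kth_self (c x u v t z : A) : br (n c) x * as u v t * br u z = 0 := by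
  have hn : IsNuc (br (n c) x) := (H.nuc c).comm hA x
  have h := congrArg (fun s => br (n c) x * s) (F_comm hA (br u z) u v t)
  simp only [mul_add, mul_sub] at h
  have e1 : br u z * u = br u (z * u) := by
    have := flex hA u z
    unfold as at this
    unfold br
    rw [sub_mul]
    linear_combination (norm := abel) this
  have e2 : ∀ w, n c * (w * as (br u z) v t) = 0 := by
    intro w
    have h2 := br_as hA (H.nuc c) w (br u z) v t
    rw [kap_br hA H h5, P1 H h5, mul_zero, sub_zero] at h2
    exact h2.symm
  have e3 : br (n c) x * (u * as (br u z) v t) = 0 := by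
    have h3 : br (n c) x * (u * as (br u z) v t) = n c * (x * (u * as (br u z) v t)) - x * (n c * (u * as (br u z) v t)) := by
      unfold br
      rw [sub_mul, a1 (H.nuc c), a2 hA (H.nuc c)]
    have h4 : x * (u * as (br u z) v t) = (x * u) * as (br u z) v t - as x u (as (br u z) v t) := by
      unfold as; abel
    rw [h3, e2 u, mul_zero, sub_zero, h4, mul_sub, e2 (x * u), pc2 hA, P2 H, sub_zero]
  rw [e1, kap_br hA H h5, kap_br hA H h5, kap_br hA H h5, e3, ← a1 hn] at h
  linear_combination (norm := abel) - h

lemma kth_sw (c x u v t y z : A) : br (n c) x * as u v t * br y z = - (br (n c) x * as y v t * br u z) := by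
  have h := kth_self hA H h5 c x (u + y) v t z
  rw [br_add1, as_add1] at h
  simp only [mul_add, add_mul] at h
  rw [kth_self hA H h5 c x u, kth_self hA H h5 c x y] at h
  linear_combination (norm := abel) h

lemma kth_xy (c x u v t y z : A) :
    br (n c) x * as u v t * br y z + br (n c) y * as u v t * br x z = 0 := by
  rw [br_self1 hA (H.nuc c) x u v t, br_self1 hA (H.nuc c) y u v t]
  have h := kth_sw hA H h5 c u x v t y z
  simp only [neg_mul]
  rw [h]
  abel

/-- if `n c [e,z] = 0` for all associators `e` then `3 n c e e' = 0` -/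
lemma three (c : A) (hz : ∀ p q r z : A, n c * br (as p q r) z = 0) (x y z u v t : A) :
    n c * as u v t * as x y z + n c * as u v t * as x y z + n c * as u v t * as x y z = 0 := by
  have cm : ∀ x u v t, n c * as u v t * x = x * (n c * as u v t) + br (n c) x * as u v t := by
    intro x u v t
    have h := hz u v t x
    unfold br at h
    rw [mul_sub, ← a1 (H.nuc c), ← a1 (H.nuc c) x] at h
    unfold br
    rw [sub_mul, a2 hA (H.nuc c)]
    linear_combination (norm := abel) h
  have hG : ∀ u, IsNuc (n c * as u v t) := fun u => G_nuc hA H c u v t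
  have T0 := congrArg (fun s => n c * as u v t * s) (three_as hA x y z)
  simp only [mul_add, mul_sub] at T0
  -- T1
  have T1 : n c * as u v t * br (x * y) z = y * (n c * as u v t * br x z) + x * (n c * as u v t * br y z) := by
    rw [th_sw hA H h5 c u v t (x * y) z, nF hA H h5]
    have e1 : n c * (y * as x v t) = br (n c) y * as x v t + y * (n c * as x v t) := by
      rw [br_as hA (H.nuc c)]; abel
    rw [e1, cm x y v t]
    have e2 := br_self1 hA (H.nuc c) y x v t
    have e3 : (br (n c) y * as x v t + y * (n c * as x v t) + (x * (n c * as y v t) + br (n c) x * as y v t)) * br u z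
        = y * (n c * as x v t * br u z) + x * (n c * as y v t * br u z) := by
      rw [e2, ← a2 hA (hG x), ← a2 hA (hG y)]
      simp only [add_mul, neg_mul]
      abel
    rw [e3, th_sw hA H h5 c u v t x z, th_sw hA H h5 c u v t y z]
    simp only [mul_neg]
    abel
  have T2 : n c * as u v t * (x * br y z) = x * (n c * as u v t * br y z) + br (n c) x * as u v t * br y z := by
    rw [← a1 (hG u), cm x u v t, add_mul, a2 hA (hG u)]
  have T3 : n c * as u v t * (br x z * y) = y * (n c * as u v t * br x z) + br (n c) y * as u v t * br x z := by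
    have e1 : n c * as u v t * br (br x z) y = 0 := by
      rw [th_sw hA H h5, P1 H h5, zero_mul, neg_zero]
    have e2 : br x z * y = y * br x z + br (br x z) y := by unfold br; abel
    rw [e2, mul_add, e1, add_zero, ← a1 (hG u), cm y u v t, add_mul, a2 hA (hG u)]
  rw [T1, T2, T3] at T0
  have h := kth_xy hA H h5 c x u v t y z
  linear_combination (norm := abel) T0 - h

/-- the case of characteristic two -/
theorem case_char2 (h2 : ∀ x : A, x + x = 0) (c : A) (h0 : n c ≠ 0) :
    ∃ k : A, k ≠ 0 ∧ IsNuc k ∧ (∀ y r s : A, k * as y r s = 0) ∧ (k = n c ∨ ∃ t, k = n c * t) := by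
  by_cases hz : ∀ p q r z : A, n c * br (as p q r) z = 0
  · have hee : ∀ u v t x y z, n c * as u v t * as x y z = 0 := by
      intro u v t x y z
      have h := three hA H h5 c hz x y z u v t
      rwa [h2, zero_add] at h
    by_cases h : ∀ x y z, n c * as x y z = 0
    · exact ⟨n c, h0, H.nuc c, h, Or.inl rfl⟩
    · push Not at h
      obtain ⟨x, y, z, h⟩ := h
      exact ⟨n c * as x y z, h, G_nuc hA H c x y z, fun u v t => hee x y z u v t, Or.inr ⟨_, rfl⟩⟩
  · push Not at hz
    obtain ⟨p, q, r, z, hz⟩ := hz
    exact ⟨n c * br (as p q r) z, hz, ez_nuc hA H h5 c p q r z, fun y u v => ez_kill hA H h5 c p q r z y u v,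
      Or.inr ⟨_, rfl⟩⟩

end two

end Pool.Agent.Helper817.Fam
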