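import Pool.Agent.Helper817.CertI
set_option autoImplicit false
set_option maxRecDepth 100000

namespace Pool.Agent.Helper817.IdI
open Pool.Agent.Helper817.AltCert Pool.Agent.Helper817.CertI

theorem chkI : chk TB 4 CT (keyL TP) (keyL TN) = true := by decide +kernel
theorem repP : repL TB 4 TP = true := by decide +kernel
theorem repN : repL TB 4 TN = true := by decide +kernel

end Pool.Agent.Helper817.IdI
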