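import Mathlib
set_option autoImplicit false

/-! Sparse integral structure constants: codes `2 m + s` stand for `(-1)^s e_m`. -/

namespace Pool.Agent.Helper817.UD

inductive Tr (α : Type) : Type
  | l : α → Tr α
  | n : Tr α → Tr α → Tr α

noncomputable def Tr.get {α : Type} (t : Tr α) : ℕ → α :=
  Tr.rec (fun a _ => a) (fun _ _ f g k => cond (Nat.beq (k % 2) 0) (f (k / 2)) (g (k / 2))) t

/-- decode a list of codes -/
def dec : ℕ → ℕ → List ℕ
  | 0, _ => []
  | f + 1, v => cond (Nat.beq v 0) [] ((v % 512 - 1) :: dec f (v / 512))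

/-- change the sign of a code -/
def flip (c : ℕ) : ℕ := cond (Nat.beq (c % 2) 0) (c + 1) (c - 1)

def flipL : List ℕ → List ℕ
  | [] => []
  | c :: t => flip c :: flipL t

def ins (c d0 : ℕ) : List ℕ → List ℕ
  | [] => [c]
  | d :: t => cond (Nat.beq d d0) t (d :: ins c d0 t)

def nrm : List ℕ → List ℕ
  | [] => []
  | c :: t => ins c (flip c) (nrm t)

def isNil : List ℕ → Bool
  | [] => true
  | _ :: _ => false

def app : List ℕ → List ℕ → List ℕ
  | [], L => L
  | c :: t, L => c :: app t L

/-- coefficient of `e_k` -/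
def cf : List ℕ → ℕ → ℤ
  | [], _ => 0
  | c :: t, k => (if c / 2 = k then (if c % 2 = 0 then 1 else -1) else 0) + cf t k

lemma cf_app (L M : List ℕ) (k : ℕ) : cf (app L M) k = cf L k + cf M k := by
  induction L with
  | nil => simp [app, cf]
  | cons c t ih => simp [app, cf, ih, add_assoc]

lemma beq_zero (a : ℕ) : Nat.beq a 0 = decide (a = 0) := by
  rw [Bool.eq_iff_iff]; simp [Nat.beq_eq]

lemma flip_div (c : ℕ) : flip c / 2 = c / 2 := by
  unfold flip
  rw [beq_zero]
  by_cases h : c % 2 = 0
  · simp only [h, decide_true, cond_true]; omega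
  · simp only [h, decide_false, cond_false]; omega

lemma flip_mod (c : ℕ) : flip c % 2 = 0 ↔ c % 2 ≠ 0 := by
  unfold flip
  rw [beq_zero]
  by_cases h : c % 2 = 0
  · simp only [h, decide_true, cond_true]; omega
  · simp only [h, decide_false, cond_false]; omega

lemma cf_flip1 (c : ℕ) (k : ℕ) : cf [flip c] k = - cf [c] k := by
  unfold cf
  simp only [cf, add_zero, flip_div]
  by_cases h : c / 2 = k
  · by_cases h2 : c % 2 = 0
    · have := (flip_mod c).not.mpr (by simpa using h2)
      simp [h, h2, this]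
    · have := (flip_mod c).mpr h2
      simp [h, h2, this]
  · simp [h]

lemma cf_cons (c : ℕ) (t : List ℕ) (k : ℕ) : cf (c :: t) k = cf [c] k + cf t k := by
  simp [cf]

lemma cf_flipL (L : List ℕ) (k : ℕ) : cf (flipL L) k = - cf L k := by
  induction L with
  | nil => simp [flipL, cf]
  | cons c t ih => 
    show cf (flip c :: flipL t) k = _
    rw [cf_cons, cf_cons c t, ih, cf_flip1]; ring

lemma cf_ins (c : ℕ) (L : List ℕ) (k : ℕ) : cf (ins c (flip c) L) k = cf [c] k + cf L k := by
  induction L with
  | nil => simp [ins, cf]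
  | cons d t ih =>
    unfold ins
    by_cases h : d = flip c
    · have hb : Nat.beq d (flip c) = true := Nat.beq_eq.mpr h
      rw [hb, cond_true, cf_cons d t, h, cf_flip1]; ring
    · have hb : Nat.beq d (flip c) = false := by
        cases hh : Nat.beq d (flip c)
        · rfl
        · exact absurd (Nat.beq_eq.mp hh) h
      rw [hb, cond_false, cf_cons d, ih, cf_cons d t]; ring

lemma cf_nrm (L : List ℕ) (k : ℕ) : cf (nrm L) k = cf L k := by
  induction L with
  | nil => rfl
  | cons c t ih => 
    show cf (ins c (flip c) (nrm t)) k = _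
    rw [cf_ins, ih, cf_cons c t]

lemma cf_of_isNil {L : List ℕ} (h : isNil L = true) (k : ℕ) : cf L k = 0 := by
  cases L with
  | nil => rfl
  | cons c t => exact absurd h (by simp [isNil])

lemma cf_zero_of_nrm {L : List ℕ} (h : isNil (nrm L) = true) (k : ℕ) : cf L k = 0 := by
  rw [← cf_nrm]; exact cf_of_isNil h k

/-- sum of the signed images of the codes of a list -/
def bind (F : ℕ → List ℕ) : List ℕ → List ℕ
  | [] => []
  | c :: t => app (cond (Nat.beq (c % 2) 0) (F (c / 2)) (flipL (F (c / 2)))) (bind F t)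

lemma cf_bind (F : ℕ → List ℕ) (N : ℕ) (L : List ℕ) (hL : ∀ c ∈ L, c / 2 < N) (k : ℕ) :
    cf (bind F L) k = ∑ m : Fin N, cf L m * cf (F m) k := by
  induction L with
  | nil => simp [bind, cf]
  | cons c t ih =>
    have ht : ∀ c ∈ t, c / 2 < N := fun d hd => hL d (List.mem_cons_of_mem _ hd)
    have hc : c / 2 < N := hL c (List.mem_cons_self)
    show cf (app _ (bind F t)) k = _
    rw [cf_app, ih ht]
    have h1 : ∀ m : Fin N, cf (c :: t) m * cf (F m) k
        = (if m = (⟨c / 2, hc⟩ : Fin N) then (if c % 2 = 0 then 1 else -1) * cf (F m) k else 0) + cf t m * cf (F m) k := by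
      intro m
      have e : (c / 2 = (m : ℕ)) ↔ (m = (⟨c / 2, hc⟩ : Fin N)) := by
        constructor
        · intro h; apply Fin.ext; exact h.symm
        · intro h; rw [h]
      have h0 : cf (c :: t) m = (if c / 2 = (m : ℕ) then (if c % 2 = 0 then 1 else -1) else 0) + cf t m := rfl
      rw [h0]
      by_cases h : m = (⟨c / 2, hc⟩ : Fin N)
      · rw [if_pos (e.mpr h), if_pos h]; ring
      · rw [if_neg (fun h' => h (e.mp h')), if_neg h]; ring
    rw [Finset.sum_congr rfl (fun m _ => h1 m), Finset.sum_add_distrib, Finset.sum_ite_eq' Finset.univ]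
    simp only [Finset.mem_univ, if_true]
    congr 1
    rw [beq_zero]
    by_cases h2 : c % 2 = 0
    · simp [h2]
    · simp [h2, cf_flipL]

end Pool.Agent.Helper817.UD
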