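import Pool.Agent.Helper817.UDData
set_option autoImplicit false

namespace Pool.Agent.Helper817.UD

noncomputable def pr (i j : ℕ) : List ℕ := dec 6 ((RT.get i).get j)
noncomputable def D (i : ℕ) : ℕ := DT.get i

def fit (x : ℕ) : Bool :=
  Nat.ble (x % 16) 2 && (Nat.ble (x / 16 % 16) 2 && (Nat.ble (x / 256 % 16) 1 &&
    (Nat.ble (x / 4096 % 16) 1 && Nat.ble (x / 65536 % 16) 1)))

noncomputable def asl (i j l : ℕ) : List ℕ :=
  app (bind (fun m => pr m l) (pr i j)) (flipL (bind (fun m => pr i m) (pr j l)))

noncomputable def chkL (i j l : ℕ) : Bool := isNil (nrm (app (asl i j l) (asl j i l)))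
noncomputable def chkR (i j l : ℕ) : Bool := isNil (nrm (app (asl i j l) (asl i l j)))

noncomputable def chkAll : Bool :=
  comps.all fun A => comps.all fun B => cond (Nat.ble A.1 B.1 && fit (A.1 + B.1))
    (comps.all fun C => cond (fit (A.1 + B.1 + C.1))
      (A.2.all fun p => B.2.all fun q => C.2.all fun r => chkL p q r && chkR r p q) true) true

noncomputable def gr : Bool :=
  comps.all fun A => comps.all fun B => A.2.all fun p => B.2.all fun q =>
    cond (fit (A.1 + B.1))
      ((pr p q).all fun c => Nat.ble (c / 2) 166 && Nat.beq (D (c / 2)) (A.1 + B.1))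
      (isNil (pr p q))

def cov : Bool := decide (comps.flatMap Prod.snd = List.range 167)

noncomputable def dcheck : Bool :=
  comps.all fun A => (fit A.1 && Nat.ble A.1 1048575) && A.2.all fun p => Nat.beq (D p) A.1

set_option maxRecDepth 100000

theorem cov_true : cov = true := by decide +kernel
theorem dcheck_true : dcheck = true := by decide +kernel
theorem gr_true : gr = true := by decide +kernel

end Pool.Agent.Helper817.UD
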