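import Pool.Agent.Helper817.UDBase
set_option autoImplicit false

namespace Pool.Agent.Helper817.UD
open Tr

def r0 : Tr ℕ := (n (n (n (n (n (n (n (n (l 11) (l 0)) (l 0)) (n (n (l 131) (l 0)) (n (l 263) (l 0)))) (n (n (n (l 85) (l 0)) (l 0)) (n (n (l 165) (l 0)) (l 0)))) (n (n (n (n (l 49) (l 0)) (l 0)) (n (n (l 145) (l 0)) (n (l 271) (l 0)))) (n (n (n (l 0) (l 327)) (n (l 254) (l 0))) (n (n (l 199) (l 0)) (n (l 153895) (l 0)))))) (n (n (n (n (n (l 23) (l 0)) (l 0)) (n (n (l 145) (l 0)) (l 0))) (n (n (n (l 0) (l 322)) (l 0)) (n (n (l 183) (l 0)) (n (l 287) (l 0))))) (n (n (n (n (l 31803) (l 0)) (l 0)) (n (l 0) (n (l 140048) (l 0)))) (n (n (n (l 0) (l 330)) (n (l 133890) (l 0))) (n (l 0) (n (l 310) (l 0))))))) (n (n (n (n (n (n (l 17) (l 0)) (l 0)) (n (n (l 141) (l 0)) (l 0))) (n (n (n (l 95) (l 319)) (l 0)) (n (n (l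 169) (l 0)) (n (l 145176) (l 0))))) (n (n (n (n (l 55) (l 0)) (l 0)) (n (n (l 151) (l 0)) (l 0))) (n (n (l 0) (n (l 133891) (l 0))) (n (n (l 28375097549) (l 0)) (n (l 301) (l 0)))))) (n (n (n (n (n (l 45) (l 0)) (l 0)) (n (n (l 38083721) (l 0)) (n (l 271) (l 0)))) (n (n (n (l 0) (l 323)) (l 0)) (n (l 0) (n (l 150307) (l 0))))) (n (n (n (n (l 75) (l 0)) (l 0)) (l 0)) (n (n (n (l 127) (l 0)) (n (l 133378) (l 0))) (n (n (l 233) (l 0)) (l 0))))))) (n (n (n (n (n (n (n (l 15) (l 0)) (l 0)) (n (n (l 131) (l 0)) (l 0))) (n (l 0) (n (l 0) (n (l 145177) (l 0))))) (n (n (n (n (l 53) (l 0)) (l 0)) (n (l 0) (n (l 272) (l 0)))) (n (n (n (l 0) (l 328)) (n (l 133890) (l 0))) (n (n (l 208) (l 0)) (l 0))))) (n (n (n (l 0) (n (n (l 39134856) (l 0)) (n (l 269) (l 0)))) (n (l 0) (n (n (l 97465) (l 0)) (n (l 289) (l 0))))) (n (n (n (n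 (l 33343) (l 0)) (l 0)) (n (l 0) (n (l 276) (l 0)))) (n (n (n (l 66687) (l 0)) (l 0)) (n (l 0) (n (l 82210613) (l 0))))))) (n (n (n (n (n (n (l 21) (l 0)) (l 0)) (n (n (l 19633609353) (l 0)) (n (l 267) (l 0)))) (n (n (n (l 97) (l 322)) (l 0)) (n (n (l 91311) (l 0)) (n (l 285) (l 0))))) (n (n (n (n (l 57) (l 0)) (l 0)) (n (n (l 153) (l 0)) (n (l 276) (l 0)))) (n (n (l 0) (n (l 68027136) (l 0))) (n (n (l 110294) (l 0)) (n (l 306) (l 0)))))) (n (n (n (n (n (l 47) (l 0)) (l 0)) (n (n (l 75409) (l 0)) (n (l 72230160) (l 0)))) (n (n (l 0) (n (l 130302) (l 0))) (l 0))) (n (n (n (n (l 73) (l 0)) (l 0)) (n (n (l 83617) (l 0)) (l 0))) (l 0))))))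

def r1 : Tr ℕ := (n (n (n (n (n (n (n (n (l 13) (l 0)) (l 0)) (n (n (l 175) (l 0)) (l 0))) (n (n (n (l 109) (l 0)) (n (l 72230160) (l 0))) (n (n (l 57516750) (l 0)) (l 0)))) (n (n (n (n (l 34368) (l 321)) (l 0)) (n (n (l 97467) (l 0)) (n (l 300) (l 0)))) (n (n (n (l 133) (l 331)) (l 0)) (n (n (l 237) (l 0)) (l 0))))) (n (n (n (n (n (l 33) (l 0)) (n (l 255) (l 0))) (n (n (l 97467) (l 0)) (l 0))) (n (n (l 0) (n (l 145176) (l 0))) (n (l 0) (n (l 310) (l 0))))) (n (n (n (l 0) (n (l 263) (l 0))) (n (l 0) (n (l 153384) (l 0)))) (n (n (n (l 79512) (l 331)) (l 0)) (n (l 0) (n (l 315) (l 0))))))) (n (n (n (n (n (n (l 27) (l 0)) (n (l 253) (l 0))) (n (n (l 97467) (l 0)) (l 0))) (n (n (n (l 117) (l 0)) (n (l 277) (l 0))) (n (n (l 116449) (l 0)) (n (l 302) (l 0))))) (n (n (n (n (l 69) (l 0)) (l 0)) (n (n (l 193) (l 0)) (n (l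 153384) (l 0)))) (n (n (n (l 20171004551) (l 331)) (l 0)) (n (n (l 241) (l 0)) (l 0))))) (n (n (n (n (n (l 61) (l 317)) (n (l 132865) (l 0))) (n (n (l 189) (l 0)) (n (l 296) (l 0)))) (n (n (n (l 66175) (l 0)) (l 0)) (l 0))) (n (n (n (n (l 107) (l 327)) (l 0)) (n (n (l 207) (l 0)) (l 0))) (n (l 0) (n (n (l 249) (l 0)) (l 0))))))) (n (n (n (n (n (n (n (l 25) (l 0)) (l 0)) (n (n (l 177) (l 0)) (l 0))) (n (n (l 0) (n (l 140047) (l 0))) (n (l 0) (n (l 303) (l 0))))) (n (n (n (n (l 77) (l 321)) (n (l 68289791) (l 0))) (l 0)) (n (n (n (l 38084238) (l 332)) (l 0)) (l 0)))) (n (n (n (n (n (l 43) (l 0)) (n (l 68289791) (l 0))) (n (n (l 181) (l 0)) (n (l 150307) (l 0)))) (n (n (n (l 129) (l 0)) (l 0)) (n (l 0) (n (l 313) (l 0))))) (n (n (n (n (l 103) (l 324)) (l 0)) (n (l 0) (n (l 299) (l 0)))) (n (l 0) (n (l 0) (n (l 162108)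 (l 0))))))) (n (n (n (n (n (n (l 31) (l 0)) (n (l 68289791) (l 0))) (n (n (l 179) (l 333)) (n (l 293) (l 0)))) (n (n (n (l 61044) (l 0)) (l 0)) (n (l 0) (n (l 308) (l 0))))) (n (n (n (n (l 87) (l 0)) (l 0)) (n (n (l 193) (l 0)) (n (l 295) (l 0)))) (n (l 0) (n (n (l 243) (l 0)) (n (l 315) (l 0)))))) (n (n (n (n (n (l 59) (l 322)) (n (l 257) (l 0))) (n (n (l 94389) (l 0)) (n (l 153384) (l 0)))) (l 0)) (n (n (n (n (l 0) (l 329)) (n (l 270) (l 0))) (n (n (l 217) (l 0)) (l 0))) (l 0))))))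

def r2 : Tr ℕ := (n (n (n (n (n (n (n (l 0) (n (l 253) (l 0))) (n (l 0) (n (l 297) (l 0)))) (n (n (n (l 115) (l 0)) (l 0)) (n (l 0) (n (l 160053) (l 0))))) (n (n (l 0) (n (n (l 103621) (l 0)) (l 0))) (l 0))) (n (n (n (n (n (l 39) (l 0)) (l 0)) (n (n (l 196) (l 0)) (l 0))) (n (n (n (l 125) (l 0)) (l 0)) (l 0))) (n (n (n (n (l 0) (l 169288)) (n (l 275) (l 0))) (l 0)) (n (n (n (l 161) (l 0)) (l 0)) (n (n (l 127736) (l 0)) (l 0)))))) (n (n (n (n (l 0) (n (n (l 202) (l 333)) (l 0))) (n (l 0) (n (n (l 233) (l 0)) (n (l 310) (l 0))))) (n (n (n (n (l 90) (l 0)) (n (l 265) (l 0))) (n (n (l 107725) (l 0)) (l 0))) (n (l 0) (n (l 0) (n (l 315) (l 0)))))) (n (n (n (n (n (l 64) (l 0)) (n (l 265) (l 0))) (n (n (l 197) (l 0)) (l 0))) (n (n (n (l 0) (l 332)) (l 0)) (n (n (l 241) (l 0)) (l 0)))) (n (n (l 0) (n (l 0) (n (l 157489)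 (l 0)))) (n (n (n (l 173) (l 0)) (n (l 292) (l 0))) (l 0)))))) (n (n (n (n (n (n (n (l 0) (l 317)) (l 0)) (n (n (l 0) (l 334)) (l 0))) (n (l 0) (n (n (l 231) (l 0)) (n (l 310) (l 0))))) (n (n (l 0) (n (n (l 210) (l 0)) (l 0))) (l 0))) (n (n (n (l 0) (n (n (l 198) (l 0)) (l 0))) (n (n (n (l 132) (l 0)) (n (l 287) (l 0))) (l 0))) (n (n (n (n (l 0) (l 168775)) (n (l 273) (l 0))) (l 0)) (n (l 0) (n (n (l 247) (l 0)) (l 0)))))) (n (n (n (n (n (n (l 36) (l 321)) (l 0)) (n (n (l 198) (l 0)) (l 0))) (n (n (l 0) (n (l 285) (l 0))) (l 0))) (n (n (n (n (l 93) (l 327)) (n (l 272) (l 0))) (n (n (l 109264) (l 0)) (l 0))) (n (n (n (l 157) (l 0)) (n (l 291) (l 0))) (l 0)))) (n (n (n (n (n (l 63) (l 0)) (l 0)) (n (n (l 197) (l 0)) (l 0))) (n (n (n (l 131) (l 331)) (l 0)) (l 0))) (n (n (n (n (l 112) (l 0)) (l 0)) (n (l 0) (n (l 305)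 (l 0)))) (n (n (l 0) (n (l 152360) (l 0))) (l 0)))))))

def r3 : Tr ℕ := (n (n (n (n (n (n (n (n (l 19) (l 0)) (l 0)) (n (n (l 104131) (l 0)) (n (l 304) (l 0)))) (n (n (n (l 63097) (l 0)) (n (l 288) (l 0))) (l 0))) (n (n (n (n (l 91) (l 330)) (l 0)) (l 0)) (n (n (n (l 159) (l 0)) (n (l 292) (l 0))) (n (l 0) (n (l 316) (l 0)))))) (n (n (n (n (n (l 41) (l 0)) (l 0)) (l 0)) (n (n (n (l 0) (l 331)) (l 0)) (l 0))) (n (n (n (n (l 105) (l 0)) (n (l 145177) (l 0))) (n (l 0) (n (l 311) (l 0)))) (n (n (n (l 171) (l 0)) (l 0)) (l 0))))) (n (n (n (n (n (n (l 35) (l 0)) (n (l 267) (l 0))) (l 0)) (n (n (n (l 125) (l 0)) (n (l 148253) (l 0))) (l 0))) (n (n (n (n (l 0) (l 330)) (l 0)) (n (n (l 227) (l 0)) (n (l 309) (l 0)))) (l 0))) (n (n (n (n (n (l 21536325) (l 0)) (l 0)) (n (l 0) (n (l 309) (l 0)))) (n (n (n (l 139) (l 0)) (l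 0)) (n (n (l 245) (l 0)) (l 0)))) (n (n (l 0) (n (n (l 234) (l 0)) (l 0))) (n (n (n (l 92852) (l 0)) (l 0)) (l 0)))))) (n (n (n (n (n (n (n (l 29) (l 0)) (l 0)) (n (n (l 103111) (l 0)) (l 0))) (n (n (l 0) (n (l 287) (l 0))) (l 0))) (n (n (l 0) (n (l 0) (n (l 82210614) (l 0)))) (n (l 0) (n (n (l 250) (l 0)) (l 0))))) (n (n (n (n (n (l 51) (l 0)) (l 0)) (l 0)) (n (n (n (l 147) (l 0)) (l 0)) (l 0))) (n (n (n (n (l 57967) (l 0)) (n (l 145176) (l 0))) (n (l 0) (n (l 160565) (l 0)))) (n (n (n (l 96437) (l 0)) (l 0)) (l 0))))) (n (n (n (l 0) (n (n (n (l 126) (l 331)) (l 0)) (n (n (l 239) (l 0)) (l 0)))) (n (n (n (n (l 101) (l 0)) (l 0)) (n (n (l 229) (l 0)) (n (l 41957092146) (l 0)))) (n (l 0) (n (n (l 251) (l 0)) (l 0))))) (n (n (n (n (n (l 21270086) (l 0)) (l 0)) (l 0)) (n (n (l 0) (n (l 150308) (l 0))) (l 0))) (n (n (l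 0) (n (n (l 235) (l 0)) (l 0))) (n (l 0) (n (n (l 258) (l 0)) (l 0))))))))

def r4 : Tr ℕ := (n (n (n (n (n (n (n (n (l 0) (l 325)) (l 0)) (n (n (l 206) (l 0)) (l 0))) (l 0)) (n (n (n (n (l 94) (l 0)) (l 0)) (n (n (l 115424) (l 0)) (l 0))) (n (n (n (l 162) (l 0)) (n (l 153384) (l 0))) (n (n (l 248) (l 0)) (l 0))))) (n (n (n (n (n (l 0) (l 169288)) (l 0)) (n (n (l 222) (l 0)) (n (l 160053) (l 0)))) (l 0)) (n (n (l 0) (n (n (l 231) (l 0)) (l 0))) (l 0)))) (n (n (n (n (n (n (l 37) (l 0)) (n (l 141074) (l 0))) (n (n (l 225) (l 0)) (n (l 160049) (l 0)))) (l 0)) (n (n (n (n (l 99) (l 0)) (n (l 279) (l 0))) (l 0)) (l 0))) (n (n (n (n (n (l 84) (l 330)) (n (l 282) (l 0))) (n (n (l 224) (l 0)) (l 0))) (n (n (l 0) (n (l 299) (l 0))) (l 0))) (n (n (n (n (l 121) (l 0)) (n (l 286) (l 0))) (l 0)) (n (n (n (l 191) (l 334)) (l 0))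 (n (l 0) (n (l 321) (l 0)))))))) (n (n (n (n (n (n (l 0) (n (l 276) (l 0))) (n (n (l 56206031) (l 0)) (n (l 158002) (l 0)))) (n (n (n (l 126) (l 332)) (l 0)) (l 0))) (n (n (n (n (l 100) (l 0)) (l 0)) (l 0)) (n (n (n (l 168) (l 0)) (l 0)) (l 0)))) (n (n (n (n (n (l 0) (l 330)) (n (l 281) (l 0))) (n (n (l 223) (l 0)) (n (l 81159985) (l 0)))) (n (n (n (l 152) (l 0)) (l 0)) (l 0))) (n (n (n (n (l 116) (l 0)) (l 0)) (n (n (l 234) (l 0)) (l 0))) (n (n (l 0) (n (l 303) (l 0))) (l 0))))) (n (n (n (n (l 0) (n (n (l 115935) (l 0)) (n (l 311) (l 0)))) (n (l 0) (n (n (l 242) (l 0)) (l 0)))) (n (l 0) (n (n (n (l 167) (l 0)) (l 0)) (l 0)))) (n (n (n (n (n (l 83) (l 0)) (n (l 144664) (l 0))) (n (n (l 114909) (l 0)) (l 0))) (n (n (n (l 151) (l 0)) (n (l 298) (l 0))) (n (n (l 128247) (l 0)) (n (l 316) (l 0))))) (n (n (n (n (l 122)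 (l 0)) (n (l 288) (l 0))) (l 0)) (n (n (n (l 109773) (l 334)) (l 0)) (n (l 0) (n (l 325) (l 0)))))))))

def r5 : Tr ℕ := (n (n (n (n (n (l 0) (n (n (n (l 151) (l 0)) (l 0)) (l 0))) (n (l 0) (n (l 0) (n (n (l 267) (l 0)) (n (l 322) (l 0)))))) (n (n (n (n (n (l 57) (l 0)) (l 0)) (l 0)) (n (l 0) (n (n (l 68027136) (l 0)) (l 0)))) (n (n (n (n (l 130) (l 0)) (l 0)) (l 0)) (l 0)))) (n (n (n (n (n (n (l 49) (l 0)) (l 0)) (l 0)) (n (n (n (l 83617) (l 0)) (l 0)) (l 0))) (n (l 0) (n (l 0) (n (n (l 141585) (l 0)) (n (l 323) (l 0)))))) (n (n (l 0) (n (l 0) (n (l 0) (n (l 319) (l 0))))) (n (n (n (n (l 39134856) (l 0)) (l 0)) (l 0)) (n (l 0) (n (n (l 287) (l 0)) (l 0))))))) (n (n (n (n (n (n (n (l 47) (l 0)) (l 0)) (l 0)) (l 0)) (n (l 0) (n (l 0) (n (n (l 72491791) (l 0)) (l 0))))) (n (n (l 0) (n (l 0) (n (n (l 133891) (l 0)) (l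 0)))) (n (n (n (n (l 131) (l 0)) (l 0)) (l 0)) (n (l 0) (n (l 0) (n (l 330) (l 0))))))) (n (n (n (n (n (n (l 55) (l 0)) (l 0)) (l 0)) (n (n (n (l 165) (l 0)) (l 0)) (n (n (l 254) (l 0)) (l 0)))) (n (l 0) (n (l 0) (n (n (l 276) (l 0)) (n (l 328) (l 0)))))) (n (l 0) (n (n (n (n (l 145) (l 0)) (l 0)) (l 0)) (l 0))))))

def r6 : Tr ℕ := (n (n (n (n (n (n (n (n (l 43) (l 0)) (l 0)) (n (n (l 254) (l 0)) (l 0))) (n (n (n (l 99008) (l 0)) (l 0)) (n (n (l 72755472) (l 0)) (l 0)))) (n (n (n (n (l 68227) (l 0)) (l 0)) (n (n (l 257) (l 0)) (n (l 322) (l 0)))) (n (n (n (l 0) (l 333)) (l 0)) (n (n (l 150307) (l 0)) (l 0))))) (n (n (n (n (n (l 44627) (l 0)) (l 0)) (n (n (l 257) (l 0)) (l 0))) (n (l 0) (n (l 0) (n (l 329) (l 0))))) (n (n (l 0) (n (l 0) (n (l 164673) (l 0)))) (n (n (n (l 0) (l 334)) (l 0)) (n (l 0) (n (l 332) (l 0)))))))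 (n (n (n (n (n (n (l 67) (l 0)) (l 0)) (n (n (l 257) (l 0)) (l 0))) (n (n (n (l 56992976) (l 0)) (l 0)) (n (n (l 145177) (l 0)) (n (l 324) (l 0))))) (n (n (n (n (l 39396493) (l 0)) (l 0)) (n (l 0) (n (l 321) (l 0)))) (n (l 0) (n (n (l 78796071) (l 0)) (l 0))))) (n (n (n (n (n (l 66175) (l 0)) (l 0)) (n (n (l 68289791) (l 0)) (l 0))) (l 0)) (n (n (n (n (l 181) (l 0)) (l 0)) (n (n (l 141074) (l 0)) (l 0))) (n (l 0) (n (n (l 310) (l 0)) (l 0))))))) (n (n (n (n (n (n (n (l 59) (l 0)) (l 0)) (n (n (l 254) (l 0)) (l 0))) (n (l 0) (n (l 0) (n (l 167236) (l 0))))) (n (n (n (n (l 76935) (l 0)) (l 0)) (l 0)) (n (n (n (l 0) (l 334)) (l 0)) (n (n (l 300) (l 0)) (l 0))))) (n (n (n (l 0) (n (l 0) (n (l 317) (l 0)))) (n (l 0) (n (l 0) (n (l 330) (l 0))))) (n (n (n (n (l 89774) (l 0)) (l 0)) (n (l 0) (n (l 322) (l 0)))) (n (l 0)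 (n (l 0) (n (l 331) (l 0))))))) (n (n (n (n (n (n (l 81) (l 0)) (l 0)) (n (n (l 132351) (l 0)) (n (l 317) (l 0)))) (n (n (n (l 29449888463) (l 0)) (l 0)) (n (l 0) (n (l 327) (l 0))))) (n (n (n (n (l 155) (l 0)) (l 0)) (n (n (l 263) (l 0)) (n (l 322) (l 0)))) (n (l 0) (n (n (l 153895) (l 0)) (n (l 332) (l 0)))))) (n (n (n (l 0) (n (n (l 68289791) (l 0)) (n (l 164673) (l 0)))) (l 0)) (n (n (n (n (l 187) (l 0)) (l 0)) (n (n (l 275) (l 0)) (l 0))) (l 0))))))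

def r7 : Tr ℕ := (n (n (n (n (n (n (n (n (l 45) (l 0)) (l 0)) (n (n (l 254) (l 0)) (l 0))) (n (n (n (l 191) (l 0)) (l 0)) (n (n (l 271) (l 0)) (l 0)))) (n (n (l 0) (n (n (l 259) (l 0)) (l 0))) (n (l 0) (n (n (l 293) (l 0)) (l 0))))) (n (n (n (n (n (l 43604) (l 0)) (l 0)) (n (n (l 259) (l 0)) (l 0))) (l 0)) (n (n (l 0) (n (l 0) (n (l 321) (l 0)))) (n (n (n (l 0) (l 333)) (l 0)) (l 0))))) (n (n (n (n (n (n (l 65) (l 0)) (l 0)) (n (n (l 68028161) (l 0)) (l 0))) (n (n (n (l 108237) (l 0)) (l 0)) (n (n (l 145176) (l 0)) (n (l 324) (l 0))))) (n (n (n (n (l 76433) (l 0)) (l 0)) (n (n (l 263) (l 0)) (l 0))) (n (l 0) (n (n (l 297) (l 0)) (l 0))))) (n (n (n (n (n (l 127) (l 0)) (l 0)) (n (n (l 133378) (l 0)) (l 0))) (l 0)) (n (n (n (n (l 97465) (l 0)) (l 0)) (n (n (l 272) (l 0)) (l 0))) (n (l 0) (n (n (l 310) (l 0)) (l 0)))))))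 (n (n (n (n (n (n (n (l 31803) (l 0)) (l 0)) (l 0)) (n (l 0) (n (l 0) (n (l 325) (l 0))))) (n (n (n (n (l 137) (l 0)) (l 0)) (n (l 0) (n (l 321) (l 0)))) (n (l 0) (n (n (l 295) (l 0)) (l 0))))) (n (n (n (l 0) (n (n (l 133891) (l 0)) (n (l 319) (l 0)))) (l 0)) (n (n (n (n (l 46751405) (l 0)) (l 0)) (l 0)) (n (l 0) (n (l 0) (n (l 331) (l 0))))))) (n (n (n (n (n (n (l 21533253) (l 0)) (l 0)) (n (n (l 133891) (l 0)) (n (l 163646) (l 0)))) (n (n (n (l 110286) (l 0)) (l 0)) (n (l 0) (n (l 327) (l 0))))) (n (n (n (n (l 78488) (l 0)) (l 0)) (n (n (l 263) (l 0)) (n (l 322) (l 0)))) (n (l 0) (n (n (l 295) (l 0)) (l 0))))) (n (n (n (n (n (l 66687) (l 0)) (l 0)) (n (n (l 68551935) (l 0)) (l 0))) (l 0)) (n (n (n (n (l 190) (l 0)) (l 0)) (n (n (l 140048) (l 0)) (l 0))) (l 0))))))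

def r8 : Tr ℕ := (n (n (n (n (n (l 0) (n (n (n (l 55156941) (l 0)) (l 0)) (l 0))) (l 0)) (n (n (n (n (n (l 49757) (l 0)) (l 0)) (l 0)) (n (n (n (l 233) (l 0)) (l 0)) (n (n (l 291) (l 0)) (l 0)))) (n (n (n (n (l 174) (l 0)) (l 0)) (l 0)) (n (l 0) (n (n (l 159025) (l 0)) (l 0)))))) (n (n (n (n (l 0) (n (n (l 265) (l 0)) (l 0))) (n (l 0) (n (n (l 287) (l 0)) (n (l 329) (l 0))))) (n (n (n (n (l 157) (l 0)) (l 0)) (n (n (l 272) (l 0)) (l 0))) (n (n (l 0) (n (l 317) (l 0))) (n (l 0) (n (l 332) (l 0)))))) (n (n (n (l 0) (n (n (l 266) (l 0)) (l 0))) (n (n (n (l 0) (l 334)) (l 0)) (n (n (l 153895) (l 0)) (l 0)))) (n (n (n (n (l 198) (l 0)) (l 0)) (l 0)) (n (n (l 0) (n (l 318) (l 0))) (l 0)))))) (n (n (n (n (n (n (n (l 63) (l 0)) (l 0)) (l 0)) (n (l 0) (n (n (l 285) (l 0)) (l 0)))) (n (n (l 0) (n (n (l 272) (l 0)) (l 0)))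 (l 0))) (n (n (n (l 0) (n (n (l 265) (l 0)) (l 0))) (n (l 0) (n (n (l 291) (l 0)) (l 0)))) (n (l 0) (n (n (n (l 254) (l 0)) (l 0)) (n (n (l 306) (l 0)) (l 0)))))) (n (n (n (n (n (n (l 90) (l 0)) (l 0)) (n (n (l 265) (l 0)) (l 0))) (l 0)) (n (n (n (n (l 161) (l 0)) (l 0)) (n (n (l 140047) (l 0)) (l 0))) (n (n (l 0) (n (l 317) (l 0))) (l 0)))) (n (n (n (n (n (l 131) (l 0)) (l 0)) (l 0)) (l 0)) (n (n (n (n (l 196) (l 0)) (l 0)) (n (l 0) (n (l 327) (l 0)))) (l 0))))))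

def r9 : Tr ℕ := (n (n (n (n (n (n (n (n (l 51) (l 0)) (l 0)) (n (n (l 265) (l 0)) (n (l 325) (l 0)))) (n (n (n (l 59621086) (l 0)) (l 0)) (n (n (l 148253) (l 0)) (l 0)))) (n (n (n (n (l 81565) (l 0)) (l 0)) (l 0)) (n (n (l 0) (n (l 317) (l 0))) (l 0)))) (n (n (n (n (n (l 51811) (l 0)) (l 0)) (l 0)) (n (n (n (l 0) (l 334)) (l 0)) (l 0))) (n (n (n (n (l 49903795) (l 0)) (l 0)) (l 0)) (l 0)))) (n (n (n (n (n (n (l 46682) (l 0)) (l 0)) (l 0)) (n (n (n (l 61723367) (l 0)) (l 0)) (l 0))) (n (n (l 0) (n (n (l 279) (l 0)) (n (l 328) (l 0)))) (n (l 0) (n (n (l 160567) (l 0)) (l 0))))) (n (n (n (n (n (l 38345355) (l 0)) (l 0)) (n (l 0) (n (l 328) (l 0)))) (l 0)) (n (n (l 0) (n (n (l 147742) (l 0)) (l 0))) (n (n (n (l 259) (l 0)) (l 0)) (l 0)))))) (n (n (n (n (n (n (n (l 71) (l 0)) (l 0)) (n (n (l 265) (l 0)) (l 0))) (l 0))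 (n (n (l 0) (n (l 0) (n (l 327) (l 0)))) (n (l 0) (n (n (l 158515) (l 0)) (l 0))))) (n (l 0) (n (n (n (n (l 104134) (l 0)) (l 0)) (n (l 0) (n (l 169288) (l 0)))) (n (n (n (l 132866) (l 0)) (l 0)) (l 0))))) (n (n (n (l 0) (n (n (n (l 120040) (l 334)) (l 0)) (n (n (l 150307) (l 0)) (l 0)))) (n (n (n (n (l 87719) (l 0)) (l 0)) (n (n (l 283) (l 0)) (n (l 169288) (l 0)))) (n (l 0) (n (n (l 41554437938) (l 0)) (l 0))))) (n (n (n (n (n (l 39133838) (l 0)) (l 0)) (n (l 0) (n (l 329) (l 0)))) (n (n (l 0) (n (l 162621) (l 0))) (l 0))) (l 0)))))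

def r10 : Tr ℕ := (n (n (n (n (n (n (n (n (l 53) (l 0)) (l 0)) (n (n (l 137994) (l 0)) (n (l 326) (l 0)))) (n (n (n (l 114909) (l 0)) (l 0)) (l 0))) (n (n (n (n (l 158) (l 0)) (l 0)) (l 0)) (n (n (l 0) (n (l 318) (l 0))) (n (l 0) (n (l 331) (l 0)))))) (n (n (n (n (n (l 100) (l 0)) (l 0)) (l 0)) (n (n (n (l 0) (l 333)) (l 0)) (l 0))) (n (n (n (n (l 96951) (l 0)) (l 0)) (n (l 0) (n (l 330) (l 0)))) (l 0)))) (n (n (n (n (n (n (l 89) (l 0)) (l 0)) (l 0)) (n (n (n (l 232) (l 0)) (l 0)) (l 0))) (n (n (l 0) (n (n (l 74330904) (l 0)) (n (l 327) (l 0)))) (l 0))) (n (n (n (n (n (l 75409) (l 0)) (l 0)) (n (l 0) (n (l 327) (l 0)))) (n (l 0) (n (n (l 301) (l 0)) (l 0)))) (n (n (l 0) (n (n (l 285) (l 0)) (l 0))) (l 0))))) (n (n (n (n (n (n (n (l 21272134) (l 0)) (l 0)) (n (n (l 136970) (l 0)) (l 0))) (l 0)) (n (n (l 0) (n (l 0)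 (n (l 169288) (l 0)))) (n (l 0) (n (n (l 308) (l 0)) (l 0))))) (n (l 0) (n (n (n (n (l 52267715) (l 0)) (l 0)) (n (l 0) (n (l 327) (l 0)))) (n (n (n (l 261) (l 0)) (l 0)) (l 0))))) (n (n (n (l 0) (n (n (n (l 231) (l 333)) (l 0)) (n (n (l 292) (l 0)) (l 0)))) (n (n (n (n (l 86696) (l 0)) (l 0)) (n (n (l 74330904) (l 0)) (n (l 329) (l 0)))) (n (l 0) (n (n (l 160564) (l 0)) (l 0))))) (n (n (n (n (n (l 10327555119753) (l 0)) (l 0)) (l 0)) (n (n (l 0) (n (l 83787070) (l 0))) (l 0))) (n (n (l 0) (n (n (l 289) (l 0)) (l 0))) (l 0))))))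

def r11 : Tr ℕ := (n (n (n (n (n (n (l 0) (n (n (l 141584) (l 0)) (l 0))) (l 0)) (n (n (n (n (l 162) (l 0)) (l 0)) (l 0)) (n (l 0) (n (n (l 159537) (l 0)) (l 0))))) (n (l 0) (n (n (n (n (l 192) (l 0)) (l 0)) (n (n (l 285) (l 0)) (l 0))) (n (n (l 0) (n (l 326) (l 0))) (l 0))))) (n (n (n (n (n (n (l 48734) (l 0)) (l 0)) (n (n (l 282) (l 0)) (n (l 327) (l 0)))) (n (n (n (l 0) (l 334)) (l 0)) (l 0))) (n (n (n (n (l 167) (l 0)) (l 0)) (l 0)) (l 0))) (n (n (n (l 0) (n (n (l 281) (l 0)) (l 0))) (n (l 0) (n (l 0) (n (l 332) (l 0))))) (n (n (n (n (l 223) (l 0)) (l 0)) (l 0)) (n (n (l 0) (n (l 326) (l 0))) (l 0)))))) (n (n (n (n (n (n (n (l 83) (l 0)) (l 0)) (n (n (l 274) (l 0)) (l 0))) (n (n (n (l 234) (l 0)) (l 0)) (l 0))) (n (l 0) (n (n (l 0) (n (l 326) (l 0))) (l 0)))) (n (n (n (l 0) (n (n (l 279) (l 0)) (n (l 330) (l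 0)))) (l 0)) (n (n (n (n (l 109775) (l 0)) (l 0)) (n (n (l 288) (l 0)) (l 0))) (l 0)))) (n (n (n (n (n (n (l 99) (l 0)) (l 0)) (n (n (l 279) (l 0)) (n (l 330) (l 0)))) (n (l 0) (n (n (l 298) (l 0)) (l 0)))) (l 0)) (n (n (n (n (n (l 151) (l 0)) (l 0)) (l 0)) (n (n (l 0) (n (l 322) (l 0))) (n (n (l 158514) (l 0)) (l 0)))) (n (n (n (n (l 222) (l 0)) (l 0)) (l 0)) (n (n (n (l 271) (l 0)) (l 0)) (l 0)))))))

def r12 : Tr ℕ := (n (n (n (n (n (n (n (n (l 61) (l 0)) (l 0)) (l 0)) (n (n (l 0) (n (l 321) (l 0))) (n (n (l 295) (l 0)) (l 0)))) (n (n (n (n (l 177) (l 0)) (l 0)) (l 0)) (n (n (n (l 253) (l 0)) (l 0)) (l 0)))) (n (n (n (n (n (l 109) (l 0)) (l 0)) (l 0)) (n (n (l 0) (n (l 324) (l 0))) (n (l 0) (n (l 332) (l 0))))) (l 0))) (n (n (n (n (n (n (l 103) (l 0)) (l 0)) (l 0)) (n (n (n (l 241) (l 0)) (l 0)) (n (n (l 303) (l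 0)) (l 0)))) (n (n (n (n (l 97467) (l 0)) (l 0)) (l 0)) (n (n (n (l 255) (l 0)) (l 0)) (l 0)))) (n (l 0) (n (n (n (n (l 0) (l 333)) (l 0)) (n (n (l 153384) (l 0)) (l 0))) (n (l 0) (n (n (l 315) (l 0)) (l 0))))))) (n (n (n (l 0) (n (n (n (n (l 189) (l 0)) (l 0)) (l 0)) (n (n (n (l 260) (l 0)) (l 0)) (l 0)))) (n (n (n (n (n (l 129) (l 0)) (l 0)) (l 0)) (n (l 0) (n (l 0) (n (l 331) (l 0))))) (l 0))) (n (n (n (l 0) (n (n (n (l 243) (l 0)) (l 0)) (n (l 0) (n (l 331) (l 0))))) (n (n (n (n (l 193) (l 0)) (l 0)) (l 0)) (l 0))) (n (l 0) (n (n (n (l 0) (n (l 318) (l 0))) (n (n (l 153384) (l 0)) (l 0))) (l 0))))))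

def r13 : Tr ℕ := (n (n (n (n (n (n (n (n (l 64) (l 0)) (l 0)) (l 0)) (n (n (n (l 241) (l 0)) (l 0)) (n (l 0) (n (l 331) (l 0))))) (n (n (l 0) (n (n (l 291) (l 0)) (l 0))) (l 0))) (n (n (n (n (n (l 119) (l 0)) (l 0)) (n (n (l 291) (l 0)) (l 0))) (n (n (n (l 249) (l 0)) (n (l 329) (l 0))) (l 0))) (n (n (n (n (l 0) (l 334)) (n (l 164673) (l 0))) (l 0)) (n (n (n (l 275) (l 0)) (l 0)) (l 0))))) (n (n (n (n (l 0) (n (n (l 291) (l 0)) (l 0))) (n (l 0) (n (n (l 160054) (l 0)) (l 0)))) (n (n (n (n (l 202) (l 0)) (l 0)) (n (n (l 78533416) (l 0)) (l 0))) (l 0))) (n (n (n (n (n (l 173) (l 0)) (n (l 317) (l 0))) (n (n (l 292) (l 0)) (l 0))) (n (n (n (l 253) (l 0)) (l 0)) (l 0))) (l 0)))) (n (n (n (n (l 0) (n (l 0) (n (n (l 308) (l 0)) (l 0)))) (n (n (n (n (l 197) (l 0)) (n (l 318) (l 0))) (n (n (l 299) (l 0)) (l 0))) (n (n (n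 (l 266) (l 0)) (l 0)) (l 0)))) (n (n (n (n (n (l 132) (l 0)) (n (l 318) (l 0))) (l 0)) (n (n (n (l 253) (l 0)) (n (l 329) (l 0))) (l 0))) (n (n (n (n (l 0) (l 170829)) (n (l 321) (l 0))) (l 0)) (n (l 0) (n (n (l 315) (l 0)) (l 0)))))) (n (n (n (n (n (n (l 112) (l 0)) (n (l 318) (l 0))) (l 0)) (n (n (l 0) (n (l 327) (l 0))) (l 0))) (n (n (n (n (l 213) (l 333)) (n (l 321) (l 0))) (n (n (l 297) (l 0)) (l 0))) (l 0))) (n (n (n (l 0) (n (n (l 292) (l 0)) (l 0))) (l 0)) (n (n (l 0) (n (l 0) (n (l 331) (l 0)))) (l 0))))))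

def r14 : Tr ℕ := (n (n (n (n (n (n (n (n (l 79) (l 0)) (l 0)) (n (n (l 293) (l 0)) (l 0))) (n (n (n (l 245) (l 0)) (n (l 327) (l 0))) (n (n (l 313) (l 0)) (l 0)))) (n (n (n (n (l 102085) (l 333)) (l 0)) (l 0)) (n (n (n (l 136970) (l 0)) (l 0)) (l 0)))) (n (n (n (n (n (l 123) (l 0)) (l 0)) (l 0)) (l 0)) (n (n (n (l 0) (n (l 325) (l 0))) (l 0)) (n (n (n (l 74330392) (l 0)) (l 0)) (l 0))))) (n (n (n (n (n (n (l 113) (l 0)) (n (l 318) (l 0))) (l 0)) (n (n (n (l 247) (l 0)) (l 0)) (l 0))) (n (n (n (n (l 0) (l 333)) (l 0)) (l 0)) (n (l 0) (n (n (l 316) (l 0)) (l 0))))) (n (n (n (n (n (l 49638068) (l 0)) (l 0)) (l 0)) (n (n (n (l 133378) (l 0)) (l 0)) (l 0))) (n (n (l 0) (n (n (l 305) (l 0)) (l 0))) (l 0))))) (n (n (n (n (n (n (n (l 105) (l 0)) (l 0)) (n (n (l 292) (l 0)) (l 0))) (n (n (l 0) (n (l 328) (l 0))) (l 0)))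 (n (l 0) (n (l 0) (n (n (l 316) (l 0)) (l 0))))) (n (n (n (n (n (l 76947) (l 0)) (l 0)) (l 0)) (n (n (n (l 260) (l 0)) (l 0)) (l 0))) (n (n (n (n (l 239) (l 0)) (l 0)) (n (l 0) (n (l 331) (l 0)))) (l 0)))) (n (n (n (l 0) (n (n (n (l 65925880) (l 0)) (l 0)) (l 0))) (n (n (n (n (l 60146400) (l 0)) (l 0)) (n (l 0) (n (l 331) (l 0)))) (n (l 0) (n (n (l 316) (l 0)) (l 0))))) (n (n (n (n (n (l 96437) (l 0)) (l 0)) (n (l 0) (n (l 332) (l 0)))) (l 0)) (l 0)))))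

def r15 : Tr ℕ := (n (n (n (n (n (n (n (n (l 21535301) (l 0)) (l 0)) (n (n (l 293) (l 0)) (l 0))) (n (n (l 0) (n (l 328) (l 0))) (l 0))) (n (n (n (n (l 103110) (l 334)) (l 0)) (l 0)) (n (n (n (l 138505) (l 0)) (l 0)) (l 0)))) (n (n (n (n (n (l 121) (l 0)) (l 0)) (l 0)) (l 0)) (n (n (n (l 0) (n (l 167236) (l 0))) (n (l 0) (n (l 332) (l 0)))) (n (n (n (l 279) (l 0)) (l 0)) (l 0))))) (n (n (n (n (n (n (l 111) (l 0)) (n (l 317) (l 0))) (l 0)) (n (n (n (l 127736) (l 0)) (n (l 169287) (l 0))) (l 0))) (n (n (n (n (l 0) (l 334)) (l 0)) (l 0)) (l 0))) (n (n (n (n (n (l 49901749) (l 0)) (l 0)) (l 0)) (n (n (n (l 132351) (l 0)) (l 0)) (l 0))) (n (n (l 0) (n (n (l 158514) (l 0)) (l 0))) (l 0))))) (n (n (n (n (n (n (n (l 107) (l 0)) (l 0)) (n (n (l 293) (l 0)) (l 0))) (n (n (l 0) (n (l 327) (l 0))) (l 0))) (l 0)) (n (n (n (n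 (n (l 20036525710) (l 0)) (l 0)) (l 0)) (n (n (n (l 132351) (l 0)) (l 0)) (l 0))) (n (n (n (n (l 237) (l 0)) (n (l 324) (l 0))) (n (l 0) (n (l 331) (l 0)))) (l 0)))) (n (n (n (l 0) (n (n (n (l 128247) (l 0)) (l 0)) (l 0))) (n (n (n (n (l 116447) (l 0)) (l 0)) (n (n (l 155950) (l 0)) (n (l 331) (l 0)))) (n (l 0) (n (n (l 316) (l 0)) (l 0))))) (n (n (n (n (n (l 179) (l 0)) (l 0)) (l 0)) (l 0)) (n (n (l 0) (n (n (l 160567) (l 0)) (l 0))) (l 0))))))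

def r16 : Tr ℕ := (n (n (n (n (n (n (n (n (l 84) (l 0)) (l 0)) (n (n (l 152871) (l 0)) (l 0))) (l 0)) (n (n (n (n (l 107214) (l 0)) (l 0)) (n (n (l 303) (l 0)) (l 0))) (n (n (n (l 271) (l 0)) (l 0)) (n (n (l 316) (l 0)) (l 0))))) (n (n (n (n (n (l 0) (l 334)) (n (l 325) (l 0))) (n (n (l 303) (l 0)) (n (l 331) (l 0)))) (l 0)) (n (n (l 0) (n (n (l 308) (l 0)) (l 0))) (l 0)))) (n (n (n (n (n (n (l 60020) (l 0)) (n (l 321) (l 0))) (n (n (l 303) (l 0)) (n (l 331) (l 0)))) (l 0)) (n (n (n (n (l 225) (l 0)) (l 0)) (l 0)) (n (n (n (l 144664) (l 0)) (l 0)) (l 0)))) (n (n (n (n (n (l 191) (l 334)) (n (l 325) (l 0))) (l 0)) (l 0)) (n (n (n (l 0) (n (l 328) (l 0))) (l 0)) (l 0))))) (n (n (n (n (n (n (l 0) (n (l 322) (l 0))) (n (n (l 296) (l 0)) (l 0))) (n (n (n (l 250) (l 0)) (l 0)) (l 0))) (n (n (n (n (l 224) (l 0)) (l 0))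 (l 0)) (n (n (n (l 280) (l 0)) (l 0)) (l 0)))) (n (n (n (n (n (l 152) (l 0)) (l 0)) (l 0)) (l 0)) (n (n (n (n (l 242) (l 0)) (l 0)) (n (n (l 309) (l 0)) (l 0))) (l 0)))) (n (n (n (n (n (n (l 122) (l 0)) (l 0)) (l 0)) (l 0)) (l 0)) (n (n (n (n (l 0) (n (l 325) (l 0))) (l 0)) (l 0)) (n (l 0) (n (n (n (l 300) (l 0)) (l 0)) (l 0)))))))

def r17 : Tr ℕ := (n (n (n (n (n (n (n (n (l 89) (l 0)) (l 0)) (l 0)) (l 0)) (l 0)) (l 0)) (n (l 0) (n (n (n (n (n (l 195) (l 0)) (l 0)) (l 0)) (n (n (n (l 266) (l 0)) (l 0)) (l 0))) (l 0)))) (n (n (n (n (n (n (n (l 111) (l 0)) (l 0)) (l 0)) (l 0)) (l 0)) (n (n (n (n (n (l 158) (l 0)) (l 0)) (l 0)) (l 0)) (n (l 0) (n (n (n (l 292) (l 0)) (l 0)) (l 0))))) (n (l 0) (n (n (n (n (n (l 201) (l 0)) (l 0)) (l 0)) (l 0)) (n (l 0) (n (l 0) (n (n (l 318) (l 0)) (l 0))))))))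

def r18 : Tr ℕ := (n (n (n (n (n (n (n (n (l 94) (l 333)) (n (l 321) (l 0))) (l 0)) (l 0)) (n (n (l 0) (n (n (l 159028) (l 0)) (l 0))) (l 0))) (n (n (l 0) (n (l 0) (n (n (l 316) (l 0)) (l 0)))) (n (n (n (n (l 242) (l 0)) (l 0)) (l 0)) (n (n (l 0) (n (l 332) (l 0))) (l 0))))) (n (n (l 0) (n (n (n (l 0) (n (l 169288) (l 0))) (l 0)) (l 0))) (n (n (n (n (n (l 54894286) (l 0)) (l 0)) (l 0)) (n (n (n (l 276) (l 0)) (l 0)) (l 0))) (n (n (n (n (l 248) (l 0)) (l 0)) (l 0)) (n (n (n (l 153384) (l 0)) (l 0)) (l 0)))))) (n (n (n (n (n (n (n (l 116) (l 334)) (l 0)) (l 0)) (l 0)) (n (n (n (n (l 120040) (l 0)) (n (l 330) (l 0))) (l 0)) (n (n (n (l 147742) (l 0)) (n (l 332) (l 0))) (l 0)))) (n (n (n (n (n (l 162) (l 0)) (n (l 169288) (l 0))) (n (n (l 311) (l 0)) (l 0))) (n (n (n (l 141074) (l 0)) (l 0)) (l 0))) (n (l 0) (n (n (n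 (l 298) (l 0)) (l 0)) (l 0))))) (n (n (n (n (n (l 0) (n (l 169288) (l 0))) (n (n (l 81685299) (l 0)) (l 0))) (l 0)) (l 0)) (n (n (n (n (n (l 214) (l 0)) (n (l 329) (l 0))) (n (n (l 305) (l 0)) (l 0))) (n (n (n (l 276) (l 0)) (l 0)) (l 0))) (n (l 0) (n (l 0) (n (n (l 322) (l 0)) (l 0))))))))

def r19 : Tr ℕ := (n (n (n (n (n (n (n (n (l 93) (l 0)) (l 0)) (l 0)) (l 0)) (n (n (l 0) (n (n (l 81947443) (l 0)) (l 0))) (l 0))) (n (n (l 0) (n (l 0) (n (n (l 315) (l 0)) (l 0)))) (n (n (n (n (l 241) (l 0)) (l 0)) (l 0)) (n (n (l 0) (n (l 331) (l 0))) (l 0))))) (n (n (l 0) (n (n (n (l 0) (n (l 327) (l 0))) (l 0)) (l 0))) (n (n (n (n (n (l 109264) (l 0)) (l 0)) (n (n (l 312) (l 0)) (l 0))) (n (n (n (l 275) (l 0)) (l 0)) (l 0))) (n (n (n (n (l 249) (l 0)) (l 0)) (l 0)) (n (n (n (l 297) (l 0)) (n (l 331) (l 0))) (l 0)))))) (n (n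 (n (n (n (n (n (l 115) (l 0)) (l 0)) (l 0)) (l 0)) (n (n (n (n (l 233) (l 0)) (n (l 329) (l 0))) (l 0)) (n (n (n (l 287) (l 0)) (n (l 331) (l 0))) (l 0)))) (n (n (n (n (n (l 161) (l 0)) (l 0)) (l 0)) (n (n (n (l 140047) (l 0)) (l 0)) (l 0))) (n (l 0) (n (n (n (l 297) (l 0)) (n (l 331) (l 0))) (l 0))))) (n (n (n (n (n (n (l 125) (l 0)) (n (l 168775) (l 0))) (n (n (l 41823137076) (l 0)) (l 0))) (l 0)) (n (l 0) (n (n (l 0) (n (l 332) (l 0))) (l 0)))) (n (n (n (n (n (l 107725) (l 0)) (l 0)) (n (n (l 160051) (l 0)) (l 0))) (n (n (n (l 272) (l 0)) (l 0)) (l 0))) (n (l 0) (n (l 0) (n (n (l 321) (l 0)) (n (l 333) (l 0)))))))))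

def r20 : Tr ℕ := (n (n (n (n (n (n (n (n (l 100) (l 0)) (l 0)) (l 0)) (l 0)) (l 0)) (l 0)) (n (l 0) (n (n (n (n (n (l 221) (l 0)) (l 0)) (l 0)) (n (n (n (l 281) (l 0)) (l 0)) (l 0))) (l 0)))) (n (n (n (n (n (n (n (l 121) (l 0)) (l 0)) (l 0)) (l 0)) (l 0)) (n (n (n (n (n (l 168) (l 0)) (l 0)) (l 0)) (l 0)) (n (l 0) (n (n (n (l 304) (l 0)) (l 0)) (l 0))))) (n (l 0) (n (n (n (n (n (l 226) (l 0)) (l 0)) (l 0)) (l 0)) (n (l 0) (n (l 0) (n (n (l 326) (l 0)) (l 0))))))))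

def r21 : Tr ℕ := (n (n (n (n (l 0) (n (l 0) (n (l 0) (n (n (l 317) (l 0)) (l 0))))) (n (n (n (n (n (l 155) (l 0)) (l 0)) (l 0)) (l 0)) (l 0))) (n (n (n (n (n (n (l 68227) (l 0)) (l 0)) (l 0)) (n (n (n (l 273) (l 0)) (l 0)) (l 0))) (n (l 0) (n (l 0) (n (n (l 322) (l 0)) (l 0))))) (n (l 0) (n (l 0) (n (l 0) (n (n (l 329) (l 0)) (l 0))))))) (n (n (n (l 0) (n (l 0) (n (l 0) (n (n (l 322) (l 0)) (l 0))))) (n (l 0) (n (n (n (n (l 254) (l 0)) (l 0)) (l 0)) (n (l 0) (n (l 0) (n (l 334) (l 0))))))) (n (n (n (n (n (n (l 150) (l 0)) (l 0)) (l 0)) (n (n (n (l 72754448) (l 0)) (l 0)) (l 0))) (n (l 0) (n (l 0) (n (n (l 322) (l 0)) (n (l 334) (l 0)))))) (n (l 0) (n (n (n (n (l 260) (l 0)) (l 0)) (l 0)) (l 0))))))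

def r22 : Tr ℕ := (n (n (n (n (n (l 0) (n (n (n (l 263) (l 0)) (l 0)) (l 0))) (n (l 0) (n (l 0) (n (n (l 319) (l 0)) (l 0))))) (n (n (n (n (n (l 153) (l 0)) (l 0)) (l 0)) (l 0)) (l 0))) (n (n (n (n (n (n (l 131) (l 0)) (l 0)) (l 0)) (n (n (n (l 140048) (l 0)) (l 0)) (l 0))) (l 0)) (n (l 0) (n (n (n (n (l 133891) (l 0)) (l 0)) (l 0)) (l 0))))) (n (n (n (n (n (n (n (l 66687) (l 0)) (l 0)) (l 0)) (l 0)) (n (l 0) (n (l 0) (n (n (l 322) (l 0)) (l 0))))) (n (l 0) (n (n (n (n (l 130302) (l 0)) (l 0)) (l 0)) (l 0)))) (n (n (n (n (n (n (l 141) (l 0)) (l 0)) (l 0)) (n (n (n (l 276) (l 0)) (l 0)) (l 0))) (n (l 0) (n (l 0) (n (n (l 165186) (l 0)) (l 0))))) (n (l 0) (n (n (n (n (l 132865) (l 0)) (l 0)) (l 0)) (l 0))))))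

def r23 : Tr ℕ := (n (n (n (n (l 0) (n (l 0) (n (l 0) (n (n (l 163646) (l 0)) (l 0))))) (l 0)) (n (l 0) (n (l 0) (n (n (n (n (l 133891) (l 0)) (l 0)) (l 0)) (l 0))))) (n (n (n (n (n (n (n (l 130) (l 0)) (l 0)) (l 0)) (l 0)) (l 0)) (n (l 0) (n (l 0) (n (l 0) (n (l 0) (n (l 333) (l 0))))))) (n (n (n (n (n (n (l 76433) (l 0)) (l 0)) (l 0)) (l 0)) (l 0)) (n (l 0) (n (n (n (n (l 259) (l 0)) (l 0)) (l 0)) (l 0))))))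

def r24 : Tr ℕ := (n (n (n (n (n (l 0) (n (n (n (l 141585) (l 0)) (l 0)) (l 0))) (l 0)) (n (n (n (n (n (l 84641) (l 0)) (l 0)) (l 0)) (n (n (n (l 287) (l 0)) (l 0)) (n (n (l 317) (l 0)) (l 0)))) (n (n (n (n (l 254) (l 0)) (l 0)) (l 0)) (n (l 0) (n (n (l 327) (l 0)) (l 0)))))) (n (n (l 0) (n (l 0) (n (l 0) (n (l 0) (n (l 334) (l 0)))))) (n (n (l 0) (n (l 0) (n (n (l 322) (l 0)) (l 0)))) (n (n (n (n (l 265) (l 0)) (l 0)) (l 0)) (l 0))))) (n (n (n (n (n (n (n (l 131) (l 0)) (l 0)) (l 0)) (l 0)) (l 0)) (n (n (l 0) (n (l 0) (n (n (l 317) (l 0)) (l 0)))) (n (l 0) (n (l 0) (n (n (l 328) (l 0)) (l 0)))))) (n (n (n (n (n (n (l 157) (l 0)) (l 0)) (l 0)) (l 0)) (l 0)) (l 0))))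

def r25 : Tr ℕ := (n (n (n (n (n (l 0) (n (n (n (l 279) (l 0)) (l 0)) (l 0))) (n (l 0) (n (l 0) (n (l 0) (n (l 334) (l 0)))))) (n (n (n (n (n (l 87719) (l 0)) (l 0)) (l 0)) (l 0)) (n (n (n (n (l 259) (l 0)) (l 0)) (l 0)) (l 0)))) (n (n (n (n (n (n (l 81565) (l 0)) (l 0)) (l 0)) (n (n (n (l 147229) (l 0)) (l 0)) (l 0))) (n (l 0) (n (l 0) (n (n (l 330) (l 0)) (l 0))))) (l 0))) (n (n (n (n (n (n (n (l 149) (l 0)) (l 0)) (l 0)) (l 0)) (n (l 0) (n (l 0) (n (n (l 169288) (l 0)) (l 0))))) (n (l 0) (n (n (n (n (l 265) (l 0)) (l 0)) (l 0)) (l 0)))) (n (n (n (l 0) (n (n (n (l 148256) (l 0)) (l 0)) (n (n (l 317) (l 0)) (l 0)))) (n (l 0) (n (l 0) (n (n (l 169288) (l 0)) (l 0))))) (l 0))))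

def r26 : Tr ℕ := (n (n (n (n (n (l 0) (n (n (n (l 145177) (l 0)) (l 0)) (l 0))) (l 0)) (n (n (n (n (n (l 169) (l 0)) (l 0)) (l 0)) (l 0)) (n (n (n (n (l 133890) (l 0)) (l 0)) (l 0)) (l 0)))) (n (n (n (l 0) (n (n (n (l 289) (l 0)) (l 0)) (l 0))) (n (l 0) (n (l 0) (n (n (l 330) (l 0)) (l 0))))) (l 0))) (n (n (n (n (n (n (n (l 73865) (l 0)) (l 0)) (l 0)) (l 0)) (l 0)) (n (l 0) (n (n (n (n (l 269) (l 0)) (l 0)) (l 0)) (l 0)))) (n (n (n (l 0) (n (l 0) (n (n (l 319) (l 0)) (l 0)))) (n (l 0) (n (l 0) (n (n (l 328) (l 0)) (l 0))))) (l 0))))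

def r27 : Tr ℕ := (n (n (n (n (n (l 0) (n (n (n (l 280) (l 0)) (l 0)) (l 0))) (n (l 0) (n (l 0) (n (l 0) (n (l 333) (l 0)))))) (n (n (n (n (n (l 168) (l 0)) (l 0)) (l 0)) (l 0)) (n (n (n (n (l 131840) (l 0)) (l 0)) (l 0)) (l 0)))) (n (n (n (n (n (n (l 158) (l 0)) (l 0)) (l 0)) (n (n (n (l 286) (l 0)) (l 0)) (l 0))) (l 0)) (n (n (l 0) (n (l 0) (n (n (l 323) (l 0)) (l 0)))) (l 0)))) (n (n (n (n (n (n (n (l 75400) (l 0)) (l 0)) (l 0)) (l 0)) (n (l 0) (n (l 0) (n (n (l 327) (l 0)) (l 0))))) (n (l 0) (n (n (n (n (l 136970) (l 0)) (l 0)) (l 0)) (l 0)))) (n (n (n (l 0) (n (n (n (l 285) (l 0)) (l 0)) (n (n (l 318) (l 0)) (l 0)))) (n (l 0) (n (l 0) (n (n (l 327) (l 0)) (l 0))))) (l 0))))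

def r28 : Tr ℕ := (n (n (n (n (l 0) (n (l 0) (n (l 0) (n (n (l 169287) (l 0)) (l 0))))) (l 0)) (n (n (n (n (n (n (l 163) (l 0)) (l 0)) (l 0)) (l 0)) (l 0)) (n (n (l 0) (n (l 0) (n (l 0) (n (l 334) (l 0))))) (n (n (n (n (l 279) (l 0)) (l 0)) (l 0)) (l 0))))) (n (n (n (n (n (n (n (l 151) (l 0)) (l 0)) (l 0)) (n (n (n (l 288) (l 0)) (l 0)) (l 0))) (l 0)) (n (l 0) (n (n (n (n (l 140560) (l 0)) (l 0)) (l 0)) (l 0)))) (n (n (n (n (n (n (l 167) (l 0)) (l 0)) (l 0)) (l 0)) (l 0)) (n (n (l 0) (n (l 0) (n (n (l 328) (l 0)) (l 0)))) (l 0)))))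

def r29 : Tr ℕ := (n (n (n (n (n (n (n (n (l 66175) (l 0)) (l 0)) (l 0)) (n (l 0) (n (n (l 322) (l 0)) (l 0)))) (l 0)) (n (n (n (n (n (l 193) (l 0)) (l 0)) (l 0)) (l 0)) (l 0))) (n (n (n (n (n (n (l 175) (l 0)) (l 0)) (l 0)) (n (l 0) (n (n (l 324) (l 0)) (l 0)))) (n (n (n (n (l 132865) (l 0)) (l 0)) (l 0)) (l 0))) (n (l 0) (n (n (l 0) (n (n (l 321) (l 0)) (l 0))) (n (l 0) (n (n (l 332) (l 0)) (l 0))))))) (n (n (n (l 0) (n (n (n (n (l 68289791) (l 0)) (l 0)) (l 0)) (l 0))) (l 0)) (n (n (n (n (n (n (l 97467) (l 0)) (l 0)) (l 0)) (n (n (n (l 295) (l 0)) (l 0)) (n (l 0) (n (l 333) (l 0))))) (n (n (n (n (l 263) (l 0)) (l 0)) (l 0)) (l 0))) (n (l 0) (n (n (l 0) (n (n (l 164673) (l 0)) (l 0))) (l 0))))))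

def r30 : Tr ℕ := (n (n (n (n (n (n (n (n (l 129) (l 0)) (l 0)) (l 0)) (n (l 0) (n (n (l 322) (l 0)) (l 0)))) (l 0)) (n (n (n (n (n (l 99008) (l 0)) (l 0)) (l 0)) (l 0)) (l 0))) (n (n (n (n (n (n (l 90798) (l 0)) (l 0)) (l 0)) (n (n (n (l 152871) (l 0)) (l 0)) (n (n (l 167236) (l 0)) (l 0)))) (n (n (n (n (l 257) (l 0)) (l 0)) (l 0)) (l 0))) (n (l 0) (n (n (l 0) (n (n (l 321) (l 0)) (l 0))) (n (l 0) (n (n (l 332) (l 0)) (l 0))))))) (n (n (n (l 0) (n (n (n (n (l 68289791) (l 0)) (l 0)) (l 0)) (l 0))) (n (n (l 0) (n (l 0) (n (l 0) (n (l 334) (l 0))))) (l 0))) (n (n (n (n (n (n (l 187) (l 0)) (l 0)) (l 0)) (n (l 0) (n (l 0) (n (l 333) (l 0))))) (l 0)) (n (l 0) (n (n (l 0) (n (n (l 321) (l 0)) (l 0))) (l 0))))))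

def r31 : Tr ℕ := (n (n (n (n (n (n (n (n (l 131) (l 0)) (l 0)) (l 0)) (l 0)) (n (n (l 0) (n (n (l 317) (l 0)) (l 0))) (l 0))) (n (n (n (l 0) (n (n (l 317) (l 0)) (l 0))) (l 0)) (l 0))) (n (n (n (n (l 0) (n (n (l 317) (l 0)) (l 0))) (l 0)) (n (n (n (n (l 265) (l 0)) (l 0)) (l 0)) (l 0))) (n (n (n (n (n (l 254) (l 0)) (l 0)) (l 0)) (l 0)) (n (n (n (n (l 291) (l 0)) (l 0)) (l 0)) (l 0))))) (n (n (n (n (n (n (n (l 174) (l 0)) (l 0)) (l 0)) (l 0)) (l 0)) (n (n (n (l 0) (n (n (l 317) (l 0)) (l 0))) (l 0)) (l 0))) (n (n (n (n (n (n (l 52792516) (l 0)) (l 0)) (l 0)) (l 0)) (l 0)) (n (n (n (n (n (l 254) (l 0)) (l 0)) (n (n (l 317) (l 0)) (l 0))) (l 0)) (l 0)))))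

def r32 : Tr ℕ := (n (n (n (n (n (n (n (n (l 132) (l 0)) (l 0)) (l 0)) (n (n (n (l 297) (l 0)) (l 0)) (l 0))) (l 0)) (n (n (n (n (n (l 215) (l 0)) (l 0)) (l 0)) (n (n (n (l 310) (l 0)) (l 0)) (l 0))) (l 0))) (n (n (n (n (l 0) (n (n (l 317) (l 0)) (l 0))) (n (l 0) (n (n (l 329) (l 0)) (n (l 333) (l 0))))) (n (n (l 0) (n (n (l 321) (l 0)) (l 0))) (l 0))) (n (n (n (n (n (l 253) (l 0)) (l 0)) (n (n (l 318) (l 0)) (l 0))) (l 0)) (l 0)))) (n (n (n (n (l 0) (n (l 0) (n (n (l 327) (l 0)) (n (l 333) (l 0))))) (l 0)) (l 0)) (n (n (n (n (n (n (l 202) (l 0)) (l 0)) (n (n (l 317) (l 0)) (l 0))) (l 0)) (n (n (n (n (l 275) (l 0)) (l 0)) (n (n (l 321) (l 0)) (l 0))) (l 0))) (n (n (n (l 0) (n (n (l 318) (l 0)) (l 0))) (l 0)) (n (n (n (n (l 291) (l 0)) (l 0)) (l 0)) (l 0))))))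

def r33 : Tr ℕ := (n (n (n (n (n (l 0) (n (n (n (l 153895) (l 0)) (l 0)) (l 0))) (n (n (l 0) (n (n (l 317) (l 0)) (l 0))) (l 0))) (n (n (n (n (n (l 219) (l 0)) (l 0)) (n (n (l 317) (l 0)) (l 0))) (n (n (n (l 310) (l 0)) (l 0)) (l 0))) (l 0))) (n (n (n (n (l 0) (n (n (l 317) (l 0)) (l 0))) (n (l 0) (n (n (l 329) (l 0)) (n (l 333) (l 0))))) (n (n (n (n (l 265) (l 0)) (l 0)) (n (n (l 321) (l 0)) (l 0))) (l 0))) (n (n (n (l 0) (n (n (l 318) (l 0)) (l 0))) (l 0)) (n (n (n (n (l 291) (l 0)) (l 0)) (l 0)) (l 0))))) (n (n (n (n (n (n (n (l 174) (l 0)) (l 0)) (l 0)) (n (l 0) (n (n (l 327) (l 0)) (l 0)))) (n (n (n (n (l 266) (l 0)) (l 0)) (n (n (l 321) (l 0)) (l 0))) (l 0))) (n (n (n (l 0) (n (n (l 317) (l 0)) (l 0))) (l 0)) (n (l 0) (n (l 0) (n (n (l 332) (l 0)) (l 0)))))) (n (n (n (n (n (n (l 196) (l 0)) (l 0)) (l 0)) (l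 0)) (n (n (n (n (l 275) (l 0)) (l 0)) (l 0)) (l 0))) (n (n (n (n (n (l 254) (l 0)) (l 0)) (l 0)) (l 0)) (n (n (l 0) (n (l 0) (n (l 333) (l 0)))) (l 0))))))

def r34 : Tr ℕ := (n (n (n (n (n (n (n (n (l 135) (l 0)) (l 0)) (l 0)) (n (n (n (l 304) (l 0)) (l 0)) (l 0))) (l 0)) (n (n (n (n (n (l 226) (l 0)) (l 0)) (l 0)) (l 0)) (n (n (l 0) (n (l 0) (n (l 334) (l 0)))) (l 0)))) (n (n (n (n (n (n (l 201) (l 0)) (l 0)) (l 0)) (n (n (n (l 159542) (l 0)) (l 0)) (l 0))) (n (n (l 0) (n (n (l 167236) (l 0)) (l 0))) (l 0))) (n (n (n (n (n (l 132351) (l 0)) (l 0)) (l 0)) (l 0)) (l 0)))) (n (n (n (n (n (n (n (l 181) (l 0)) (l 0)) (l 0)) (l 0)) (n (n (l 0) (n (l 0) (n (l 334) (l 0)))) (n (l 0) (n (n (l 331) (l 0)) (l 0))))) (n (l 0) (n (n (n (n (l 150308) (l 0)) (l 0)) (l 0)) (l 0)))) (n (n (n (l 0) (n (n (n (l 160053) (l 0)) (l 0))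 (l 0))) (n (n (n (n (l 145177) (l 0)) (l 0)) (n (n (l 167236) (l 0)) (l 0))) (n (l 0) (n (n (l 169803) (l 0)) (l 0))))) (n (n (n (n (n (l 132351) (l 0)) (l 0)) (l 0)) (l 0)) (n (n (l 0) (n (n (l 330) (l 0)) (l 0))) (l 0))))))

def r35 : Tr ℕ := (n (n (n (n (n (n (n (n (l 139) (l 0)) (l 0)) (n (n (l 317) (l 0)) (l 0))) (l 0)) (l 0)) (n (n (n (n (n (l 116446) (l 0)) (l 0)) (l 0)) (l 0)) (n (n (l 0) (n (l 0) (n (l 333) (l 0)))) (l 0)))) (n (n (n (n (n (n (l 203) (l 0)) (l 0)) (l 0)) (n (n (n (l 21551019354418) (l 0)) (l 0)) (l 0))) (n (n (l 0) (n (n (l 325) (l 0)) (l 0))) (n (l 0) (n (n (l 331) (l 0)) (l 0))))) (n (n (n (n (n (l 259) (l 0)) (l 0)) (l 0)) (l 0)) (l 0)))) (n (n (n (n (n (n (n (l 49903795) (l 0)) (l 0)) (l 0)) (l 0)) (n (n (l 0) (n (l 0) (n (l 333) (l 0)))) (n (l 0) (n (n (l 331) (l 0)) (l 0))))) (n (l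 0) (n (n (n (n (l 293) (l 0)) (l 0)) (l 0)) (l 0)))) (n (n (n (l 0) (n (n (n (l 41957092147) (l 0)) (l 0)) (l 0))) (n (n (n (n (l 145176) (l 0)) (l 0)) (n (n (l 325) (l 0)) (n (l 334) (l 0)))) (n (l 0) (n (n (l 331) (l 0)) (l 0))))) (n (n (n (n (n (l 132354) (l 0)) (l 0)) (l 0)) (l 0)) (l 0)))))

def r36 : Tr ℕ := (n (n (n (n (n (n (n (n (l 137) (l 0)) (l 0)) (n (n (l 163646) (l 0)) (l 0))) (l 0)) (l 0)) (n (n (n (n (n (l 221) (l 0)) (l 0)) (l 0)) (l 0)) (n (n (l 0) (n (l 0) (n (l 334) (l 0)))) (l 0)))) (n (n (n (n (n (n (l 195) (l 0)) (l 0)) (l 0)) (n (n (n (l 157489) (l 0)) (l 0)) (l 0))) (l 0)) (n (n (n (n (n (l 68551935) (l 0)) (l 0)) (l 0)) (l 0)) (l 0)))) (n (n (n (n (n (n (n (l 185) (l 0)) (l 0)) (n (n (l 163646) (l 0)) (l 0))) (l 0)) (l 0)) (n (l 0) (n (n (n (n (l 293) (l 0)) (l 0)) (n (l 0) (n (l 333) (l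 0)))) (l 0)))) (n (n (n (l 0) (n (n (n (l 158002) (l 0)) (l 0)) (l 0))) (n (n (n (n (l 145177) (l 0)) (l 0)) (n (n (l 167236) (l 0)) (n (l 333) (l 0)))) (n (l 0) (n (n (l 331) (l 0)) (l 0))))) (n (n (n (n (n (l 261) (l 0)) (l 0)) (l 0)) (l 0)) (n (n (l 0) (n (n (l 330) (l 0)) (l 0))) (l 0))))))

def r37 : Tr ℕ := (n (n (n (n (n (n (n (n (l 75409) (l 0)) (l 0)) (n (n (l 163646) (l 0)) (l 0))) (n (n (n (l 301) (l 0)) (l 0)) (l 0))) (n (n (n (n (l 136970) (l 0)) (l 0)) (l 0)) (l 0))) (n (n (n (n (n (l 224) (l 0)) (l 0)) (l 0)) (l 0)) (l 0))) (n (n (n (n (n (n (l 102085) (l 0)) (l 0)) (l 0)) (n (n (n (l 306) (l 0)) (l 0)) (l 0))) (n (l 0) (n (l 0) (n (n (l 331) (l 0)) (l 0))))) (n (l 0) (n (n (l 0) (n (n (l 327) (l 0)) (l 0))) (l 0))))) (n (n (n (n (n (n (n (l 183) (l 0)) (l 0)) (n (n (l 318) (l 0)) (l 0))) (l 0)) (n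 (l 0) (n (l 0) (n (n (l 331) (l 0)) (l 0))))) (n (l 0) (n (n (n (n (l 292) (l 0)) (l 0)) (n (l 0) (n (l 333) (l 0)))) (l 0)))) (n (n (n (l 0) (n (n (n (l 160561) (l 0)) (l 0)) (l 0))) (n (n (n (n (l 74330392) (l 0)) (l 0)) (n (l 0) (n (l 333) (l 0)))) (n (l 0) (n (n (l 331) (l 0)) (l 0))))) (n (n (n (n (n (l 133891) (l 0)) (l 0)) (n (l 0) (n (l 334) (l 0)))) (l 0)) (l 0)))))

def r38 : Tr ℕ := (n (n (n (n (n (n (n (n (l 143) (l 0)) (l 0)) (n (n (l 317) (l 0)) (l 0))) (n (n (n (l 303) (l 0)) (l 0)) (n (n (l 169287) (l 0)) (l 0)))) (n (n (n (n (l 138505) (l 0)) (l 0)) (l 0)) (l 0))) (n (n (n (n (n (l 59622111) (l 0)) (l 0)) (l 0)) (l 0)) (l 0))) (n (n (n (n (n (n (l 198) (l 0)) (l 0)) (l 0)) (n (n (n (l 160561) (l 0)) (l 0)) (l 0))) (l 0)) (n (n (n (n (n (l 255) (l 0)) (l 0)) (l 0)) (l 0)) (n (n (l 0) (n (n (l 328)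 (l 0)) (l 0))) (l 0))))) (n (n (n (n (n (n (n (l 179) (l 0)) (l 0)) (n (n (l 317) (l 0)) (l 0))) (l 0)) (n (l 0) (n (l 0) (n (n (l 332) (l 0)) (l 0))))) (n (l 0) (n (n (n (n (l 76957475) (l 0)) (l 0)) (n (l 0) (n (l 334) (l 0)))) (l 0)))) (n (n (n (l 0) (n (n (n (l 159538) (l 0)) (l 0)) (l 0))) (n (n (n (n (l 279) (l 0)) (l 0)) (n (n (l 324) (l 0)) (n (l 334) (l 0)))) (n (l 0) (n (n (l 332) (l 0)) (l 0))))) (n (n (n (l 0) (n (l 0) (n (l 333) (l 0)))) (l 0)) (l 0)))))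

def r39 : Tr ℕ := (n (n (n (n (n (n (n (n (l 76947) (l 0)) (l 0)) (n (n (l 317) (l 0)) (l 0))) (n (l 0) (n (n (l 330) (l 0)) (l 0)))) (n (n (n (n (l 267) (l 0)) (l 0)) (l 0)) (l 0))) (n (n (n (n (n (l 117473) (l 0)) (l 0)) (l 0)) (l 0)) (n (n (l 0) (n (l 0) (n (l 333) (l 0)))) (l 0)))) (n (n (n (n (n (n (l 199) (l 0)) (l 0)) (l 0)) (l 0)) (l 0)) (n (n (n (n (n (l 133378) (l 0)) (l 0)) (l 0)) (l 0)) (l 0)))) (n (n (n (n (n (n (n (l 96437) (l 0)) (l 0)) (n (n (l 317) (l 0)) (l 0))) (l 0)) (l 0)) (n (l 0) (n (n (n (n (l 150307) (l 0)) (l 0)) (n (l 0) (n (l 334) (l 0)))) (l 0)))) (n (n (n (l 0) (n (n (n (l 160567) (l 0)) (l 0)) (l 0))) (n (n (n (n (l 145176) (l 0)) (l 0)) (n (n (l 325) (l 0)) (n (l 334) (l 0)))) (l 0))) (l 0))))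

def r40 : Tr ℕ := (n (n (n (n (n (n (n (n (l 20171004551) (l 0)) (l 0)) (l 0)) (l 0)) (l 0)) (n (n (n (n (n (l 221) (l 0)) (l 0)) (l 0)) (l 0)) (n (n (l 0) (n (l 0) (n (l 334) (l 0)))) (l 0)))) (n (n (n (n (n (n (l 195) (l 0)) (l 0)) (l 0)) (n (n (n (l 157489) (l 0)) (l 0)) (l 0))) (n (n (l 0) (n (n (l 167236) (l 0)) (l 0))) (l 0))) (n (n (n (n (n (l 68289791) (l 0)) (l 0)) (l 0)) (l 0)) (l 0)))) (n (n (n (n (n (n (n (l 96949) (l 0)) (l 0)) (l 0)) (l 0)) (n (n (l 0) (n (l 0) (n (l 334) (l 0)))) (l 0))) (n (l 0) (n (n (n (n (l 293) (l 0)) (l 0)) (l 0)) (l 0)))) (n (n (n (l 0) (n (n (n (l 158002) (l 0)) (l 0)) (l 0))) (n (n (n (n (l 145177) (l 0)) (l 0)) (n (n (l 167236) (l 0)) (l 0))) (n (l 0) (n (n (l 331) (l 0)) (l 0))))) (n (n (n (n (n (l 255) (l 0)) (l 0)) (l 0)) (l 0)) (n (n (l 0) (n (n (l 330) (l 0)) (l 0)))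 (l 0))))))

def r41 : Tr ℕ := (n (n (n (n (n (n (n (n (l 151) (l 0)) (l 0)) (l 0)) (l 0)) (l 0)) (l 0)) (n (n (l 0) (n (n (n (n (l 279) (l 0)) (l 0)) (l 0)) (l 0))) (n (n (n (l 0) (n (n (l 326) (l 0)) (l 0))) (l 0)) (l 0)))) (n (n (n (n (n (n (n (l 192) (l 0)) (l 0)) (l 0)) (l 0)) (n (n (n (n (l 144151) (l 0)) (l 0)) (l 0)) (l 0))) (l 0)) (n (n (n (n (n (n (l 59358942) (l 0)) (l 0)) (n (n (l 326) (l 0)) (l 0))) (l 0)) (l 0)) (n (l 0) (n (n (n (n (l 304) (l 0)) (l 0)) (l 0)) (l 0))))))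

def r42 : Tr ℕ := (n (n (n (n (n (n (l 0) (n (n (l 322) (l 0)) (l 0))) (l 0)) (n (n (n (n (l 271) (l 0)) (l 0)) (l 0)) (l 0))) (n (l 0) (n (n (l 0) (n (n (l 327) (l 0)) (l 0))) (l 0)))) (n (n (n (n (n (n (l 211) (l 0)) (l 0)) (n (n (l 325) (l 0)) (l 0))) (l 0)) (n (n (n (n (l 279) (l 0)) (l 0)) (l 0)) (l 0))) (n (n (n (l 0) (n (n (l 326) (l 0)) (l 0))) (l 0)) (l 0)))) (n (n (n (n (n (n (n (l 192) (l 0)) (l 0)) (l 0)) (n (n (n (l 309) (l 0)) (l 0)) (l 0))) (l 0)) (n (n (n (l 0) (n (l 0) (n (l 334) (l 0)))) (l 0)) (n (n (n (n (l 298) (l 0)) (l 0)) (l 0)) (l 0)))) (n (n (n (n (n (n (l 114398) (l 0)) (l 0)) (l 0)) (l 0)) (l 0)) (l 0))))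

def r43 : Tr ℕ := (n (n (n (n (n (n (n (n (l 152) (l 0)) (l 0)) (n (n (l 322) (l 0)) (l 0))) (l 0)) (n (n (n (n (l 276) (l 0)) (l 0)) (n (n (l 325) (l 0)) (l 0))) (l 0))) (n (n (n (l 0) (n (n (l 325) (l 0)) (l 0))) (l 0)) (n (n (l 0) (n (n (l 327) (l 0)) (l 0))) (l 0)))) (n (n (n (n (n (n (l 111318) (l 0)) (l 0)) (n (n (l 325) (l 0)) (n (l 333) (l 0)))) (l 0)) (n (n (n (n (l 144664) (l 0)) (l 0)) (l 0)) (l 0))) (l 0))) (n (n (n (n (n (l 0) (n (n (l 322) (l 0)) (l 0))) (n (n (n (l 309) (l 0)) (l 0)) (l 0))) (n (n (n (n (l 280) (l 0)) (l 0)) (l 0)) (l 0))) (n (n (n (l 0) (n (l 0) (n (l 334) (l 0)))) (l 0)) (n (n (n (n (l 298) (l 0)) (l 0)) (n (n (l 330) (l 0)) (l 0))) (l 0)))) (n (n (n (n (n (n (l 115424) (l 0)) (l 0)) (n (l 0) (n (l 334) (l 0)))) (l 0)) (l 0)) (n (l 0) (n (n (n (n (l 303) (l 0)) (l 0)) (l 0)) (n (n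 (n (l 322) (l 0)) (l 0)) (l 0)))))))

def r44 : Tr ℕ := (n (n (n (n (n (n (n (n (l 158) (l 0)) (l 0)) (l 0)) (l 0)) (l 0)) (n (l 0) (n (n (n (n (l 292) (l 0)) (l 0)) (l 0)) (l 0)))) (n (l 0) (n (n (n (n (n (l 266) (l 0)) (l 0)) (l 0)) (l 0)) (n (l 0) (n (n (n (l 318) (l 0)) (l 0)) (l 0)))))) (n (n (n (n (n (n (n (l 201) (l 0)) (l 0)) (l 0)) (l 0)) (l 0)) (n (l 0) (n (l 0) (n (n (n (l 318) (l 0)) (l 0)) (l 0))))) (l 0)))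

def r45 : Tr ℕ := (n (n (n (n (n (n (n (n (l 158) (l 0)) (l 0)) (l 0)) (l 0)) (l 0)) (l 0)) (l 0)) (n (n (n (n (n (n (n (l 103110) (l 0)) (l 0)) (l 0)) (l 0)) (l 0)) (l 0)) (l 0)))

def r46 : Tr ℕ := (n (n (n (n (n (n (n (n (l 161) (l 0)) (l 0)) (l 0)) (l 0)) (l 0)) (n (l 0) (n (n (n (n (l 295) (l 0)) (l 0)) (l 0)) (l 0)))) (n (n (n (n (l 0) (n (n (l 168775) (l 0)) (l 0))) (l 0)) (n (l 0) (n (n (l 0) (n (l 333) (l 0))) (l 0)))) (n (n (n (n (n (l 273) (l 0)) (l 0)) (n (n (l 330) (l 0)) (l 0))) (l 0)) (n (n (n (n (l 312) (l 0)) (l 0)) (l 0)) (n (n (l 0) (n (l 334) (l 0))) (l 0)))))) (n (n (n (n (n (n (n (l 55944400) (l 0)) (l 0)) (l 0)) (l 0)) (n (n (n (n (l 147229) (l 0)) (l 0)) (l 0)) (l 0))) (n (n (n (l 0) (n (n (l 329) (l 0)) (l 0))) (n (l 0) (n (n (l 331) (l 0)) (l 0)))) (n (l 0) (n (n (n (l 321) (l 0)) (l 0))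 (l 0))))) (n (n (n (n (n (n (l 119527) (l 0)) (l 0)) (n (n (l 168775) (l 0)) (l 0))) (l 0)) (l 0)) (n (n (n (n (n (l 275) (l 0)) (l 0)) (n (n (l 329) (l 0)) (l 0))) (l 0)) (n (n (n (n (l 159028) (l 0)) (l 0)) (l 0)) (l 0))))))

def r47 : Tr ℕ := (n (n (n (n (l 0) (n (n (l 0) (n (n (l 327) (l 0)) (l 0))) (l 0))) (n (l 0) (n (n (n (n (l 152871) (l 0)) (l 0)) (l 0)) (n (n (l 0) (n (l 334) (l 0))) (l 0))))) (n (n (n (n (l 0) (n (n (l 168775) (l 0)) (l 0))) (l 0)) (l 0)) (n (n (n (n (n (l 272) (l 0)) (l 0)) (n (n (l 330) (l 0)) (l 0))) (l 0)) (n (n (n (n (l 305) (l 0)) (l 0)) (l 0)) (n (n (l 0) (n (l 334) (l 0))) (l 0)))))) (n (n (n (n (n (n (n (l 210) (l 0)) (l 0)) (l 0)) (l 0)) (n (l 0) (n (n (l 0) (n (l 334) (l 0))) (l 0)))) (l 0)) (n (n (n (n (n (n (l 119527) (l 0)) (l 0)) (l 0)) (l 0)) (l 0)) (n (n (n (l 0) (n (n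 (l 327) (l 0)) (l 0))) (l 0)) (n (n (n (n (l 159028) (l 0)) (l 0)) (l 0)) (l 0))))))

def r48 : Tr ℕ := (n (n (n (n (l 0) (n (n (l 0) (n (n (l 328) (l 0)) (l 0))) (l 0))) (n (n (l 0) (n (l 0) (n (n (l 332) (l 0)) (l 0)))) (n (n (n (n (l 300) (l 0)) (l 0)) (l 0)) (l 0)))) (n (n (n (n (l 0) (n (n (l 169288) (l 0)) (l 0))) (l 0)) (n (l 0) (n (n (l 0) (n (l 334) (l 0))) (l 0)))) (n (n (n (n (n (l 271) (l 0)) (l 0)) (n (n (l 329) (l 0)) (l 0))) (l 0)) (n (n (n (n (l 159542) (l 0)) (l 0)) (l 0)) (n (n (l 0) (n (l 333) (l 0))) (l 0)))))) (n (n (n (n (n (n (n (l 109773) (l 0)) (l 0)) (l 0)) (l 0)) (n (n (n (n (l 286) (l 0)) (l 0)) (l 0)) (l 0))) (n (n (n (l 0) (n (n (l 330) (l 0)) (l 0))) (n (l 0) (n (n (l 332) (l 0)) (l 0)))) (n (l 0) (n (n (n (l 322) (l 0)) (l 0)) (l 0))))) (n (n (n (n (n (n (l 232) (l 0)) (l 0)) (n (n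 (l 330) (l 0)) (l 0))) (l 0)) (n (l 0) (n (n (l 0) (n (l 334) (l 0))) (l 0)))) (n (n (n (n (n (l 141584) (l 0)) (l 0)) (n (n (l 328) (l 0)) (l 0))) (l 0)) (n (n (n (n (l 158515) (l 0)) (l 0)) (l 0)) (l 0))))))

def r49 : Tr ℕ := (n (n (n (n (n (n (n (n (l 167) (l 0)) (l 0)) (l 0)) (l 0)) (l 0)) (n (l 0) (n (n (n (n (l 303) (l 0)) (l 0)) (l 0)) (l 0)))) (n (l 0) (n (n (n (n (n (l 282) (l 0)) (l 0)) (l 0)) (l 0)) (n (l 0) (n (n (n (l 325) (l 0)) (l 0)) (l 0)))))) (n (n (n (n (n (n (n (l 225) (l 0)) (l 0)) (l 0)) (l 0)) (l 0)) (n (l 0) (n (l 0) (n (n (n (l 325) (l 0)) (l 0)) (l 0))))) (l 0)))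

def r50 : Tr ℕ := (n (n (n (n (n (n (n (n (l 168) (l 0)) (l 0)) (n (n (l 330) (l 0)) (l 0))) (l 0)) (l 0)) (n (l 0) (n (n (n (n (l 304) (l 0)) (l 0)) (l 0)) (l 0)))) (n (n (n (n (n (n (l 235) (l 0)) (l 0)) (l 0)) (l 0)) (l 0)) (l 0))) (n (n (n (n (n (n (n (l 115935) (l 0)) (l 0)) (l 0)) (l 0)) (l 0)) (n (l 0) (n (n (n (n (l 311) (l 0)) (l 0)) (l 0)) (n (n (n (l 326) (l 0)) (l 0)) (l 0))))) (n (n (n (l 0) (n (l 0) (n (n (l 332) (l 0)) (l 0)))) (l 0)) (n (n (n (n (n (l 144151) (l 0)) (l 0)) (l 0)) (n (n (l 0) (n (l 334) (l 0))) (l 0))) (l 0)))))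

def r51 : Tr ℕ := (n (n (n (n (n (n (n (n (l 173) (l 0)) (l 0)) (l 0)) (l 0)) (l 0)) (n (n (n (n (n (l 124657) (l 0)) (l 0)) (l 0)) (n (n (n (l 315) (l 0)) (n (l 333) (l 0))) (l 0))) (n (l 0) (n (n (n (l 321) (l 0)) (l 0)) (l 0))))) (n (n (l 0) (n (n (n (n (l 291) (l 0)) (l 0)) (l 0)) (l 0))) (l 0))) (n (n (n (n (l 0) (n (l 0) (n (n (l 331) (l 0)) (l 0)))) (n (n (n (n (l 292) (l 0)) (l 0)) (l 0)) (n (n (n (l 318) (l 0)) (l 0)) (l 0)))) (n (n (n (n (n (l 253) (l 0)) (l 0)) (l 0)) (l 0)) (l 0))) (n (n (n (l 0) (n (n (l 0) (n (l 333) (l 0))) (l 0))) (n (n (n (n (l 78533416) (l 0)) (l 0)) (l 0)) (l 0))) (l 0))))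

def r52 : Tr ℕ := (n (n (n (n (n (n (n (n (l 49638068) (l 0)) (l 0)) (l 0)) (n (l 0) (n (n (l 331) (l 0)) (l 0)))) (n (n (n (n (l 292) (l 0)) (l 0)) (l 0)) (n (n (n (l 318) (l 0)) (l 0)) (l 0)))) (n (n (n (n (n (l 245) (l 0)) (l 0)) (l 0)) (l 0)) (l 0))) (n (n (n (n (n (n (l 239) (l 0)) (l 0)) (l 0)) (n (n (l 0) (n (l 333) (l 0))) (l 0))) (l 0)) (l 0))) (n (n (l 0) (n (n (n (n (n (l 260) (l 0)) (l 0)) (l 0)) (l 0)) (l 0))) (n (n (n (l 0) (n (n (n (l 316) (l 0)) (l 0)) (l 0))) (l 0)) (l 0))))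

def r53 : Tr ℕ := (n (n (n (n (n (n (n (n (l 94389) (l 0)) (l 0)) (l 0)) (n (l 0) (n (n (l 331) (l 0)) (l 0)))) (n (n (n (n (l 293) (l 0)) (l 0)) (l 0)) (l 0))) (n (l 0) (n (l 0) (n (n (n (l 324) (l 0)) (l 0)) (l 0))))) (n (n (n (n (n (n (l 237) (l 0)) (l 0)) (l 0)) (l 0)) (l 0)) (l 0))) (n (n (l 0) (n (n (n (n (n (l 68289791) (l 0)) (l 0)) (l 0)) (l 0)) (l 0))) (n (n (n (l 0) (n (n (n (l 316) (l 0)) (l 0)) (l 0))) (n (n (n (n (l 302) (l 0)) (l 0)) (l 0)) (l 0))) (l 0))))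

def r54 : Tr ℕ := (n (n (n (n (n (n (n (n (l 191) (l 0)) (l 0)) (l 0)) (l 0)) (l 0)) (n (l 0) (n (n (l 0) (n (n (l 331) (l 0)) (l 0))) (l 0)))) (n (n (l 0) (n (n (n (n (l 303) (l 0)) (l 0)) (l 0)) (n (n (n (l 325) (l 0)) (l 0)) (l 0)))) (n (l 0) (n (n (n (l 0) (n (l 334) (l 0))) (l 0)) (l 0))))) (n (n (n (n (l 0) (n (n (n (l 316) (l 0)) (l 0)) (l 0))) (l 0)) (n (l 0) (n (n (l 0) (n (n (l 331) (l 0)) (l 0))) (l 0)))) (n (l 0) (n (l 0) (n (n (n (l 0) (n (l 333) (l 0))) (l 0)) (l 0))))))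

def r55 : Tr ℕ := (n (n (n (n (n (n (n (n (l 195) (l 0)) (l 0)) (l 0)) (l 0)) (l 0)) (l 0)) (n (l 0) (n (n (l 0) (n (n (n (l 318) (l 0)) (l 0)) (l 0))) (l 0)))) (n (l 0) (n (l 0) (n (n (n (n (n (l 292) (l 0)) (l 0)) (l 0)) (l 0)) (l 0)))))

def r56 : Tr ℕ := (n (n (n (n (n (n (n (n (l 197) (l 0)) (l 0)) (l 0)) (l 0)) (l 0)) (n (n (n (n (n (l 128761) (l 0)) (l 0)) (l 0)) (l 0)) (n (n (n (l 0) (n (l 333) (l 0))) (l 0)) (n (n (n (l 329) (l 0)) (l 0)) (l 0))))) (n (l 0) (n (n (n (n (n (l 292) (l 0)) (l 0)) (l 0)) (n (n (n (l 318) (l 0)) (l 0)) (l 0))) (l 0)))) (n (n (l 0) (n (n (n (n (n (l 266) (l 0)) (l 0)) (l 0)) (n (n (n (l 318) (l 0)) (l 0)) (l 0))) (n (n (n (l 0) (n (l 333) (l 0))) (l 0)) (l 0)))) (n (n (l 0) (n (n (n (n (l 312) (l 0)) (l 0)) (n (n (l 331) (l 0)) (l 0))) (l 0))) (l 0))))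

def r57 : Tr ℕ := (n (n (n (n (n (n (n (n (l 205) (l 0)) (l 0)) (l 0)) (l 0)) (n (n (l 0) (n (n (l 331) (l 0)) (l 0))) (l 0))) (n (n (n (n (l 0) (n (l 333) (l 0))) (n (n (l 331) (l 0)) (l 0))) (l 0)) (l 0))) (n (n (l 0) (n (n (n (n (l 81947443) (l 0)) (l 0)) (l 0)) (n (n (n (l 329) (l 0)) (l 0)) (l 0)))) (n (n (n (n (n (l 297) (l 0)) (l 0)) (n (n (l 331) (l 0)) (l 0))) (n (n (n (l 321) (l 0)) (l 0)) (l 0))) (n (n (n (n (l 315) (l 0)) (l 0)) (l 0)) (l 0))))) (n (n (n (n (n (n (n (l 241) (l 0)) (l 0)) (l 0)) (l 0)) (n (n (n (n (l 81422642) (l 0)) (l 0)) (l 0)) (l 0))) (n (n (n (n (l 0) (n (l 333) (l 0))) (n (n (l 332) (l 0)) (l 0))) (l 0)) (l 0))) (n (n (n (n (n (n (l 247) (l 0)) (n (l 333) (l 0))) (l 0)) (l 0)) (n (l 0) (n (n (n (l 328) (l 0)) (l 0)) (l 0)))) (n (n (n (n (n (l 152360) (l 0)) (l 0)) (l 0)) (l 0)) (l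 0)))))

def r58 : Tr ℕ := (n (n (n (n (n (n (n (n (l 209) (l 0)) (l 0)) (l 0)) (l 0)) (n (n (l 0) (n (n (l 331) (l 0)) (l 0))) (l 0))) (n (n (n (n (l 0) (n (l 333) (l 0))) (n (n (l 331) (l 0)) (l 0))) (l 0)) (l 0))) (n (n (l 0) (n (n (n (n (l 81947443) (l 0)) (n (l 334) (l 0))) (l 0)) (n (n (n (l 329) (l 0)) (l 0)) (l 0)))) (n (n (n (n (n (l 78533416) (l 0)) (l 0)) (n (n (l 331) (l 0)) (l 0))) (l 0)) (l 0)))) (n (n (n (l 0) (n (n (n (n (l 306) (l 0)) (l 0)) (l 0)) (n (n (n (l 328) (l 0)) (l 0)) (l 0)))) (n (n (n (n (n (l 271) (l 0)) (l 0)) (n (n (l 332) (l 0)) (l 0))) (n (n (n (l 321) (l 0)) (l 0)) (l 0))) (l 0))) (n (n (n (n (n (n (l 247) (l 0)) (l 0)) (n (n (l 332) (l 0)) (l 0))) (l 0)) (n (l 0) (n (n (n (l 328) (l 0)) (l 0)) (l 0)))) (n (n (n (n (n (l 300) (l 0)) (n (l 333) (l 0))) (n (n (l 331) (l 0)) (l 0)))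 (n (n (n (l 322) (l 0)) (l 0)) (l 0))) (l 0)))))

def r59 : Tr ℕ := (n (n (n (n (n (n (n (n (l 213) (l 0)) (l 0)) (l 0)) (l 0)) (l 0)) (n (n (n (n (l 0) (n (l 333) (l 0))) (l 0)) (l 0)) (l 0))) (n (n (l 0) (n (n (n (l 0) (n (l 333) (l 0))) (l 0)) (n (n (n (l 329) (l 0)) (l 0)) (l 0)))) (n (n (n (n (n (l 297) (l 0)) (l 0)) (n (n (l 331) (l 0)) (l 0))) (n (n (n (l 164673) (l 0)) (l 0)) (l 0))) (n (n (n (n (l 315) (l 0)) (l 0)) (l 0)) (l 0))))) (n (n (n (n (n (n (n (l 241) (l 0)) (l 0)) (l 0)) (l 0)) (n (n (n (n (l 160054) (l 0)) (n (l 333) (l 0))) (l 0)) (n (n (n (l 329) (l 0)) (l 0)) (l 0)))) (n (n (n (n (n (l 275) (l 0)) (n (l 333) (l 0))) (l 0)) (l 0)) (l 0))) (n (n (n (n (n (n (l 249) (l 0)) (n (l 170829) (l 0))) (l 0)) (l 0)) (l 0)) (n (n (n (n (n (l 78533416) (l 0)) (l 0)) (l 0)) (n (n (n (l 321) (l 0)) (l 0))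 (l 0))) (l 0)))))

def r60 : Tr ℕ := (n (n (n (n (n (n (n (n (l 221) (l 0)) (l 0)) (l 0)) (l 0)) (l 0)) (l 0)) (n (l 0) (n (n (l 0) (n (n (n (l 326) (l 0)) (l 0)) (l 0))) (l 0)))) (n (l 0) (n (l 0) (n (n (n (n (n (l 304) (l 0)) (l 0)) (l 0)) (l 0)) (l 0)))))

def r61 : Tr ℕ := (n (n (n (n (n (n (n (n (l 224) (l 0)) (l 0)) (l 0)) (l 0)) (l 0)) (l 0)) (l 0)) (n (n (l 0) (n (n (n (n (n (l 280) (l 0)) (l 0)) (l 0)) (l 0)) (l 0))) (l 0)))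

def r62 : Tr ℕ := (n (n (n (n (n (n (n (n (l 232) (l 0)) (l 0)) (l 0)) (l 0)) (l 0)) (l 0)) (n (l 0) (n (n (n (n (n (l 157489) (l 0)) (l 0)) (l 0)) (n (n (n (l 169288) (l 0)) (l 0)) (l 0))) (l 0)))) (n (n (n (n (n (n (n (l 127736) (l 0)) (l 0)) (l 0)) (l 0)) (l 0)) (n (n (n (n (n (l 286) (l 0)) (l 0)) (l 0)) (l 0)) (n (l 0) (n (n (n (l 332) (l 0)) (l 0)) (l 0))))) (n (l 0) (n (n (n (n (n (l 159542) (l 0)) (l 0)) (l 0)) (l 0)) (n (l 0) (n (l 0) (n (n (l 334) (l 0)) (l 0))))))))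

def r63 : Tr ℕ := (n (n (n (l 0) (n (n (n (n (n (l 263) (l 0)) (l 0)) (l 0)) (l 0)) (l 0))) (n (n (n (n (n (n (l 254) (l 0)) (l 0)) (l 0)) (n (n (n (l 321) (l 0)) (l 0)) (l 0))) (l 0)) (l 0))) (n (l 0) (n (n (n (n (n (n (l 132865) (l 0)) (l 0)) (l 0)) (n (n (n (l 322) (l 0)) (l 0)) (l 0))) (l 0)) (l 0))))

def r64 : Tr ℕ := (n (l 0) (n (l 0) (n (n (n (n (n (n (l 260) (l 0)) (l 0)) (l 0)) (l 0)) (l 0)) (l 0))))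

def r65 : Tr ℕ := (n (n (l 0) (n (l 0) (n (l 0) (n (n (n (n (l 317) (l 0)) (l 0)) (l 0)) (l 0))))) (n (n (n (n (n (n (n (l 254) (l 0)) (l 0)) (l 0)) (l 0)) (l 0)) (l 0)) (n (n (n (n (n (n (l 265) (l 0)) (l 0)) (l 0)) (l 0)) (l 0)) (n (l 0) (n (n (n (n (l 317) (l 0)) (l 0)) (l 0)) (l 0))))))

def r66 : Tr ℕ := (n (n (n (n (n (l 0) (n (n (n (l 322) (l 0)) (l 0)) (l 0))) (l 0)) (n (n (n (n (n (l 142096) (l 0)) (l 0)) (l 0)) (n (n (n (l 329) (l 0)) (l 0)) (l 0))) (n (l 0) (n (l 0) (n (n (l 333) (l 0)) (l 0)))))) (l 0)) (n (n (l 0) (n (l 0) (n (l 0) (n (l 0) (n (n (l 334) (l 0)) (l 0)))))) (n (n (n (n (n (n (l 266) (l 0)) (l 0)) (l 0)) (l 0)) (l 0)) (n (l 0) (n (n (n (n (l 318) (l 0)) (l 0)) (l 0)) (l 0))))))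

def r67 : Tr ℕ := (n (n (n (n (n (l 0) (n (n (n (l 324) (l 0)) (l 0)) (l 0))) (l 0)) (n (n (n (n (n (l 283) (l 0)) (l 0)) (l 0)) (l 0)) (l 0))) (n (n (n (n (n (n (l 265) (l 0)) (l 0)) (l 0)) (n (n (n (l 327) (l 0)) (l 0)) (l 0))) (n (l 0) (n (l 0) (n (n (l 334) (l 0)) (l 0))))) (l 0))) (n (n (n (n (n (n (n (l 68027647) (l 0)) (l 0)) (l 0)) (l 0)) (n (l 0) (n (l 0) (n (n (l 334) (l 0)) (l 0))))) (n (l 0) (n (n (n (n (l 162621) (l 0)) (l 0)) (l 0)) (l 0)))) (n (n (n (l 0) (n (n (n (l 169288) (l 0)) (l 0)) (l 0))) (n (l 0) (n (l 0) (n (n (l 171342) (l 0)) (l 0))))) (l 0))))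

def r68 : Tr ℕ := (n (n (n (l 0) (n (n (n (n (n (l 145177) (l 0)) (l 0)) (l 0)) (l 0)) (l 0))) (n (n (n (l 0) (n (n (n (l 330) (l 0)) (l 0)) (l 0))) (l 0)) (l 0))) (n (n (n (n (n (n (n (l 133890) (l 0)) (l 0)) (l 0)) (l 0)) (l 0)) (n (l 0) (n (n (n (n (l 319) (l 0)) (l 0)) (l 0)) (l 0)))) (l 0)))

def r69 : Tr ℕ := (n (n (n (n (n (l 0) (n (n (n (l 325) (l 0)) (l 0)) (l 0))) (l 0)) (n (n (n (n (n (l 283) (l 0)) (l 0)) (l 0)) (l 0)) (l 0))) (n (n (n (n (n (n (l 265) (l 0)) (l 0)) (l 0)) (n (n (n (l 327) (l 0)) (l 0)) (l 0))) (l 0)) (l 0))) (n (n (n (n (n (n (n (l 132866) (l 0)) (l 0)) (l 0)) (l 0)) (n (l 0) (n (l 0) (n (n (l 334) (l 0)) (l 0))))) (n (l 0) (n (n (n (n (l 162621) (l 0)) (l 0)) (l 0)) (l 0)))) (n (n (n (l 0) (n (n (n (l 169288) (l 0)) (l 0)) (l 0))) (n (l 0) (n (l 0) (n (n (l 171342) (l 0)) (l 0)))))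 (l 0))))

def r70 : Tr ℕ := (n (n (n (n (n (l 0) (n (n (n (l 326) (l 0)) (l 0)) (l 0))) (l 0)) (n (n (n (n (n (l 281) (l 0)) (l 0)) (l 0)) (l 0)) (l 0))) (n (n (n (n (n (n (l 266) (l 0)) (l 0)) (l 0)) (n (n (n (l 169288) (l 0)) (l 0)) (l 0))) (l 0)) (l 0))) (n (n (n (n (n (n (n (l 261) (l 0)) (l 0)) (l 0)) (l 0)) (n (l 0) (n (l 0) (n (n (l 333) (l 0)) (l 0))))) (n (l 0) (n (n (n (n (l 83787070) (l 0)) (l 0)) (l 0)) (l 0)))) (n (n (n (l 0) (n (n (n (l 168775) (l 0)) (l 0)) (l 0))) (n (l 0) (n (l 0) (n (n (l 170829) (l 0)) (l 0))))) (l 0))))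

def r71 : Tr ℕ := (n (n (n (n (n (l 0) (n (n (n (l 326) (l 0)) (l 0)) (l 0))) (l 0)) (n (n (n (n (n (l 144151) (l 0)) (l 0)) (l 0)) (l 0)) (l 0))) (n (n (n (n (n (n (l 270) (l 0)) (l 0)) (l 0)) (n (n (n (l 330) (l 0)) (l 0)) (l 0))) (n (l 0) (n (l 0) (n (n (l 334) (l 0)) (l 0))))) (l 0))) (n (l 0) (n (n (n (l 0) (n (n (n (l 327) (l 0)) (l 0)) (l 0))) (l 0)) (l 0))))

def r72 : Tr ℕ := (n (l 0) (n (n (n (n (n (n (n (l 261) (l 0)) (l 0)) (l 0)) (l 0)) (l 0)) (n (l 0) (n (n (n (n (l 163646) (l 0)) (l 0)) (l 0)) (l 0)))) (n (n (l 0) (n (l 0) (n (l 0) (n (n (l 333) (l 0)) (l 0))))) (l 0))))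

def r73 : Tr ℕ := (n (n (n (l 0) (n (n (n (n (n (l 145176) (l 0)) (l 0)) (l 0)) (l 0)) (l 0))) (n (n (n (n (n (n (l 267) (l 0)) (l 0)) (l 0)) (l 0)) (l 0)) (l 0))) (n (n (n (n (n (n (n (l 259) (l 0)) (l 0)) (l 0)) (l 0)) (l 0)) (n (l 0) (n (n (n (n (l 317) (l 0)) (l 0)) (l 0)) (l 0)))) (n (n (n (l 0) (n (n (n (l 330) (l 0)) (l 0)) (l 0))) (n (l 0) (n (l 0) (n (n (l 334) (l 0)) (l 0))))) (l 0))))

def r74 : Tr ℕ := (n (l 0) (n (n (n (n (n (n (n (l 259) (l 0)) (l 0)) (l 0)) (l 0)) (l 0)) (l 0)) (l 0)))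

def r75 : Tr ℕ := (n (l 0) (n (l 0) (n (n (n (n (n (n (l 279) (l 0)) (l 0)) (l 0)) (l 0)) (l 0)) (l 0))))

def r76 : Tr ℕ := (n (n (n (n (l 0) (n (l 0) (n (l 0) (n (n (l 334) (l 0)) (l 0))))) (l 0)) (n (n (n (n (n (n (l 72491792) (l 0)) (l 0)) (l 0)) (l 0)) (l 0)) (l 0))) (n (n (l 0) (n (l 0) (n (n (n (n (l 322) (l 0)) (l 0)) (l 0)) (l 0)))) (n (n (n (n (n (n (l 282) (l 0)) (l 0)) (l 0)) (l 0)) (l 0)) (n (l 0) (n (n (n (n (l 325) (l 0)) (l 0)) (l 0)) (l 0))))))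

def r77 : Tr ℕ := (n (l 0) (n (n (n (n (l 0) (n (n (n (l 330) (l 0)) (l 0)) (l 0))) (l 0)) (l 0)) (n (l 0) (n (n (l 0) (n (l 0) (n (n (l 334) (l 0)) (l 0)))) (l 0)))))

def r79 : Tr ℕ := (n (n (n (n (n (l 0) (n (n (n (l 330) (l 0)) (l 0)) (l 0))) (l 0)) (n (n (n (n (n (l 148253) (l 0)) (l 0)) (l 0)) (l 0)) (n (n (n (n (l 317) (l 0)) (l 0)) (l 0)) (l 0)))) (n (l 0) (n (n (l 0) (n (l 0) (n (n (l 334) (l 0)) (l 0)))) (l 0)))) (n (n (n (n (n (n (n (l 265) (l 0)) (l 0)) (l 0)) (l 0)) (l 0)) (l 0)) (l 0)))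

def r80 : Tr ℕ := (n (n (l 0) (n (l 0) (n (l 0) (n (n (n (n (l 329) (l 0)) (l 0)) (l 0)) (l 0))))) (n (n (n (n (n (n (n (l 273) (l 0)) (l 0)) (l 0)) (l 0)) (l 0)) (n (n (l 0) (n (l 0) (n (n (l 333) (l 0)) (l 0)))) (l 0))) (n (n (n (n (n (n (l 147229) (l 0)) (l 0)) (l 0)) (l 0)) (l 0)) (n (l 0) (n (n (n (n (l 327) (l 0)) (l 0)) (l 0)) (l 0))))))

def r81 : Tr ℕ := (n (n (l 0) (n (l 0) (n (l 0) (n (n (n (n (l 169287) (l 0)) (l 0)) (l 0)) (l 0))))) (n (n (n (n (n (n (n (l 140560) (l 0)) (l 0)) (l 0)) (l 0)) (l 0)) (n (n (l 0) (n (l 0) (n (n (l 334) (l 0)) (l 0)))) (l 0))) (l 0)))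

def r82 : Tr ℕ := (n (n (n (l 0) (n (n (l 0) (n (l 0) (n (n (l 334) (l 0)) (l 0)))) (n (n (n (n (l 322) (l 0)) (l 0)) (l 0)) (l 0)))) (n (l 0) (n (l 0) (n (n (n (n (l 330) (l 0)) (l 0)) (l 0)) (l 0))))) (n (n (n (n (n (n (n (l 276) (l 0)) (l 0)) (l 0)) (l 0)) (l 0)) (n (n (l 0) (n (l 0) (n (n (l 334) (l 0)) (l 0)))) (l 0))) (n (n (n (n (n (n (l 286) (l 0)) (l 0)) (l 0)) (l 0)) (l 0)) (n (l 0) (n (n (n (n (l 328) (l 0)) (l 0)) (l 0)) (l 0))))))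

def r84 : Tr ℕ := (n (n (n (l 0) (n (l 0) (n (n (n (n (l 326) (l 0)) (l 0)) (l 0)) (l 0)))) (n (n (n (n (n (n (l 289) (l 0)) (l 0)) (l 0)) (l 0)) (l 0)) (l 0))) (n (n (n (n (n (n (n (l 144151) (l 0)) (l 0)) (l 0)) (l 0)) (l 0)) (n (l 0) (n (n (n (n (l 330) (l 0)) (l 0)) (l 0)) (l 0)))) (n (n (n (l 0) (n (l 0) (n (n (l 334) (l 0)) (l 0)))) (l 0)) (l 0))))

def r85 : Tr ℕ := (n (l 0) (n (n (n (n (n (n (n (l 279) (l 0)) (l 0)) (l 0)) (l 0)) (l 0)) (l 0)) (l 0)))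

def r86 : Tr ℕ := (n (n (n (n (n (n (n (n (l 253) (l 0)) (l 0)) (l 0)) (l 0)) (l 0)) (l 0)) (n (n (l 0) (n (n (n (n (l 318) (l 0)) (l 0)) (l 0)) (l 0))) (l 0))) (l 0))

def r87 : Tr ℕ := (n (n (n (n (n (n (n (n (l 253) (l 0)) (l 0)) (l 0)) (l 0)) (l 0)) (n (n (n (n (n (l 152359) (l 0)) (l 0)) (l 0)) (n (n (n (l 332) (l 0)) (l 0)) (l 0))) (l 0))) (n (n (n (l 0) (n (l 0) (n (n (l 333) (l 0)) (l 0)))) (n (n (n (n (l 317) (l 0)) (l 0)) (l 0)) (l 0))) (l 0))) (n (n (n (n (l 0) (n (l 0) (n (n (l 333) (l 0)) (l 0)))) (n (n (n (n (l 318) (l 0)) (l 0)) (l 0)) (l 0))) (l 0)) (n (n (n (n (n (n (l 291) (l 0)) (l 0)) (l 0)) (l 0)) (n (n (n (n (l 164673) (l 0)) (l 0)) (l 0)) (l 0))) (l 0))))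

def r88 : Tr ℕ := (n (n (n (n (n (n (n (n (l 253) (l 0)) (l 0)) (l 0)) (l 0)) (l 0)) (n (n (n (n (n (l 295) (l 0)) (l 0)) (l 0)) (n (n (n (l 332) (l 0)) (l 0)) (l 0))) (l 0))) (l 0)) (n (n (n (n (l 0) (n (l 0) (n (n (l 333) (l 0)) (l 0)))) (n (n (n (n (l 318) (l 0)) (l 0)) (l 0)) (l 0))) (l 0)) (n (n (l 0) (n (n (n (n (l 321) (l 0)) (l 0)) (l 0)) (l 0))) (l 0))))

def r89 : Tr ℕ := (n (n (n (n (n (n (n (n (l 255) (l 0)) (l 0)) (l 0)) (l 0)) (l 0)) (n (n (n (n (n (l 303) (l 0)) (l 0)) (l 0)) (l 0)) (l 0))) (n (n (n (n (n (n (l 150307) (l 0)) (l 0)) (l 0)) (n (n (n (l 331) (l 0)) (l 0)) (l 0))) (l 0)) (l 0))) (n (l 0) (n (n (l 0) (n (n (n (n (l 324) (l 0)) (l 0)) (l 0)) (l 0))) (l 0))))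

def r90 : Tr ℕ := (n (n (n (n (n (n (n (n (l 68289791) (l 0)) (l 0)) (l 0)) (l 0)) (l 0)) (l 0)) (n (n (n (n (n (n (l 293) (l 0)) (l 0)) (l 0)) (l 0)) (l 0)) (l 0))) (n (l 0) (n (n (n (l 0) (n (n (n (l 331) (l 0)) (l 0)) (l 0))) (n (n (n (n (l 324) (l 0)) (l 0)) (l 0)) (l 0))) (l 0))))

def r91 : Tr ℕ := (n (n (n (n (n (l 0) (n (l 0) (n (n (l 333) (l 0)) (l 0)))) (n (n (n (n (l 318) (l 0)) (l 0)) (l 0)) (l 0))) (n (n (n (n (n (l 301) (l 0)) (l 0)) (l 0)) (l 0)) (l 0))) (n (n (n (n (n (n (l 292) (l 0)) (l 0)) (l 0)) (l 0)) (l 0)) (l 0))) (n (l 0) (n (n (n (l 0) (n (n (n (l 331) (l 0)) (l 0)) (l 0))) (l 0)) (l 0))))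

def r92 : Tr ℕ := (n (n (n (n (n (n (n (n (l 133887) (l 0)) (l 0)) (l 0)) (n (l 0) (n (n (l 333) (l 0)) (l 0)))) (n (n (n (n (l 163646) (l 0)) (l 0)) (l 0)) (l 0))) (n (n (n (n (n (l 303) (l 0)) (l 0)) (l 0)) (l 0)) (l 0))) (n (n (n (n (n (n (l 150307) (l 0)) (l 0)) (l 0)) (n (n (n (l 331) (l 0)) (l 0)) (l 0))) (l 0)) (l 0))) (n (l 0) (n (n (l 0) (n (n (n (n (l 324) (l 0)) (l 0)) (l 0)) (l 0))) (l 0))))

def r93 : Tr ℕ := (n (n (n (n (n (n (n (n (l 255) (l 0)) (l 0)) (l 0)) (l 0)) (l 0)) (l 0)) (l 0)) (n (l 0) (n (n (l 0) (n (n (n (n (l 167236) (l 0)) (l 0)) (l 0)) (l 0))) (n (l 0) (n (n (l 0) (n (n (l 334) (l 0)) (l 0))) (l 0))))))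

def r94 : Tr ℕ := (n (n (n (n (n (n (n (n (l 257) (l 0)) (l 0)) (l 0)) (l 0)) (l 0)) (n (n (n (n (n (l 303) (l 0)) (l 0)) (l 0)) (l 0)) (l 0))) (n (n (n (n (n (n (l 291) (l 0)) (l 0)) (l 0)) (n (n (n (l 331) (l 0)) (l 0)) (l 0))) (l 0)) (l 0))) (n (l 0) (n (n (n (l 0) (n (n (n (l 332) (l 0)) (l 0)) (l 0))) (l 0)) (l 0))))

def r95 : Tr ℕ := (n (l 0) (n (n (n (l 0) (n (n (n (n (l 325) (l 0)) (l 0)) (l 0)) (l 0))) (l 0)) (n (n (n (n (n (n (l 303) (l 0)) (l 0)) (l 0)) (l 0)) (l 0)) (l 0))))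

def r96 : Tr ℕ := (n (n (n (n (l 0) (n (n (n (n (l 322) (l 0)) (l 0)) (l 0)) (l 0))) (n (l 0) (n (n (l 0) (n (n (l 333) (l 0)) (l 0))) (l 0)))) (n (n (n (n (n (n (l 298) (l 0)) (l 0)) (l 0)) (l 0)) (n (n (n (n (l 325) (l 0)) (l 0)) (l 0)) (l 0))) (l 0))) (n (n (n (n (l 0) (n (n (n (l 331) (l 0)) (l 0)) (l 0))) (l 0)) (l 0)) (n (n (n (n (n (n (l 303) (l 0)) (l 0)) (l 0)) (l 0)) (l 0)) (l 0))))

def r97 : Tr ℕ := (n (n (l 0) (n (l 0) (n (n (n (n (n (l 318) (l 0)) (l 0)) (l 0)) (l 0)) (l 0)))) (n (n (n (n (n (n (n (l 292) (l 0)) (l 0)) (l 0)) (l 0)) (l 0)) (l 0)) (l 0)))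

def r98 : Tr ℕ := (n (n (n (n (n (n (n (n (l 266) (l 0)) (l 0)) (l 0)) (l 0)) (l 0)) (l 0)) (n (l 0) (n (n (n (n (n (l 318) (l 0)) (l 0)) (l 0)) (l 0)) (l 0)))) (n (n (n (n (n (n (n (l 292) (l 0)) (l 0)) (l 0)) (l 0)) (l 0)) (l 0)) (n (l 0) (n (n (n (n (n (l 318) (l 0)) (l 0)) (l 0)) (l 0)) (l 0)))))

def r99 : Tr ℕ := (n (n (n (l 0) (n (n (n (n (n (l 313) (l 0)) (l 0)) (l 0)) (l 0)) (l 0))) (l 0)) (n (n (n (n (n (n (n (l 291) (l 0)) (l 0)) (l 0)) (l 0)) (l 0)) (l 0)) (n (n (l 0) (n (n (n (n (l 329) (l 0)) (l 0)) (n (n (l 333) (l 0)) (l 0))) (l 0))) (n (n (n (n (n (l 317) (l 0)) (l 0)) (l 0)) (l 0)) (l 0)))))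

def r100 : Tr ℕ := (n (n (n (n (n (n (n (n (l 266) (l 0)) (l 0)) (l 0)) (l 0)) (l 0)) (l 0)) (n (l 0) (n (n (n (n (n (l 318) (l 0)) (l 0)) (l 0)) (l 0)) (l 0)))) (n (n (n (n (n (n (n (l 292) (l 0)) (l 0)) (l 0)) (l 0)) (l 0)) (l 0)) (n (l 0) (n (n (n (n (n (l 318) (l 0)) (l 0)) (l 0)) (l 0)) (l 0)))))

def r101 : Tr ℕ := (n (n (n (n (n (n (n (n (l 266) (l 0)) (l 0)) (l 0)) (n (n (n (l 331) (l 0)) (l 0)) (l 0))) (l 0)) (n (n (n (n (n (l 81947442) (l 0)) (l 0)) (l 0)) (l 0)) (l 0))) (n (n (l 0) (n (n (l 0) (n (n (l 333) (l 0)) (l 0))) (l 0))) (l 0))) (n (l 0) (n (n (l 0) (n (n (n (n (l 329) (l 0)) (l 0)) (n (n (l 333) (l 0)) (l 0))) (l 0))) (n (n (n (n (n (l 318) (l 0)) (l 0)) (l 0)) (l 0)) (l 0)))))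

def r102 : Tr ℕ := (n (n (l 0) (n (n (n (n (l 0) (n (n (l 333) (l 0)) (l 0))) (l 0)) (n (n (n (n (l 328) (l 0)) (l 0)) (l 0)) (l 0))) (l 0))) (n (n (n (n (n (n (n (l 297) (l 0)) (l 0)) (l 0)) (l 0)) (n (n (n (n (l 168775) (l 0)) (l 0)) (l 0)) (l 0))) (l 0)) (n (n (n (n (n (n (l 312) (l 0)) (l 0)) (n (n (l 170829) (l 0)) (l 0))) (l 0)) (l 0)) (n (n (n (n (n (l 321) (l 0)) (l 0)) (l 0)) (l 0)) (n (n (n (n (l 331) (l 0)) (l 0)) (l 0)) (l 0))))))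

def r103 : Tr ℕ := (n (n (n (n (n (n (n (n (l 272) (l 0)) (l 0)) (l 0)) (l 0)) (l 0)) (l 0)) (n (n (n (n (l 0) (n (n (l 333) (l 0)) (l 0))) (l 0)) (n (n (n (n (l 327) (l 0)) (l 0)) (l 0)) (l 0))) (n (n (n (l 0) (n (n (l 334) (l 0)) (l 0))) (l 0)) (n (n (n (n (l 331) (l 0)) (l 0)) (l 0)) (l 0))))) (n (n (n (n (n (n (n (l 299) (l 0)) (l 0)) (l 0)) (l 0)) (n (n (n (n (l 327) (l 0)) (l 0)) (l 0)) (l 0))) (n (n (n (l 0) (n (n (l 333) (l 0)) (l 0))) (l 0)) (l 0))) (n (n (n (n (n (n (l 81422641) (l 0)) (l 0)) (n (n (l 333) (l 0)) (l 0))) (l 0)) (l 0)) (n (n (n (n (n (l 321) (l 0)) (l 0)) (l 0)) (l 0)) (l 0)))))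

def r104 : Tr ℕ := (n (n (n (n (n (n (n (n (l 271) (l 0)) (l 0)) (l 0)) (l 0)) (l 0)) (l 0)) (n (n (l 0) (n (n (n (n (l 328) (l 0)) (l 0)) (l 0)) (l 0))) (n (n (n (l 0) (n (n (l 333) (l 0)) (l 0))) (l 0)) (l 0)))) (n (n (n (n (n (n (n (l 152360) (l 0)) (l 0)) (l 0)) (l 0)) (n (n (n (n (l 329) (l 0)) (l 0)) (l 0)) (l 0))) (l 0)) (n (n (n (n (n (n (l 81947443) (l 0)) (l 0)) (n (n (l 333) (l 0)) (l 0))) (l 0)) (l 0)) (n (l 0) (n (n (n (n (l 331) (l 0)) (l 0)) (l 0)) (l 0))))))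

def r105 : Tr ℕ := (n (n (n (n (n (n (n (n (l 271) (l 0)) (l 0)) (l 0)) (l 0)) (l 0)) (l 0)) (l 0)) (n (n (n (n (n (n (n (l 298) (l 0)) (l 0)) (l 0)) (l 0)) (n (n (n (n (l 328) (l 0)) (l 0)) (l 0)) (l 0))) (l 0)) (n (n (n (n (l 0) (n (n (l 334) (l 0)) (l 0))) (l 0)) (l 0)) (n (n (n (n (n (l 322) (l 0)) (l 0)) (l 0)) (l 0)) (l 0)))))

def r106 : Tr ℕ := (n (n (n (n (n (n (n (n (l 275) (l 0)) (l 0)) (l 0)) (l 0)) (n (n (l 0) (n (n (l 333) (l 0)) (l 0))) (l 0))) (n (n (n (l 0) (n (n (l 333) (l 0)) (l 0))) (l 0)) (l 0))) (n (n (n (n (l 0) (n (n (l 170829) (l 0)) (l 0))) (l 0)) (n (n (n (n (l 329) (l 0)) (l 0)) (l 0)) (l 0))) (n (n (n (n (n (l 321) (l 0)) (l 0)) (l 0)) (l 0)) (n (n (n (n (l 331) (l 0)) (l 0)) (l 0)) (l 0))))) (n (n (n (n (n (n (n (l 153385) (l 0)) (l 0)) (l 0)) (l 0)) (n (n (n (n (l 168775) (l 0)) (l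 0)) (l 0)) (l 0))) (n (n (n (l 0) (n (n (l 333) (l 0)) (l 0))) (l 0)) (l 0))) (n (n (n (n (n (n (l 81947956) (l 0)) (l 0)) (n (n (l 170829) (l 0)) (l 0))) (l 0)) (l 0)) (n (n (n (n (n (l 164673) (l 0)) (l 0)) (n (n (l 333) (l 0)) (l 0))) (l 0)) (n (n (n (n (l 331) (l 0)) (l 0)) (l 0)) (l 0))))))

def r107 : Tr ℕ := (n (n (n (n (n (n (n (n (l 275) (l 0)) (l 0)) (l 0)) (l 0)) (l 0)) (l 0)) (n (l 0) (n (n (n (n (n (l 321) (l 0)) (l 0)) (n (n (l 333) (l 0)) (l 0))) (l 0)) (l 0)))) (n (n (n (n (n (n (n (l 297) (l 0)) (l 0)) (l 0)) (l 0)) (n (n (n (n (l 329) (l 0)) (l 0)) (l 0)) (l 0))) (l 0)) (n (n (n (n (n (n (l 310) (l 0)) (l 0)) (n (n (l 333) (l 0)) (l 0))) (l 0)) (l 0)) (n (n (n (n (n (l 321) (l 0)) (l 0)) (n (n (l 333) (l 0)) (l 0))) (l 0)) (l 0)))))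

def r108 : Tr ℕ := (n (n (n (n (l 0) (n (n (l 0) (n (n (l 170829) (l 0)) (l 0))) (l 0))) (n (n (n (l 0) (n (n (l 333) (l 0)) (l 0))) (l 0)) (l 0))) (n (n (n (n (l 0) (n (n (l 170829) (l 0)) (l 0))) (l 0)) (n (n (n (n (l 329) (l 0)) (l 0)) (l 0)) (l 0))) (n (n (n (n (n (l 321) (l 0)) (l 0)) (l 0)) (l 0)) (n (n (n (n (l 331) (l 0)) (l 0)) (l 0)) (l 0))))) (n (n (n (n (n (n (n (l 299) (l 0)) (l 0)) (l 0)) (l 0)) (l 0)) (l 0)) (n (n (n (n (n (n (l 81947956) (l 0)) (l 0)) (l 0)) (l 0)) (l 0)) (n (n (n (l 0) (n (n (l 333) (l 0)) (l 0))) (l 0)) (n (n (n (n (l 331) (l 0)) (l 0)) (l 0)) (l 0))))))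

def r109 : Tr ℕ := (n (n (n (n (n (n (n (n (l 275) (l 0)) (l 0)) (l 0)) (l 0)) (n (n (l 0) (n (n (l 334) (l 0)) (l 0))) (l 0))) (l 0)) (n (l 0) (n (l 0) (n (n (n (n (l 332) (l 0)) (l 0)) (l 0)) (l 0))))) (n (n (n (n (n (n (n (l 153895) (l 0)) (l 0)) (l 0)) (l 0)) (n (n (n (n (l 329) (l 0)) (l 0)) (l 0)) (l 0))) (l 0)) (n (n (n (n (n (n (l 310) (l 0)) (l 0)) (n (n (l 333) (l 0)) (l 0))) (l 0)) (l 0)) (n (n (n (n (n (l 321) (l 0)) (l 0)) (l 0)) (l 0)) (l 0)))))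

def r110 : Tr ℕ := (n (n (l 0) (n (l 0) (n (n (n (n (n (l 326) (l 0)) (l 0)) (l 0)) (l 0)) (l 0)))) (n (n (n (n (n (n (n (l 304) (l 0)) (l 0)) (l 0)) (l 0)) (l 0)) (l 0)) (l 0)))

def r111 : Tr ℕ := (n (n (n (n (n (n (n (n (l 279) (l 0)) (l 0)) (l 0)) (l 0)) (l 0)) (l 0)) (l 0)) (l 0))

def r112 : Tr ℕ := (n (n (n (n (n (n (n (n (l 282) (l 0)) (l 0)) (l 0)) (l 0)) (l 0)) (l 0)) (n (l 0) (n (n (n (n (n (l 325) (l 0)) (l 0)) (l 0)) (l 0)) (l 0)))) (n (n (n (n (n (n (n (l 303) (l 0)) (l 0)) (l 0)) (l 0)) (l 0)) (l 0)) (n (l 0) (n (n (n (n (n (l 325) (l 0)) (l 0)) (l 0)) (l 0)) (l 0)))))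

def r113 : Tr ℕ := (n (n (n (n (n (n (n (n (l 280) (l 0)) (l 0)) (n (n (l 334) (l 0)) (l 0))) (l 0)) (l 0)) (l 0)) (n (n (n (n (n (n (l 160567) (l 0)) (l 0)) (l 0)) (l 0)) (l 0)) (l 0))) (n (n (n (n (n (n (n (l 304) (l 0)) (l 0)) (l 0)) (l 0)) (l 0)) (n (l 0) (n (n (n (n (l 332) (l 0)) (l 0)) (l 0)) (l 0)))) (n (l 0) (n (n (n (n (n (l 326) (l 0)) (l 0)) (l 0)) (l 0)) (l 0)))))

def r114 : Tr ℕ := (n (n (n (n (n (n (n (n (l 281) (l 0)) (l 0)) (n (n (l 334) (l 0)) (l 0))) (l 0)) (n (n (n (n (l 330) (l 0)) (l 0)) (l 0)) (l 0))) (l 0)) (n (n (n (n (n (n (l 311) (l 0)) (l 0)) (l 0)) (l 0)) (l 0)) (n (n (n (n (n (l 326) (l 0)) (l 0)) (l 0)) (l 0)) (l 0)))) (n (n (n (n (n (n (n (l 304) (l 0)) (l 0)) (n (n (l 334) (l 0)) (l 0))) (l 0)) (l 0)) (n (l 0) (n (n (n (n (l 332) (l 0)) (l 0)) (l 0)) (l 0)))) (n (l 0) (n (n (n (n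 (n (l 326) (l 0)) (l 0)) (l 0)) (l 0)) (l 0)))))

def r115 : Tr ℕ := (n (n (n (n (n (n (n (n (l 285) (l 0)) (l 0)) (l 0)) (l 0)) (l 0)) (n (l 0) (n (n (n (n (l 331) (l 0)) (l 0)) (l 0)) (l 0)))) (n (l 0) (n (n (n (n (n (l 168775) (l 0)) (l 0)) (l 0)) (l 0)) (n (l 0) (n (n (n (l 333) (l 0)) (l 0)) (l 0)))))) (n (n (n (n (n (n (n (l 160053) (l 0)) (l 0)) (l 0)) (l 0)) (l 0)) (n (l 0) (n (l 0) (n (n (n (l 333) (l 0)) (l 0)) (l 0))))) (l 0)))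

def r116 : Tr ℕ := (n (n (n (n (n (n (n (n (l 286) (l 0)) (l 0)) (l 0)) (l 0)) (l 0)) (l 0)) (l 0)) (n (n (n (n (n (n (n (l 159025) (l 0)) (l 0)) (l 0)) (l 0)) (l 0)) (l 0)) (l 0)))

def r117 : Tr ℕ := (n (n (n (l 0) (n (l 0) (n (n (n (n (l 332) (l 0)) (l 0)) (l 0)) (l 0)))) (l 0)) (n (n (n (n (n (n (n (l 311) (l 0)) (l 0)) (l 0)) (l 0)) (l 0)) (n (l 0) (n (l 0) (n (n (n (l 334) (l 0)) (l 0)) (l 0))))) (n (l 0) (n (n (n (n (n (l 330) (l 0)) (l 0)) (l 0)) (l 0)) (l 0)))))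

def r118 : Tr ℕ := (n (n (n (n (n (n (n (n (l 292) (l 0)) (l 0)) (l 0)) (l 0)) (l 0)) (n (n (n (n (n (l 316) (l 0)) (l 0)) (l 0)) (l 0)) (n (l 0) (n (n (n (l 333) (l 0)) (l 0)) (l 0))))) (l 0)) (n (n (l 0) (n (n (n (n (n (l 318) (l 0)) (l 0)) (l 0)) (l 0)) (l 0))) (n (n (l 0) (n (n (n (n (l 331) (l 0)) (l 0)) (l 0)) (l 0))) (l 0))))

def r119 : Tr ℕ := (n (n (n (n (n (n (n (n (l 292) (l 0)) (l 0)) (l 0)) (l 0)) (l 0)) (l 0)) (l 0)) (n (n (l 0) (n (n (n (n (n (l 318) (l 0)) (l 0)) (l 0)) (l 0)) (l 0))) (l 0)))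

def r120 : Tr ℕ := (n (n (n (n (n (n (n (n (l 152360) (l 0)) (l 0)) (l 0)) (l 0)) (l 0)) (l 0)) (n (n (l 0) (n (l 0) (n (n (n (l 333) (l 0)) (l 0)) (l 0)))) (l 0))) (n (l 0) (n (n (n (n (n (n (l 315) (l 0)) (l 0)) (l 0)) (l 0)) (n (l 0) (n (n (n (l 334) (l 0)) (l 0)) (l 0)))) (l 0))))

def r121 : Tr ℕ := (n (n (n (n (n (n (n (n (l 299) (l 0)) (l 0)) (l 0)) (l 0)) (l 0)) (l 0)) (l 0)) (n (n (l 0) (n (n (n (n (n (l 321) (l 0)) (l 0)) (l 0)) (l 0)) (l 0))) (n (n (l 0) (n (l 0) (n (n (n (l 333) (l 0)) (l 0)) (l 0)))) (l 0))))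

def r122 : Tr ℕ := (n (n (n (n (l 0) (n (n (n (n (l 331) (l 0)) (l 0)) (l 0)) (n (n (n (l 333) (l 0)) (l 0)) (l 0)))) (l 0)) (n (n (n (n (n (n (l 316) (l 0)) (l 0)) (l 0)) (l 0)) (l 0)) (l 0))) (l 0))

def r123 : Tr ℕ := (n (n (n (n (n (n (n (n (l 306) (l 0)) (l 0)) (l 0)) (l 0)) (l 0)) (l 0)) (l 0)) (n (n (l 0) (n (n (n (n (n (l 328) (l 0)) (l 0)) (l 0)) (l 0)) (l 0))) (l 0)))

def r124 : Tr ℕ := (n (n (n (n (n (n (n (n (l 307) (l 0)) (l 0)) (l 0)) (l 0)) (l 0)) (l 0)) (n (l 0) (n (n (l 0) (n (n (n (l 334) (l 0)) (l 0)) (l 0))) (l 0)))) (n (n (l 0) (n (n (n (n (n (l 328) (l 0)) (l 0)) (l 0)) (l 0)) (l 0))) (n (l 0) (n (n (n (n (n (l 332) (l 0)) (l 0)) (l 0)) (l 0)) (l 0)))))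

def r125 : Tr ℕ := (n (n (n (n (n (n (n (n (l 160052) (l 0)) (l 0)) (l 0)) (l 0)) (l 0)) (l 0)) (n (l 0) (n (n (n (n (n (l 331) (l 0)) (l 0)) (l 0)) (n (n (n (l 170829) (l 0)) (l 0)) (l 0))) (l 0)))) (n (n (l 0) (n (n (n (n (n (l 168775) (l 0)) (l 0)) (l 0)) (n (n (n (l 333) (l 0)) (l 0)) (l 0))) (l 0))) (n (l 0) (n (n (n (n (n (l 331) (l 0)) (l 0)) (l 0)) (l 0)) (l 0)))))

def r126 : Tr ℕ := (n (l 0) (n (l 0) (n (n (n (n (n (n (l 318) (l 0)) (l 0)) (l 0)) (l 0)) (l 0)) (l 0))))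

def r127 : Tr ℕ := (n (n (n (l 0) (n (n (n (n (n (l 167236) (l 0)) (l 0)) (l 0)) (l 0)) (l 0))) (n (n (n (l 0) (n (n (n (l 334) (l 0)) (l 0)) (l 0))) (l 0)) (l 0))) (l 0))

def r128 : Tr ℕ := (n (n (n (l 0) (n (n (n (n (n (l 326) (l 0)) (l 0)) (l 0)) (l 0)) (l 0))) (n (n (n (n (n (n (l 318) (l 0)) (l 0)) (l 0)) (n (n (n (l 334) (l 0)) (l 0)) (l 0))) (l 0)) (l 0))) (n (l 0) (n (n (n (l 0) (n (n (n (l 333) (l 0)) (l 0)) (l 0))) (l 0)) (l 0))))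

def r130 : Tr ℕ := (n (n (l 0) (n (n (n (n (n (n (l 163646) (l 0)) (l 0)) (l 0)) (l 0)) (l 0)) (l 0))) (n (l 0) (n (n (n (l 0) (n (n (n (l 333) (l 0)) (l 0)) (l 0))) (l 0)) (l 0))))

def r131 : Tr ℕ := (n (l 0) (n (l 0) (n (n (n (n (n (n (l 325) (l 0)) (l 0)) (l 0)) (l 0)) (l 0)) (l 0))))

def r132 : Tr ℕ := (n (l 0) (n (n (n (n (n (n (n (l 317) (l 0)) (l 0)) (l 0)) (l 0)) (l 0)) (l 0)) (l 0)))

def r133 : Tr ℕ := (n (l 0) (n (n (n (n (n (n (n (l 317) (l 0)) (l 0)) (l 0)) (l 0)) (l 0)) (l 0)) (l 0)))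

def r134 : Tr ℕ := (n (n (n (n (n (l 0) (n (n (n (l 333) (l 0)) (l 0)) (l 0))) (l 0)) (n (n (n (n (n (l 168776) (l 0)) (l 0)) (l 0)) (l 0)) (l 0))) (l 0)) (l 0))

def r135 : Tr ℕ := (n (l 0) (n (l 0) (n (n (n (n (n (n (l 328) (l 0)) (l 0)) (l 0)) (l 0)) (l 0)) (l 0))))

def r136 : Tr ℕ := (n (l 0) (n (l 0) (n (n (n (n (n (n (l 329) (l 0)) (l 0)) (l 0)) (l 0)) (l 0)) (n (l 0) (n (n (n (n (l 333) (l 0)) (l 0)) (l 0)) (l 0))))))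

def r137 : Tr ℕ := (n (n (l 0) (n (l 0) (n (l 0) (n (n (n (n (l 333) (l 0)) (l 0)) (l 0)) (l 0))))) (n (n (n (n (n (n (n (l 321) (l 0)) (l 0)) (l 0)) (l 0)) (l 0)) (l 0)) (n (n (n (n (n (n (l 168775) (l 0)) (l 0)) (l 0)) (l 0)) (l 0)) (n (l 0) (n (n (n (n (l 333) (l 0)) (l 0)) (l 0)) (l 0))))))

def r138 : Tr ℕ := (n (l 0) (n (n (n (n (n (n (n (l 322) (l 0)) (l 0)) (l 0)) (l 0)) (l 0)) (l 0)) (n (n (n (n (n (n (l 168776) (l 0)) (l 0)) (l 0)) (l 0)) (l 0)) (l 0))))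

def r140 : Tr ℕ := (n (l 0) (n (n (n (n (n (n (n (l 326) (l 0)) (l 0)) (l 0)) (l 0)) (l 0)) (l 0)) (l 0)))

def r141 : Tr ℕ := (n (n (l 0) (n (n (n (n (n (n (l 330) (l 0)) (l 0)) (l 0)) (l 0)) (l 0)) (l 0))) (n (n (l 0) (n (l 0) (n (n (n (n (l 334) (l 0)) (l 0)) (l 0)) (l 0)))) (l 0)))

def r143 : Tr ℕ := (n (l 0) (n (n (n (n (n (n (n (l 327) (l 0)) (l 0)) (l 0)) (l 0)) (l 0)) (l 0)) (l 0)))

def r144 : Tr ℕ := (n (n (n (l 0) (n (l 0) (n (n (n (n (l 334) (l 0)) (l 0)) (l 0)) (l 0)))) (l 0)) (n (n (n (n (n (n (n (l 330) (l 0)) (l 0)) (l 0)) (l 0)) (l 0)) (l 0)) (l 0)))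

def r145 : Tr ℕ := (n (n (n (n (n (n (n (n (l 317) (l 0)) (l 0)) (l 0)) (l 0)) (l 0)) (l 0)) (l 0)) (l 0))

def r146 : Tr ℕ := (n (n (n (n (n (n (n (n (l 318) (l 0)) (l 0)) (l 0)) (l 0)) (l 0)) (n (n (n (n (n (l 331) (l 0)) (l 0)) (l 0)) (l 0)) (l 0))) (l 0)) (n (l 0) (n (n (l 0) (n (n (n (n (l 333) (l 0)) (l 0)) (l 0)) (l 0))) (l 0))))

def r147 : Tr ℕ := (n (n (n (n (n (n (n (n (l 321) (l 0)) (l 0)) (l 0)) (l 0)) (l 0)) (l 0)) (l 0)) (n (l 0) (n (n (n (n (n (n (l 332) (l 0)) (l 0)) (l 0)) (l 0)) (l 0)) (l 0))))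

def r148 : Tr ℕ := (n (n (n (n (n (n (n (n (l 321) (l 0)) (l 0)) (l 0)) (l 0)) (l 0)) (l 0)) (l 0)) (n (n (n (l 0) (n (n (n (n (l 333) (l 0)) (l 0)) (l 0)) (l 0))) (l 0)) (l 0)))

def r149 : Tr ℕ := (n (n (n (n (n (n (n (n (l 321) (l 0)) (l 0)) (l 0)) (l 0)) (l 0)) (l 0)) (n (n (l 0) (n (n (n (n (l 333) (l 0)) (l 0)) (l 0)) (l 0))) (l 0))) (l 0))

def r150 : Tr ℕ := (n (n (n (n (l 0) (n (n (n (n (l 333) (l 0)) (l 0)) (l 0)) (l 0))) (l 0)) (n (n (n (n (n (n (l 331) (l 0)) (l 0)) (l 0)) (l 0)) (l 0)) (l 0))) (l 0))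

def r151 : Tr ℕ := (n (n (n (n (n (n (n (n (l 325) (l 0)) (l 0)) (l 0)) (l 0)) (l 0)) (l 0)) (l 0)) (l 0))

def r152 : Tr ℕ := (n (n (n (n (n (n (n (n (l 327) (l 0)) (l 0)) (l 0)) (l 0)) (l 0)) (l 0)) (l 0)) (l 0))

def r153 : Tr ℕ := (n (n (n (n (n (n (n (n (l 328) (l 0)) (l 0)) (l 0)) (l 0)) (l 0)) (l 0)) (n (l 0) (n (n (n (n (n (l 334) (l 0)) (l 0)) (l 0)) (l 0)) (l 0)))) (n (n (n (n (n (n (n (l 332) (l 0)) (l 0)) (l 0)) (l 0)) (l 0)) (l 0)) (l 0)))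

def r154 : Tr ℕ := (n (n (n (n (n (n (n (n (l 327) (l 0)) (l 0)) (l 0)) (l 0)) (l 0)) (l 0)) (l 0)) (l 0))

def r155 : Tr ℕ := (n (n (n (n (n (n (n (n (l 330) (l 0)) (l 0)) (l 0)) (l 0)) (l 0)) (l 0)) (n (l 0) (n (n (n (n (n (l 334) (l 0)) (l 0)) (l 0)) (l 0)) (l 0)))) (n (n (n (n (n (n (n (l 332) (l 0)) (l 0)) (l 0)) (l 0)) (l 0)) (l 0)) (n (l 0) (n (n (n (n (n (l 334) (l 0)) (l 0)) (l 0)) (l 0)) (l 0)))))

def r156 : Tr ℕ := (n (n (n (n (n (n (n (n (l 329) (l 0)) (l 0)) (l 0)) (l 0)) (l 0)) (l 0)) (n (l 0) (n (n (n (n (n (l 333) (l 0)) (l 0)) (l 0)) (l 0)) (l 0)))) (l 0))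

def r157 : Tr ℕ := (n (n (n (n (n (n (n (n (l 332) (l 0)) (l 0)) (l 0)) (l 0)) (l 0)) (l 0)) (l 0)) (n (n (l 0) (n (n (n (n (n (l 334) (l 0)) (l 0)) (l 0)) (l 0)) (l 0))) (l 0)))

def r159 : Tr ℕ := (n (n (n (l 0) (n (n (n (n (n (l 333) (l 0)) (l 0)) (l 0)) (l 0)) (l 0))) (l 0)) (l 0))

def r160 : Tr ℕ := (n (l 0) (n (l 0) (n (n (n (n (n (n (l 333) (l 0)) (l 0)) (l 0)) (l 0)) (l 0)) (l 0))))

def r161 : Tr ℕ := (n (n (l 0) (n (n (n (n (n (n (l 333) (l 0)) (l 0)) (l 0)) (l 0)) (l 0)) (l 0))) (l 0))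

def r164 : Tr ℕ := (n (l 0) (n (n (n (n (n (n (n (l 333) (l 0)) (l 0)) (l 0)) (l 0)) (l 0)) (l 0)) (l 0)))

def r165 : Tr ℕ := (n (n (n (n (n (n (n (n (l 333) (l 0)) (l 0)) (l 0)) (l 0)) (l 0)) (l 0)) (l 0)) (l 0))

def RT : Tr (Tr ℕ) := (n (n (n (n (n (n (n (n (l r0) (l r128)) (n (l r64) (l (l 0)))) (n (n (l r32) (l r160)) (n (l r96) (l (l 0))))) (n (n (n (l r16) (l r144)) (n (l r80) (l (l 0)))) (n (n (l r48) (l (l 0))) (n (l r112) (l (l 0)))))) (n (n (n (n (l r8) (l r136)) (n (l r72) (l (l 0)))) (n (n (l r40) (l (l 0))) (n (l r104) (l (l 0))))) (n (n (n (l r24) (l r152)) (n (l r88) (l (l 0)))) (n (n (l r56) (l (l 0))) (n (l r120) (l (l 0))))))) (n (n (n (n (n (l r4) (l r132)) (n (l r68) (l (l 0)))) (n (n (l r36) (l r164)) (n (l r100) (l (l 0))))) (n (n (n (l r20) (l r148)) (n (l r84) (l (l 0)))) (n (n (l r52) (l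 (l 0))) (n (l r116) (l (l 0)))))) (n (n (n (n (l r12) (l r140)) (n (l r76) (l (l 0)))) (n (n (l r44) (l (l 0))) (n (l r108) (l (l 0))))) (n (n (n (l r28) (l r156)) (n (l r92) (l (l 0)))) (n (n (l r60) (l (l 0))) (n (l r124) (l (l 0)))))))) (n (n (n (n (n (n (l r2) (l r130)) (n (l r66) (l (l 0)))) (n (n (l r34) (l (l 0))) (n (l r98) (l (l 0))))) (n (n (n (l r18) (l r146)) (n (l r82) (l (l 0)))) (n (n (l r50) (l (l 0))) (n (l r114) (l (l 0)))))) (n (n (n (n (l r10) (l r138)) (n (l r74) (l (l 0)))) (n (n (l r42) (l (l 0))) (n (l r106) (l (l 0))))) (n (n (n (l r26) (l r154)) (n (l r90) (l (l 0)))) (n (n (l r58) (l (l 0))) (n (l r122) (l (l 0))))))) (n (n (n (n (n (l r6) (l r134)) (n (l r70) (l (l 0)))) (n (n (l r38) (l (l 0))) (n (l r102) (l (l 0))))) (n (n (n (l r22) (l r150)) (n (l r86) (l (l 0)))) (n (n (l r54) (l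 (l 0))) (n (l r118) (l (l 0)))))) (n (n (n (n (l r14) (l (l 0))) (l (l 0))) (n (n (l r46) (l (l 0))) (n (l r110) (l (l 0))))) (n (n (n (l r30) (l (l 0))) (n (l r94) (l (l 0)))) (n (n (l r62) (l (l 0))) (n (l r126) (l (l 0))))))))) (n (n (n (n (n (n (n (l r1) (l (l 0))) (n (l r65) (l (l 0)))) (n (n (l r33) (l r161)) (n (l r97) (l (l 0))))) (n (n (n (l r17) (l r145)) (n (l r81) (l (l 0)))) (n (n (l r49) (l (l 0))) (n (l r113) (l (l 0)))))) (n (n (n (n (l r9) (l r137)) (n (l r73) (l (l 0)))) (n (n (l r41) (l (l 0))) (n (l r105) (l (l 0))))) (n (n (n (l r25) (l r153)) (n (l r89) (l (l 0)))) (n (n (l r57) (l (l 0))) (n (l r121) (l (l 0))))))) (n (n (n (n (n (l r5) (l r133)) (n (l r69) (l (l 0)))) (n (n (l r37) (l r165)) (n (l r101) (l (l 0))))) (n (n (n (l r21) (l r149)) (n (l r85) (l (l 0)))) (n (n (l r53) (l (l 0)))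 (n (l r117) (l (l 0)))))) (n (n (n (n (l r13) (l r141)) (n (l r77) (l (l 0)))) (n (n (l r45) (l (l 0))) (n (l r109) (l (l 0))))) (n (n (n (l r29) (l r157)) (n (l r93) (l (l 0)))) (n (n (l r61) (l (l 0))) (n (l r125) (l (l 0)))))))) (n (n (n (n (n (n (l r3) (l r131)) (n (l r67) (l (l 0)))) (n (n (l r35) (l (l 0))) (n (l r99) (l (l 0))))) (n (n (n (l r19) (l r147)) (l (l 0))) (n (n (l r51) (l (l 0))) (n (l r115) (l (l 0)))))) (n (n (n (n (l r11) (l (l 0))) (n (l r75) (l (l 0)))) (n (n (l r43) (l (l 0))) (n (l r107) (l (l 0))))) (n (n (n (l r27) (l r155)) (n (l r91) (l (l 0)))) (n (n (l r59) (l (l 0))) (n (l r123) (l (l 0))))))) (n (n (n (n (n (l r7) (l r135)) (n (l r71) (l (l 0)))) (n (n (l r39) (l (l 0))) (n (l r103) (l (l 0))))) (n (n (n (l r23) (l r151)) (n (l r87) (l (l 0)))) (n (n (l r55) (l (l 0))) (n (l r119)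 (l (l 0)))))) (n (n (n (n (l r15) (l r143)) (n (l r79) (l (l 0)))) (n (n (l r47) (l (l 0))) (n (l r111) (l (l 0))))) (n (n (n (l r31) (l r159)) (n (l r95) (l (l 0)))) (n (n (l r63) (l (l 0))) (n (l r127) (l (l 0))))))))))

def DT : Tr ℕ := (n (n (n (n (n (n (n (n (l 1) (l 4130)) (n (l 34) (l 0))) (n (n (l 273) (l 65826)) (n (l 65569) (l 0)))) (n (n (n (l 65552) (l 69890)) (n (l 65794) (l 0))) (n (n (l 65793) (l 0)) (n (l 69649) (l 0))))) (n (n (n (n (l 257) (l 65810)) (n (l 4114) (l 0))) (n (n (l 4113) (l 0)) (n (l 65809) (l 0)))) (n (n (n (l 258) (l 69905)) (n (l 289) (l 0))) (n (n (l 4368) (l 0)) (n (l 65824) (l 0)))))) (n (n (n (n (n (l 65536) (l 4370)) (n (l 4114) (l 0))) (n (n (l 4113) (l 69906)) (n (l 4369) (l 0)))) (n (n (n (l 69632) (l 65825)) (n (l 69634) (l 0))) (n (n (l 4128) (l 0)) (n (l 69889) (l 0)))))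 (n (n (n (n (l 32) (l 69650)) (n (l 65554) (l 0))) (n (n (l 4353) (l 0)) (n (l 65809) (l 0)))) (n (n (n (l 65538) (l 69905)) (n (l 4129) (l 0))) (n (n (l 69648) (l 0)) (n (l 69904) (l 0))))))) (n (n (n (n (n (n (l 256) (l 4130)) (n (l 274) (l 0))) (n (n (l 4113) (l 69666)) (n (l 4369) (l 0)))) (n (n (n (l 65792) (l 4385)) (n (l 65794) (l 0))) (n (n (l 69633) (l 0)) (n (l 69649) (l 0))))) (n (n (n (n (l 4097) (l 65810)) (n (l 4114) (l 0))) (n (n (l 65553) (l 0)) (n (l 65809) (l 0)))) (n (n (n (l 4098) (l 69905)) (n (l 4129) (l 0))) (n (n (l 65808) (l 0)) (n (l 69664) (l 0)))))) (n (n (n (n (n (l 17) (l 4370)) (n (l 4114) (l 0))) (n (n (l 4113) (l 69922)) (n (l 65809) (l 0)))) (n (n (n (l 18) (l 69665)) (n (l 289) (l 0))) (n (n (l 65568) (l 0)) (n (l 4384) (l 0))))) (n (n (n (n (l 4112) (l 69890)) (n (l 4354) (l 0)))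 (n (n (l 65793) (l 0)) (n (l 69649) (l 0)))) (n (n (n (l 33) (l 4386)) (n (l 4129) (l 0))) (n (n (l 69888) (l 0)) (n (l 290) (l 0)))))))) (n (n (n (n (n (n (n (l 16) (l 4130)) (n (l 274) (l 0))) (n (n (l 273) (l 69666)) (n (l 4369) (l 0)))) (n (n (n (l 4352) (l 4385)) (n (l 65794) (l 0))) (n (n (l 69633) (l 0)) (n (l 69649) (l 0))))) (n (n (n (n (l 4097) (l 65810)) (n (l 4114) (l 0))) (n (n (l 65553) (l 0)) (n (l 65809) (l 0)))) (n (n (n (l 4098) (l 69905)) (n (l 4129) (l 0))) (n (n (l 65808) (l 0)) (n (l 65824) (l 0)))))) (n (n (n (n (n (l 2) (l 4370)) (n (l 4114) (l 0))) (n (n (l 4113) (l 69921)) (n (l 4369) (l 0)))) (n (n (n (l 18) (l 65825)) (n (l 69634) (l 0))) (n (n (l 4128) (l 0)) (n (l 69889) (l 0))))) (n (n (n (n (l 272) (l 69650)) (n (l 65554) (l 0))) (n (n (l 4353) (l 0)) (n (l 65809) (l 0)))) (n (n (n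 (l 33) (l 69920)) (n (l 4129) (l 0))) (n (n (l 69648) (l 0)) (n (l 69904) (l 0))))))) (n (n (n (n (n (n (l 4096) (l 65570)) (n (l 4114) (l 0))) (n (n (l 4113) (l 69906)) (n (l 4369) (l 0)))) (n (n (n (l 65792) (l 65825)) (n (l 69634) (l 0))) (n (n (l 288) (l 0)) (n (l 69889) (l 0))))) (n (n (n (n (l 65537) (l 69650)) (n (l 65554) (l 0))) (n (n (l 65553) (l 0)) (n (l 65809) (l 0)))) (n (n (n (l 4098) (l 69905)) (n (l 4129) (l 0))) (n (n (l 65808) (l 0)) (n (l 69904) (l 0)))))) (n (n (n (n (n (l 17) (l 65810)) (n (l 4114) (l 0))) (n (n (l 4113) (l 0)) (n (l 65809) (l 0)))) (n (n (n (l 18) (l 69665)) (n (l 289) (l 0))) (n (n (l 4368) (l 0)) (n (l 4384) (l 0))))) (n (n (n (n (l 4112) (l 69890)) (n (l 4354) (l 0))) (n (n (l 65793) (l 0)) (n (l 69649) (l 0)))) (n (n (n (l 273) (l 4386)) (n (l 65569) (l 0))) (n (n (l 34)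 (l 0)) (n (l 4130) (l 0)))))))))

def comps : List (ℕ × List ℕ) := [(1, [0]), (16, [1]), (256, [2]), (4096, [3]), (65536, [4]), (2, [5]), (17, [6, 7]), (257, [8]), (4097, [9, 10]), (65537, [11]), (32, [12]), (272, [13]), (4112, [14, 15]), (65552, [16]), (4352, [17]), (65792, [18, 19]), (69632, [20]), (18, [21, 22, 23]), (258, [24]), (4098, [25, 26, 27]), (65538, [28]), (33, [29, 30]), (273, [31, 32, 33]), (4113, [34, 35, 36, 37, 38, 39, 40]), (65553, [41, 42, 43]), (4353, [44, 45]), (65793, [46, 47, 48]), (69633, [49, 50]), (288, [51]), (4128, [52, 53]), (65568, [54]), (4368, [55, 56]), (65808, [57, 58, 59]), (69648, [60, 61]), (69888, [62]), (34, [63, 64]), (274, [65, 66]), (4114, [67, 68, 69, 70, 71, 72, 73, 74]), (65554, [75, 76, 77]), (4354, [78, 79]), (65794, [80, 81, 82]), (69634, [83, 84, 85]), (289, [86, 87,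 88]), (4129, [89, 90, 91, 92, 93, 94]), (65569, [95, 96]), (4369, [97, 98, 99, 100, 101]), (65809, [102, 103, 104, 105, 106, 107, 108, 109]), (69649, [110, 111, 112, 113, 114]), (69889, [115, 116, 117]), (4384, [118, 119]), (65824, [120, 121]), (69664, [122]), (69904, [123, 124, 125]), (290, [126]), (4130, [127, 128, 129, 130]), (65570, [131]), (4370, [132, 133, 134]), (65810, [135, 136, 137, 138]), (69650, [139, 140, 141]), (69890, [142, 143, 144]), (4385, [145, 146]), (65825, [147, 148, 149]), (69665, [150, 151]), (69905, [152, 153, 154, 155, 156]), (69920, [157]), (4386, [158, 159]), (65826, [160]), (69666, [161, 162]), (69906, [163, 164]), (69921, [165]), (69922, [166])]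

end Pool.Agent.Helper817.UD
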