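import Pool.Agent.Helper817.UDChk
set_option autoImplicit false
set_option maxRecDepth 100000

/-! The kernel check of the two alternative laws for the table. -/

namespace Pool.Agent.Helper817.UD

theorem chkAll_true : chkAll = true := by decide +kernel

end Pool.Agent.Helper817.UD
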