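import Pool.Agent.Helper817.UDFin
set_option autoImplicit false

/-! The structure constants are those of an alternative ring. -/

namespace Pool.Agent.Helper817.UD

lemma ble_iff (a b : ℕ) : Nat.ble a b = true ↔ a ≤ b := by rw [Nat.ble_eq]

lemma fit_iff (x : ℕ) : fit x = true ↔ x % 16 ≤ 2 ∧ x / 16 % 16 ≤ 2 ∧ x / 256 % 16 ≤ 1 ∧ x / 4096 % 16 ≤ 1 ∧
    x / 65536 % 16 ≤ 1 := by
  unfold fit
  simp only [Bool.and_eq_true, ble_iff]

/-- bounded degree codes -/
def Ok (x : ℕ) : Prop := fit x = true ∧ x ≤ 1048575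

lemma mk_digits (a0 a1 a2 a3 a4 : ℕ) (h0 : a0 < 16) (h1 : a1 < 16) (h2 : a2 < 16) (h3 : a3 < 16) (h4 : a4 < 16) :
    (a0 + 16 * a1 + 256 * a2 + 4096 * a3 + 65536 * a4) % 16 = a0 ∧
    (a0 + 16 * a1 + 256 * a2 + 4096 * a3 + 65536 * a4) / 16 % 16 = a1 ∧
    (a0 + 16 * a1 + 256 * a2 + 4096 * a3 + 65536 * a4) / 256 % 16 = a2 ∧
    (a0 + 16 * a1 + 256 * a2 + 4096 * a3 + 65536 * a4) / 4096 % 16 = a3 ∧
    (a0 + 16 * a1 + 256 * a2 + 4096 * a3 + 65536 * a4) / 65536 % 16 = a4 := by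
  refine ⟨by omega, by omega, by omega, by omega, by omega⟩

lemma ex_digits (x : ℕ) (hx : x ≤ 1048575) : ∃ a0 a1 a2 a3 a4 : ℕ, a0 < 16 ∧ a1 < 16 ∧ a2 < 16 ∧ a3 < 16 ∧ a4 < 16 ∧
    x = a0 + 16 * a1 + 256 * a2 + 4096 * a3 + 65536 * a4 := by
  refine ⟨x % 16, x / 16 % 16, x / 16 / 16 % 16, x / 16 / 16 / 16 % 16, x / 16 / 16 / 16 / 16, ?_, ?_, ?_, ?_, ?_, ?_⟩ <;>
    omega

lemma fit_digits {a0 a1 a2 a3 a4 : ℕ} (h0 : a0 < 16) (h1 : a1 < 16) (h2 : a2 < 16) (h3 : a3 < 16) (h4 : a4 < 16) :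
    fit (a0 + 16 * a1 + 256 * a2 + 4096 * a3 + 65536 * a4) = true ↔ a0 ≤ 2 ∧ a1 ≤ 2 ∧ a2 ≤ 1 ∧ a3 ≤ 1 ∧ a4 ≤ 1 := by
  obtain ⟨e0, e1, e2, e3, e4⟩ := mk_digits a0 a1 a2 a3 a4 h0 h1 h2 h3 h4
  rw [fit_iff, e0, e1, e2, e3, e4]

lemma Ok_digits {x : ℕ} (hx : Ok x) : ∃ a0 a1 a2 a3 a4 : ℕ, (a0 ≤ 2 ∧ a1 ≤ 2 ∧ a2 ≤ 1 ∧ a3 ≤ 1 ∧ a4 ≤ 1) ∧
    x = a0 + 16 * a1 + 256 * a2 + 4096 * a3 + 65536 * a4 := by
  obtain ⟨a0, a1, a2, a3, a4, h0, h1, h2, h3, h4, rfl⟩ := ex_digits x hx.2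
  exact ⟨a0, a1, a2, a3, a4, (fit_digits h0 h1 h2 h3 h4).mp hx.1, rfl⟩

lemma fit_mono {x y z : ℕ} (hx : Ok x) (hy : Ok y) (hz : Ok z) (h : fit (x + y + z) = true) :
    fit (x + y) = true := by
  obtain ⟨a0, a1, a2, a3, a4, ⟨h0, h1, h2, h3, h4⟩, rfl⟩ := Ok_digits hx
  obtain ⟨b0, b1, b2, b3, b4, ⟨k0, k1, k2, k3, k4⟩, rfl⟩ := Ok_digits hy
  obtain ⟨c0, c1, c2, c3, c4, ⟨l0, l1, l2, l3, l4⟩, rfl⟩ := Ok_digits hz
  have e1 : a0 + 16 * a1 + 256 * a2 + 4096 * a3 + 65536 * a4 + (b0 + 16 * b1 + 256 * b2 + 4096 * b3 + 65536 * b4) +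
      (c0 + 16 * c1 + 256 * c2 + 4096 * c3 + 65536 * c4) = (a0 + b0 + c0) + 16 * (a1 + b1 + c1) + 256 * (a2 + b2 + c2) +
      4096 * (a3 + b3 + c3) + 65536 * (a4 + b4 + c4) := by ring
  have e2 : a0 + 16 * a1 + 256 * a2 + 4096 * a3 + 65536 * a4 + (b0 + 16 * b1 + 256 * b2 + 4096 * b3 + 65536 * b4) =
      (a0 + b0) + 16 * (a1 + b1) + 256 * (a2 + b2) + 4096 * (a3 + b3) + 65536 * (a4 + b4) := by ring
  rw [e1, fit_digits (by omega) (by omega) (by omega) (by omega) (by omega)] at h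
  rw [e2, fit_digits (by omega) (by omega) (by omega) (by omega) (by omega)]
  omega

lemma exists_comp (p : ℕ) (hp : p < 167) : ∃ A ∈ comps, p ∈ A.2 := by
  have h : comps.flatMap Prod.snd = List.range 167 := of_decide_eq_true cov_true
  have hp' : p ∈ comps.flatMap Prod.snd := by rw [h]; exact List.mem_range.mpr hp
  exact List.mem_flatMap.mp hp'

lemma lt_of_comp {A : ℕ × List ℕ} (hA : A ∈ comps) {p : ℕ} (hp : p ∈ A.2) : p < 167 := by
  have h : comps.flatMap Prod.snd = List.range 167 := of_decide_eq_true cov_true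
  have hp' : p ∈ comps.flatMap Prod.snd := List.mem_flatMap.mpr ⟨A, hA, hp⟩
  rw [h] at hp'
  exact List.mem_range.mp hp'

lemma D_comp {A : ℕ × List ℕ} (hA : A ∈ comps) : Ok A.1 ∧ ∀ p ∈ A.2, D p = A.1 := by
  have h := dcheck_true
  unfold dcheck at h
  rw [List.all_eq_true] at h
  have h2 := h A hA
  rw [Bool.and_eq_true, Bool.and_eq_true, ble_iff, List.all_eq_true] at h2
  exact ⟨⟨h2.1.1, h2.1.2⟩, fun p hp => Nat.beq_eq.mp (h2.2 p hp)⟩

lemma Ok_D (p : ℕ) (hp : p < 167) : Ok (D p) := by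
  obtain ⟨A, hA, hpA⟩ := exists_comp p hp
  rw [(D_comp hA).2 p hpA]
  exact (D_comp hA).1

lemma grade (p q : ℕ) (hp : p < 167) (hq : q < 167) :
    (fit (D p + D q) = true → ∀ c ∈ pr p q, c / 2 < 167 ∧ D (c / 2) = D p + D q) ∧
    (¬ fit (D p + D q) = true → pr p q = []) := by
  obtain ⟨A, hA, hpA⟩ := exists_comp p hp
  obtain ⟨B, hB, hqB⟩ := exists_comp q hq
  have h := gr_true
  unfold gr at h
  simp only [List.all_eq_true] at h
  have h2 := h A hA B hB p hpA q hqB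
  rw [(D_comp hA).2 p hpA, (D_comp hB).2 q hqB]
  refine ⟨fun hf => ?_, fun hf => ?_⟩
  · rw [hf, cond_true, List.all_eq_true] at h2
    intro c hc
    have h3 := h2 c hc
    rw [Bool.and_eq_true, ble_iff] at h3
    exact ⟨by omega, Nat.beq_eq.mp h3.2⟩
  · rw [Bool.eq_false_iff.mpr hf, cond_false] at h2
    cases hL : pr p q with
    | nil => rfl
    | cons c t => rw [hL] at h2; exact absurd h2 (by simp [isNil])

lemma pr_lt (p q : ℕ) (hp : p < 167) (hq : q < 167) : ∀ c ∈ pr p q, c / 2 < 167 := by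
  intro c hc
  by_cases hf : fit (D p + D q) = true
  · exact ((grade p q hp hq).1 hf c hc).1
  · rw [(grade p q hp hq).2 hf] at hc
    exact absurd hc (List.not_mem_nil)

lemma bind_nil (F : ℕ → List ℕ) (L : List ℕ) (h : ∀ c ∈ L, F (c / 2) = []) : bind F L = [] := by
  induction L with
  | nil => rfl
  | cons c t ih =>
    show app _ (bind F t) = []
    rw [ih (fun d hd => h d (List.mem_cons_of_mem _ hd)), h c List.mem_cons_self]
    cases Nat.beq (c % 2) 0 <;> rfl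

/-- a triple whose degrees do not fit has zero associator -/
lemma asl_nil (i j l : ℕ) (hi : i < 167) (hj : j < 167) (hl : l < 167) (h : ¬ fit (D i + D j + D l) = true) :
    asl i j l = [] := by
  have h1 : bind (fun m => pr m l) (pr i j) = [] := by
    apply bind_nil
    intro c hc
    by_cases hf : fit (D i + D j) = true
    · have h2 := (grade i j hi hj).1 hf c hc
      exact (grade _ l h2.1 hl).2 (by rw [h2.2]; exact h)
    · rw [(grade i j hi hj).2 hf] at hc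
      exact absurd hc (List.not_mem_nil)
  have h2 : bind (fun m => pr i m) (pr j l) = [] := by
    apply bind_nil
    intro c hc
    by_cases hf : fit (D j + D l) = true
    · have h2 := (grade j l hj hl).1 hf c hc
      exact (grade i _ hi h2.1).2 (by rw [h2.2, ← add_assoc]; exact h)
    · rw [(grade j l hj hl).2 hf] at hc
      exact absurd hc (List.not_mem_nil)
  unfold asl
  rw [h1, h2]
  rfl

lemma chk_pair (i j l : ℕ) (hi : i < 167) (hj : j < 167) (hl : l < 167) (hle : D i ≤ D j) (k : ℕ) :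
    cf (asl i j l) k + cf (asl j i l) k = 0 ∧ cf (asl l i j) k + cf (asl l j i) k = 0 := by
  by_cases hf : fit (D i + D j + D l) = true
  · obtain ⟨A, hA, hiA⟩ := exists_comp i hi
    obtain ⟨B, hB, hjB⟩ := exists_comp j hj
    obtain ⟨C, hC, hlC⟩ := exists_comp l hl
    have hf2 := fit_mono (Ok_D i hi) (Ok_D j hj) (Ok_D l hl) hf
    have h := chkAll_true
    unfold chkAll at h
    rw [List.all_eq_true] at h
    have h1 := h A hA
    rw [List.all_eq_true] at h1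
    have h2 := h1 B hB
    rw [(D_comp hA).2 i hiA, (D_comp hB).2 j hjB] at hle
    rw [(D_comp hA).2 i hiA, (D_comp hB).2 j hjB] at hf hf2
    rw [(D_comp hC).2 l hlC] at hf
    rw [hf2, (ble_iff _ _).mpr hle, Bool.and_true, cond_true, List.all_eq_true] at h2
    have h3 := h2 C hC
    rw [hf, cond_true, List.all_eq_true] at h3
    have h4 := h3 i hiA
    rw [List.all_eq_true] at h4
    have h5 := h4 j hjB
    rw [List.all_eq_true] at h5
    have h6 := h5 l hlC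
    rw [Bool.and_eq_true] at h6
    unfold chkL chkR at h6
    rw [← cf_app, ← cf_app]
    exact ⟨cf_zero_of_nrm h6.1 k, cf_zero_of_nrm h6.2 k⟩
  · have e1 : ¬ fit (D j + D i + D l) = true := by rwa [add_comm (D j)]
    have e2 : ¬ fit (D l + D i + D j) = true := by
      have : D l + D i + D j = D i + D j + D l := by ring
      rwa [this]
    have e3 : ¬ fit (D l + D j + D i) = true := by
      have : D l + D j + D i = D i + D j + D l := by ring
      rwa [this]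
    rw [asl_nil i j l hi hj hl hf, asl_nil j i l hj hi hl e1, asl_nil l i j hl hi hj e2, asl_nil l j i hl hj hi e3]
    exact ⟨rfl, rfl⟩

lemma chk_all (i j l : ℕ) (hi : i < 167) (hj : j < 167) (hl : l < 167) (k : ℕ) :
    cf (asl i j l) k + cf (asl j i l) k = 0 ∧ cf (asl l i j) k + cf (asl l j i) k = 0 := by
  rcases le_total (D i) (D j) with h | h
  · exact chk_pair i j l hi hj hl h k
  · have := chk_pair j i l hj hi hl h k
    exact ⟨by rw [add_comm]; exact this.1, by rw [add_comm]; exact this.2⟩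

/-- structure constants -/
noncomputable def ga (i j k : Fin 167) : ℤ := cf (pr i j) k

lemma cf_asl (i j l k : Fin 167) :
    cf (asl i j l) k = ∑ m, ga i j m * ga m l k - ∑ m, ga j l m * ga i m k := by
  unfold asl
  rw [cf_app, cf_flipL, cf_bind _ 167 _ (pr_lt i j i.2 j.2), cf_bind _ 167 _ (pr_lt j l j.2 l.2), ← sub_eq_add_neg]
  rfl

end Pool.Agent.Helper817.UD
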